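import Pool.Agent.LibKLD42.P

set_option autoImplicit false
set_option linter.unusedSectionVars false

namespace Pool.Agent.LibKLD42

open LaurentPolynomial

/-- `H` with its `ℤ[v, v⁻¹]`-basis `b` (indexed by the permutations of `n` points) is the Hecke algebra
of the symmetric group: `b x * b y = b (x y)` when the lengths add up, and
`b s ^ 2 = b e + (v⁻¹ - v) b s` for the adjacent transpositions `s`. -/
structure IsHecke {n : ℕ} {H : Type} [Ring H] [Algebra A H]
    (b : Module.Basis (Equiv.Perm (Fin n)) A H) : Prop where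
  mul_len : ∀ x y, len (x * y) = len x + len y → b x * b y = b (x * y)
  quad : ∀ i, i + 1 < n → b (sim n i) * b (sim n i) = b 1 + (vi - v) • b (sim n i)

/-- `bar` is the bar involution: `v` goes to `v⁻¹` and `b w` goes to the inverse of `b (w⁻¹)`. -/
structure IsBar {n : ℕ} {H : Type} [Ring H] [Algebra A H]
    (b : Module.Basis (Equiv.Perm (Fin n)) A H) (bar : H →+* H) : Prop where
  semi : ∀ (a : A) (x : H), bar (a • x) = (invert a) • bar x
  inv_left : ∀ w, bar (b w) * b w⁻¹ = 1
  inv_right : ∀ w, b w⁻¹ * bar (b w) = 1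

/-- The strict Bruhat order `y < w`: the transitive closure of the relation
`u → u t` for a transposition `t` with `len u < len (u t)`. -/
def Bruhat {n : ℕ} : Equiv.Perm (Fin n) → Equiv.Perm (Fin n) → Prop :=
  Relation.TransGen (fun u z => len u < len z ∧ ∃ p q : Fin n, p ≠ q ∧ z = u * Equiv.swap p q)

/-- `C` is the Kazhdan-Lusztig basis: `C w` is bar invariant and lies in
`b w + ∑_{y < w} v ℤ[v] b y`. -/
structure IsKL {n : ℕ} {H : Type} [Ring H] [Algebra A H]
    (b : Module.Basis (Equiv.Perm (Fin n)) A H) (bar : H →+* H) (C : Equiv.Perm (Fin n) → H) : Prop where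
  bar : ∀ w, bar (C w) = C w
  self : ∀ w, b.repr (C w) w = 1
  supp : ∀ w y, y ≠ w → b.repr (C w) y ≠ 0 → Bruhat y w
  pos : ∀ w y, y ≠ w → ∀ k : ℤ, k ≤ 0 → (b.repr (C w) y).coeff k = 0

/-- `D` is the dual Kazhdan-Lusztig basis: `τ (D x * C (y⁻¹)) = δ_{x,y}`, where `τ` is the coefficient
at the identity. -/
def IsDual {n : ℕ} {H : Type} [Ring H] [Algebra A H]
    (b : Module.Basis (Equiv.Perm (Fin n)) A H) (C D : Equiv.Perm (Fin n) → H) : Prop :=
  ∀ x y, b.repr (D x * C y⁻¹) 1 = if x = y then 1 else 0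

/-- A left star operation (Knuth move) from `w` to `w'`: for two neighbouring adjacent transpositions
`s`, `t`, we have `s w < w < t w`, `t w' < w' < s w'`, and `w'` is `s w` or `t w`. -/
def LeftStar {n : ℕ} (w w' : Equiv.Perm (Fin n)) : Prop :=
  ∃ i j : ℕ, i + 1 < n ∧ j + 1 < n ∧ (j = i + 1 ∨ i = j + 1) ∧
    len (sim n i * w) < len w ∧ len w < len (sim n j * w) ∧
    len (sim n j * w') < len w' ∧ len w' < len (sim n i * w') ∧
    (w' = sim n i * w ∨ w' = sim n j * w)

/-- `w` has exactly one left descent. -/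
def OneLeftDescent {n : ℕ} (w : Equiv.Perm (Fin n)) : Prop :=
  ∃! i : ℕ, i + 1 < n ∧ len (sim n i * w) < len w

section

variable {n : ℕ} {H : Type} [Ring H] [Algebra A H]
  {b : Module.Basis (Equiv.Perm (Fin n)) A H} {bar : H →+* H} {C D : Equiv.Perm (Fin n) → H}

lemma IsHecke.toHData (h : IsHecke b) : HData (Simp n) len b where
  mul := h.mul_len
  sqb := by
    rintro s ⟨i, hi, rfl⟩
    exact h.quad i hi

lemma IsBar.toBarData (h : IsBar b bar) : BarData b bar where
  semi := h.semi
  inv := h.inv_left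

lemma Bruhat.len_lt {y w : Equiv.Perm (Fin n)} (h : Bruhat y w) : len y < len w := by
  induction h with
  | single h => exact h.1
  | tail _ h ih => exact lt_trans ih h.1

lemma IsKL.toKLData (h : IsKL b bar C) : KLData len b bar C where
  bar := h.bar
  self := h.self
  tri := by
    intro w y hy
    by_cases hwy : y = w
    · exact Or.inl hwy
    · exact Or.inr (h.supp w y hwy hy).len_lt
  pos := h.pos

lemma IsDual.toDualData (h : IsDual b C D) : DualData b C D := by
  intro w u
  have := h w u⁻¹
  rw [inv_inv] at this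
  unfold tau
  rw [this]
  by_cases h1 : u = w⁻¹
  · rw [if_pos (by rw [h1, inv_inv]), if_pos h1]
  · rw [if_neg (by rintro rfl; simp at h1), if_neg h1]

end

end Pool.Agent.LibKLD42
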