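import Pool.Agent.LibKLD42.P

set_option autoImplicit false
set_option linter.unusedSectionVars false

namespace Pool.Agent.LibKLD42

variable {n : ℕ}

/-- The permutation `w` avoids the pattern 321 (that is, it is fully commutative). -/
def FCp (w : Equiv.Perm (Fin n)) : Prop :=
  ∀ i j k : Fin n, i < j → j < k → ¬ (w k < w j ∧ w j < w i)

end Pool.Agent.LibKLD42
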