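import Pool.Agent.LibKLD42.Defs
import Pool.Agent.LibKLD42.Q0

set_option autoImplicit false
set_option linter.unusedSectionVars false

namespace Pool.Agent.LibKLD42

/-- `x ≤ y` in the left cell preorder (direct form): for some `h` the basis element `C y` has a nonzero
coefficient in `h * C x` written in the Kazhdan-Lusztig basis `C`. -/
def LeftLe {n : ℕ} {H : Type} [Ring H] [Algebra A H] (C : Equiv.Perm (Fin n) → H)
    (x y : Equiv.Perm (Fin n)) : Prop :=
  ∃ (h : H) (c : Equiv.Perm (Fin n) → A), h * C x = ∑ u, c u • C u ∧ c y ≠ 0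

/-- `x` and `y` are in the same left cell: `x ≤ y` and `y ≤ x` (we even allow chains of the relation
`LeftLe`, so that nothing depends on its transitivity). -/
def LeftCell {n : ℕ} {H : Type} [Ring H] [Algebra A H] (C : Equiv.Perm (Fin n) → H)
    (x y : Equiv.Perm (Fin n)) : Prop :=
  Relation.ReflTransGen (LeftLe C) x y ∧ Relation.ReflTransGen (LeftLe C) y x

end Pool.Agent.LibKLD42
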