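import Pool.Agent.LibKLD42.Q0

set_option autoImplicit false
set_option linter.unusedSectionVars false

namespace Pool.Agent.LibKLD42

variable {n : ℕ}

/-- an adjacent transposition preserves the order of all pairs but one -/
lemma q1_lt {i : ℕ} (h : i + 1 < n) {p q : Fin n} (hpq : p < q)
    (hne : ¬ ((p : ℕ) = i ∧ (q : ℕ) = i + 1)) : sim n i p < sim n i q := by
  rw [Fin.lt_def, sim_val h, sim_val h]
  rw [Fin.lt_def] at hpq
  split_ifs <;> omega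

lemma q1_left {i : ℕ} (h : i + 1 < n) {p : Fin n} (hp : (p : ℕ) = i) :
    sim n i p = ⟨i + 1, h⟩ := by
  apply Fin.ext
  rw [sim_val h, if_pos hp]

lemma q1_right {i : ℕ} (h : i + 1 < n) {p : Fin n} (hp : (p : ℕ) = i + 1) :
    sim n i p = ⟨i, Nat.lt_of_succ_lt h⟩ := by
  apply Fin.ext
  rw [sim_val h, if_neg (by omega), if_pos hp]

lemma q1_fix {i : ℕ} (h : i + 1 < n) {p : Fin n} (hp : (p : ℕ) ≠ i) (hp' : (p : ℕ) ≠ i + 1) :
    sim n i p = p := by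
  apply Fin.ext
  rw [sim_val h, if_neg hp, if_neg hp']

/-- a 321 pattern of `w * s` for `w` without such a pattern uses both points of `s` -/
lemma q1_cases {i : ℕ} (h : i + 1 < n) (w : Equiv.Perm (Fin n)) (hf : FCp w) {p q r : Fin n}
    (hpq : p < q) (hqr : q < r)
    (hw : (w * sim n i) r < (w * sim n i) q ∧ (w * sim n i) q < (w * sim n i) p) :
    (((p : ℕ) = i ∧ (q : ℕ) = i + 1) ∧ w r < w ⟨i, Nat.lt_of_succ_lt h⟩ ∧
      w ⟨i, Nat.lt_of_succ_lt h⟩ < w ⟨i + 1, h⟩) ∨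
    (((q : ℕ) = i ∧ (r : ℕ) = i + 1) ∧ w ⟨i + 1, h⟩ < w p ∧
      w ⟨i, Nat.lt_of_succ_lt h⟩ < w ⟨i + 1, h⟩) := by
  simp only [Equiv.Perm.mul_apply] at hw
  obtain ⟨h1, h2⟩ := hw
  rw [Fin.lt_def] at hpq hqr
  by_cases c1 : (p : ℕ) = i ∧ (q : ℕ) = i + 1
  · left
    rw [q1_left h c1.1, q1_right h c1.2] at h2
    rw [q1_right h c1.2, q1_fix h (p := r) (by omega) (by omega)] at h1
    exact ⟨c1, h1, h2⟩
  · by_cases c2 : (q : ℕ) = i ∧ (r : ℕ) = i + 1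
    · right
      rw [q1_left h c2.1, q1_right h c2.2] at h1
      rw [q1_left h c2.1, q1_fix h (p := p) (by omega) (by omega)] at h2
      exact ⟨c2, h2, h1⟩
    · exact absurd ⟨h1, h2⟩ (hf _ _ _ (q1_lt h (Fin.lt_def.2 hpq) c1) (q1_lt h (Fin.lt_def.2 hqr) c2))

/-- L1 -/
lemma fc_dn {i : ℕ} (h : i + 1 < n) (w : Equiv.Perm (Fin n)) (hf : FCp w)
    (hw : w ⟨i + 1, h⟩ < w ⟨i, Nat.lt_of_succ_lt h⟩) : FCp (w * sim n i) := by
  intro p q r hpq hqr hc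
  rcases q1_cases h w hf hpq hqr hc with ⟨-, -, h3⟩ | ⟨-, -, h3⟩
  · exact absurd h3 (not_lt.mpr hw.le)
  · exact absurd h3 (not_lt.mpr hw.le)

/-- L3 -/
lemma fc_inv (w : Equiv.Perm (Fin n)) (hf : FCp w) : FCp w⁻¹ := by
  intro a b c hab hbc hc
  refine hf (w⁻¹ c) (w⁻¹ b) (w⁻¹ a) hc.1 hc.2 ⟨?_, ?_⟩
  · simpa using hab
  · simpa using hbc

/-- L4a : pattern 213 goes to 231 -/
lemma fc_star1 {i : ℕ} (h : i + 2 < n) (w : Equiv.Perm (Fin n)) (hf : FCp w)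
    (h1 : w ⟨i + 1, by omega⟩ < w ⟨i, by omega⟩)
    (h2 : w ⟨i, by omega⟩ < w ⟨i + 2, h⟩) : FCp (w * sim n (i + 1)) := by
  intro p q r hpq hqr hc
  have h' : (i + 1) + 1 < n := h
  rcases q1_cases h' w hf hpq hqr hc with ⟨⟨hp, hq⟩, h3, h4⟩ | ⟨⟨hq, hr⟩, h3, h4⟩
  · -- w r < w (i+1) < w i
    rw [Fin.lt_def] at hqr
    refine hf ⟨i, by omega⟩ ⟨i + 1, by omega⟩ r ?_ ?_ ⟨h3, h1⟩
    · rw [Fin.lt_def]; simp
    · rw [Fin.lt_def]; simp only; omega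
  · -- w (i+2) < w p
    rw [Fin.lt_def] at hpq
    have hpi : (p : ℕ) ≠ i := by
      intro hpi
      have e : p = ⟨i, by omega⟩ := Fin.ext hpi
      rw [e] at h3
      exact absurd h3 (not_lt.mpr h2.le)
    refine hf p ⟨i, by omega⟩ ⟨i + 1, by omega⟩ ?_ ?_ ⟨h1, h2.trans h3⟩
    · rw [Fin.lt_def]; simp only; omega
    · rw [Fin.lt_def]; simp

/-- L4b : pattern 132 goes to 312 -/
lemma fc_star2 {i : ℕ} (h : i + 2 < n) (w : Equiv.Perm (Fin n)) (hf : FCp w)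
    (h1 : w ⟨i, by omega⟩ < w ⟨i + 2, h⟩)
    (h2 : w ⟨i + 2, h⟩ < w ⟨i + 1, by omega⟩) : FCp (w * sim n i) := by
  intro p q r hpq hqr hc
  have h' : i + 1 < n := by omega
  rcases q1_cases h' w hf hpq hqr hc with ⟨⟨hp, hq⟩, h3, h4⟩ | ⟨⟨hq, hr⟩, h3, h4⟩
  · -- w r < w i
    rw [Fin.lt_def] at hqr
    have hri : (r : ℕ) ≠ i + 2 := by
      intro hri
      have e : r = ⟨i + 2, h⟩ := Fin.ext hri
      rw [e] at h3
      exact absurd h3 (not_lt.mpr h1.le)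
    refine hf ⟨i + 1, by omega⟩ ⟨i + 2, h⟩ r ?_ ?_ ⟨h3.trans h1, h2⟩
    · rw [Fin.lt_def]; simp
    · rw [Fin.lt_def]; simp only; omega
  · -- w (i+1) < w p
    rw [Fin.lt_def] at hpq
    refine hf p ⟨i + 1, by omega⟩ ⟨i + 2, h⟩ ?_ ?_ ⟨h2, h3⟩
    · rw [Fin.lt_def]; simp only; omega
    · rw [Fin.lt_def]; simp

/-- L7 -/
lemma nonfc_comm {i j : ℕ} (h : i + 1 < n) (hj : j + 1 < n) (hij : i + 1 < j ∨ j + 1 < i)
    (w : Equiv.Perm (Fin n)) (hf : FCp w)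
    (hw : w ⟨i, Nat.lt_of_succ_lt h⟩ < w ⟨i + 1, h⟩) (hn : ¬ FCp (w * sim n i)) :
    ¬ FCp (w * sim n j * sim n i) := by
  intro hv
  apply hn
  intro p q r hpq hqr hc
  have e1 : (w * sim n j * sim n i) ⟨i, Nat.lt_of_succ_lt h⟩ = w ⟨i + 1, h⟩ := by
    rw [Equiv.Perm.mul_apply, Equiv.Perm.mul_apply, q1_left h rfl,
      q1_fix hj (p := ⟨i + 1, h⟩) (by simp only; omega) (by simp only; omega)]
  have e2 : (w * sim n j * sim n i) ⟨i + 1, h⟩ = w ⟨i, Nat.lt_of_succ_lt h⟩ := by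
    rw [Equiv.Perm.mul_apply, Equiv.Perm.mul_apply, q1_right h rfl,
      q1_fix hj (p := ⟨i, Nat.lt_of_succ_lt h⟩) (by simp only; omega) (by simp only; omega)]
  have e3 : ∀ t : Fin n, (t : ℕ) ≠ i → (t : ℕ) ≠ i + 1 →
      (w * sim n j * sim n i) (sim n j t) = w t := by
    intro t h1 h2
    have h3 : sim n i (sim n j t) = sim n j t := by
      apply q1_fix h
      · rw [sim_val hj]; split_ifs <;> omega
      · rw [sim_val hj]; split_ifs <;> omega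
    rw [Equiv.Perm.mul_apply, Equiv.Perm.mul_apply, h3, sim_app hj]
  rcases q1_cases h w hf hpq hqr hc with ⟨⟨hp, hq⟩, h3, h4⟩ | ⟨⟨hq, hr⟩, h3, h4⟩
  · rw [Fin.lt_def] at hqr
    refine hv ⟨i, Nat.lt_of_succ_lt h⟩ ⟨i + 1, h⟩ (sim n j r) ?_ ?_ ⟨?_, ?_⟩
    · rw [Fin.lt_def]; simp
    · rw [Fin.lt_def, sim_val hj]
      simp only
      split_ifs <;> omega
    · rw [e2, e3 r (by omega) (by omega)]
      exact h3
    · rw [e1, e2]
      exact h4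
  · rw [Fin.lt_def] at hpq
    refine hv (sim n j p) ⟨i, Nat.lt_of_succ_lt h⟩ ⟨i + 1, h⟩ ?_ ?_ ⟨?_, ?_⟩
    · rw [Fin.lt_def, sim_val hj]
      simp only
      split_ifs <;> omega
    · rw [Fin.lt_def]; simp
    · rw [e1, e2]
      exact h4
    · rw [e1, e3 p (by omega) (by omega)]
      exact h3

end Pool.Agent.LibKLD42
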