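import Pool.Agent.LibKLD42.Q0

set_option autoImplicit false
set_option linter.unusedSectionVars false

namespace Pool.Agent.LibKLD42

variable {n : ℕ}

/-- values as natural numbers -/
def Fv (w : Equiv.Perm (Fin n)) (k : ℕ) : ℕ := if h : k < n then (w ⟨k, h⟩ : ℕ) else 0

lemma Fv_of (w : Equiv.Perm (Fin n)) {k : ℕ} (h : k < n) : Fv w k = (w ⟨k, h⟩ : ℕ) := dif_pos h

lemma Fv_ne (w : Equiv.Perm (Fin n)) {k l : ℕ} (hk : k < n) (hl : l < n) (h : k ≠ l) :
    Fv w k ≠ Fv w l := by
  rw [Fv_of w hk, Fv_of w hl]
  intro h1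
  have := w.injective (Fin.ext h1)
  simp at this
  exact h this

lemma Fv_sim (w : Equiv.Perm (Fin n)) {i k : ℕ} (hi : i + 1 < n) (hk : k < n) :
    Fv (w * sim n i) k = Fv w (if k = i then i + 1 else if k = i + 1 then i else k) := by
  have h1 : (if k = i then i + 1 else if k = i + 1 then i else k) < n := by
    split_ifs <;> omega
  rw [Fv_of _ hk, Fv_of w h1, Equiv.Perm.mul_apply]
  congr 2
  apply Fin.ext
  rw [sim_val hi]

lemma nonfc_aux (P : Equiv.Perm (Fin n) → Prop)
    (hdd : ∀ (w : Equiv.Perm (Fin n)) (i : ℕ), i + 2 < n →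
      Fv w (i + 2) < Fv w (i + 1) → Fv w (i + 1) < Fv w i → P w)
    (hst1 : ∀ (w : Equiv.Perm (Fin n)) (i : ℕ), i + 2 < n →
      Fv w (i + 1) < Fv w (i + 2) → Fv w (i + 2) < Fv w i → P (w * sim n i) → P w)
    (hst2 : ∀ (w : Equiv.Perm (Fin n)) (i : ℕ), i + 2 < n →
      Fv w (i + 2) < Fv w i → Fv w i < Fv w (i + 1) → P (w * sim n (i + 1)) → P w) :
    ∀ (d : ℕ) (w : Equiv.Perm (Fin n)) (p q r : ℕ), p < q → q < r → r < n → r - p ≤ d →
      Fv w r < Fv w q → Fv w q < Fv w p → P w := by
  intro d
  induction d with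
  | zero => intro w p q r h1 h2 h3 h4; omega
  | succ d ih =>
    intro w p q r hpq hqr hr hd hw1 hw2
    by_cases hA : p + 2 ≤ q
    · have n1 := Fv_ne w (k := p + 1) (l := q) (by omega) (by omega) (by omega)
      by_cases h1 : Fv w q < Fv w (p + 1)
      · exact ih w (p + 1) q r (by omega) hqr hr (by omega) hw1 h1
      · have h1' : Fv w (p + 1) < Fv w q := by omega
        by_cases h2 : p + 2 < q ∧ Fv w q < Fv w (p + 2)
        · exact ih w (p + 2) q r (by omega) hqr hr (by omega) hw1 h2.2
        · by_cases h3 : Fv w (p + 2) < Fv w (p + 1)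
          · exact hdd w p (by omega) h3 (by omega)
          · have n2 := Fv_ne w (k := p + 1) (l := p + 2) (by omega) (by omega) (by omega)
            have h5 : Fv w (p + 2) ≤ Fv w q := by
              by_cases h6 : p + 2 = q
              · rw [h6]
              · have : ¬ Fv w q < Fv w (p + 2) := fun h7 => h2 ⟨by omega, h7⟩
                omega
            refine hst1 w p (by omega) (by omega) (by omega) ?_
            refine ih (w * sim n p) (p + 1) q r (by omega) hqr hr (by omega) ?_ ?_
            · rw [Fv_sim w (by omega) hr, Fv_sim w (by omega) (by omega), if_neg (by omega),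
                if_neg (by omega), if_neg (by omega), if_neg (by omega)]
              exact hw1
            · rw [Fv_sim w (by omega) (by omega : q < n), Fv_sim w (by omega) (by omega : p + 1 < n),
                if_neg (by omega), if_neg (by omega), if_neg (by omega), if_pos rfl]
              exact hw2
    · have hq : q = p + 1 := by omega
      by_cases hB : q + 2 ≤ r
      · obtain ⟨t, rfl⟩ : ∃ t, r = t + 2 := ⟨r - 2, by omega⟩
        have n1 := Fv_ne w (k := t + 1) (l := q) (by omega) (by omega) (by omega)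
        by_cases h1 : Fv w (t + 1) < Fv w q
        · exact ih w p q (t + 1) hpq (by omega) (by omega) (by omega) h1 hw2
        · have h1' : Fv w q < Fv w (t + 1) := by omega
          by_cases h2 : q < t ∧ Fv w t < Fv w q
          · exact ih w p q t hpq h2.1 (by omega) (by omega) h2.2 hw2
          · by_cases h3 : Fv w (t + 1) < Fv w t
            · exact hdd w t (by omega) (by omega) h3
            · have n2 := Fv_ne w (k := t) (l := t + 1) (by omega) (by omega) (by omega)
              have h5 : Fv w q ≤ Fv w t := by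
                by_cases h6 : q = t
                · rw [h6]
                · have : ¬ Fv w t < Fv w q := fun h7 => h2 ⟨by omega, h7⟩
                  omega
              refine hst2 w t (by omega) (by omega) (by omega) ?_
              refine ih (w * sim n (t + 1)) p q (t + 1) hpq (by omega) (by omega) (by omega) ?_ ?_
              · rw [Fv_sim w (by omega) (by omega : t + 1 < n), Fv_sim w (by omega) (by omega : q < n),
                  if_pos rfl, if_neg (by omega), if_neg (by omega)]
                exact hw1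
              · rw [Fv_sim w (by omega) (by omega : q < n), Fv_sim w (by omega) (by omega : p < n),
                  if_neg (by omega), if_neg (by omega), if_neg (by omega), if_neg (by omega)]
                exact hw2
      · have hr' : r = p + 2 := by omega
        subst hq hr'
        exact hdd w p hr hw1 hw2

/-- L5 : every permutation containing 321 reaches an adjacent double descent by Knuth moves.
Proof: strong induction on `r - p` for a pattern `p < q < r`, `w r < w q < w p`.
If `q ≥ p + 2`: if `w (p+1) > w q` use the pattern `(p+1, q, r)`; else if `p + 2 < q` and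
`w (p+2) > w q` use `(p+2, q, r)`; else if `w (p+2) < w (p+1)` use `(p, p+1, p+2)`;
else `w (p+1) < w (p+2) < w p` (if `p + 2 = q` too), so apply `hst1` at `p`: `w * sim n p` has the pattern
`(p+1, q, r)`.
If `q = p + 1` and `r ≥ q + 2`: mirror image with `r - 1`, `r - 2` and `hst2` at `r - 2`.
If `q = p + 1` and `r = p + 2`: `hdd`. -/
lemma nonfc_induct (P : Equiv.Perm (Fin n) → Prop)
    (hdd : ∀ (w : Equiv.Perm (Fin n)) (i : ℕ) (h : i + 2 < n),
      w ⟨i + 2, h⟩ < w ⟨i + 1, by omega⟩ → w ⟨i + 1, by omega⟩ < w ⟨i, by omega⟩ → P w)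
    (hst1 : ∀ (w : Equiv.Perm (Fin n)) (i : ℕ) (h : i + 2 < n),
      w ⟨i + 1, by omega⟩ < w ⟨i + 2, h⟩ → w ⟨i + 2, h⟩ < w ⟨i, by omega⟩ → P (w * sim n i) → P w)
    (hst2 : ∀ (w : Equiv.Perm (Fin n)) (i : ℕ) (h : i + 2 < n),
      w ⟨i + 2, h⟩ < w ⟨i, by omega⟩ → w ⟨i, by omega⟩ < w ⟨i + 1, by omega⟩ →
        P (w * sim n (i + 1)) → P w) :
    ∀ w : Equiv.Perm (Fin n), ¬ FCp w → P w := by
  intro w hw
  unfold FCp at hw
  simp only [not_forall, not_not] at hw
  obtain ⟨i, j, k, hij, hjk, h1, h2⟩ := hw
  refine nonfc_aux P ?_ ?_ ?_ n w i j k hij hjk k.2 (by omega) ?_ ?_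
  · intro u m hm a b
    rw [Fv_of u hm, Fv_of u (by omega : m + 1 < n)] at a
    rw [Fv_of u (by omega : m + 1 < n), Fv_of u (by omega : m < n)] at b
    exact hdd u m hm a b
  · intro u m hm a b c
    rw [Fv_of u hm, Fv_of u (by omega : m + 1 < n)] at a
    rw [Fv_of u hm, Fv_of u (by omega : m < n)] at b
    exact hst1 u m hm a b c
  · intro u m hm a b c
    rw [Fv_of u hm, Fv_of u (by omega : m < n)] at a
    rw [Fv_of u (by omega : m + 1 < n), Fv_of u (by omega : m < n)] at b
    exact hst2 u m hm a b c
  · rw [Fv_of w k.2, Fv_of w j.2]; exact h1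
  · rw [Fv_of w j.2, Fv_of w i.2]; exact h2

end Pool.Agent.LibKLD42
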