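import Pool.Agent.LibKLD42.Q0

set_option autoImplicit false
set_option linter.unusedSectionVars false

namespace Pool.Agent.LibKLD42

variable {n : ℕ}

private lemma Q3_nat (n : ℕ) (f g : ℕ → ℕ) (hf : ∀ k, k < n → f k < n ∧ g (f k) = k)
    (hg : ∀ k, k < n → g k < n ∧ f (g k) = k)
    (h1 : ∀ i, i + 2 < n → f i < f (i + 2)) (h2 : ∀ i, i + 2 < n → g i < g (i + 2)) :
    ∀ i, i ≤ n → (∀ k, k < i → f k < i ∧ g k < i) ∨
      (∃ j, i = j + 1 ∧ i < n ∧ (∀ k, k < j → f k < j ∧ g k < j) ∧ f j = j + 1 ∧ f (j + 1) = j) := by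
  intro i
  induction i with
  | zero => intro _; left; intro k hk; omega
  | succ i ih =>
    intro hi
    rcases ih (by omega) with hA | ⟨j, hj, hjn, hB, hj1, hj2⟩
    · by_cases he : f i = i
      · left
        intro k hk
        rcases Nat.lt_succ_iff_lt_or_eq.mp hk with h | h
        · have := hA k h
          omega
        · subst h
          have h3 := (hf k (by omega)).2
          rw [he] at h3
          omega
      · right
        have hfi : i < f i := by
          by_contra hc
          have h3 : f i < i := by omega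
          have h4 := (hA (f i) h3).2
          rw [(hf i (by omega)).2] at h4
          omega
        have hgi : i < g i := by
          by_contra hc
          rcases Nat.lt_or_ge (g i) i with h3 | h3
          · have h4 := (hA (g i) h3).1
            rw [(hg i (by omega)).2] at h4
            omega
          · have h5 : g i = i := by omega
            have h6 := (hg i (by omega)).2
            rw [h5] at h6
            exact he h6
        have hfn := (hf i (by omega)).1
        have hgn := (hg i (by omega)).1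
        have hg1 : g i = i + 1 := by
          by_contra hc
          obtain ⟨m, hm⟩ : ∃ m, g i = m + 2 := ⟨g i - 2, by omega⟩
          have h3 := h1 m (by omega)
          rw [← hm, (hg i (by omega)).2] at h3
          have h4 := (hA _ h3).2
          rw [(hf m (by omega)).2] at h4
          omega
        have hf1 : f i = i + 1 := by
          by_contra hc
          obtain ⟨m, hm⟩ : ∃ m, f i = m + 2 := ⟨f i - 2, by omega⟩
          have h3 := h2 m (by omega)
          rw [← hm, (hf i (by omega)).2] at h3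
          have h4 := (hA _ h3).1
          rw [(hg m (by omega)).2] at h4
          omega
        refine ⟨i, rfl, by omega, hA, hf1, ?_⟩
        rw [← hg1]
        exact (hg i (by omega)).2
    · left
      subst hj
      have e1 := (hf j (by omega)).2
      have e2 := (hf (j + 1) (by omega)).2
      rw [hj1] at e1
      rw [hj2] at e2
      intro k hk
      rcases Nat.lt_trichotomy k j with h | h | h
      · have := hB k h
        omega
      · subst h
        omega
      · have h3 : k = j + 1 := by omega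
        subst h3
        omega

private lemma Q3_bound (n : ℕ) (f g : ℕ → ℕ) (hf : ∀ k, k < n → f k < n ∧ g (f k) = k)
    (hg : ∀ k, k < n → g k < n ∧ f (g k) = k)
    (h1 : ∀ i, i + 2 < n → f i < f (i + 2)) (h2 : ∀ i, i + 2 < n → g i < g (i + 2))
    (k : ℕ) (hk : k < n) : f k ≤ k + 1 ∧ k ≤ f k + 1 := by
  constructor
  · rcases Q3_nat n f g hf hg h1 h2 (k + 1) hk with h | ⟨j, hj, _, _, h3, _⟩
    · have := (h k (by omega)).1
      omega
    · have : j = k := by omega
      subst this
      omega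
  · rcases Q3_nat n f g hf hg h1 h2 k (by omega) with h | ⟨j, hj, _, _, _, h4⟩
    · by_contra hc
      have h5 := (h (f k) (by omega)).2
      rw [(hf k hk).2] at h5
      omega
    · subst hj
      omega

/-- L6 : a permutation with `w i < w (i+2)` and `w⁻¹ i < w⁻¹ (i+2)` for all `i` moves every point by at
most 1.  Proof: strong induction: for all `i`, either `w` maps `{0..i-1}` into itself, or it maps
`{0..i-2}` into itself and `w (i-1) = i`, `w i = i - 1`.  (If `w` maps `{0..i-1}` into itself and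
`w i ≠ i`, put `p = w⁻¹ i > i`; if `p ≥ i + 2` then `w (p-2) > i = w p`, contradiction; so `p = i+1`;
the same for `w⁻¹` gives `w i = i + 1`.) -/
lemma near_id (w : Equiv.Perm (Fin n))
    (h1 : ∀ (i : ℕ) (h : i + 2 < n), w ⟨i, by omega⟩ < w ⟨i + 2, h⟩)
    (h2 : ∀ (i : ℕ) (h : i + 2 < n), w⁻¹ ⟨i, by omega⟩ < w⁻¹ ⟨i + 2, h⟩) (k : Fin n) :
    (w k : ℕ) ≤ k + 1 ∧ (k : ℕ) ≤ w k + 1 := by
  set f : ℕ → ℕ := fun k => if h : k < n then (w ⟨k, h⟩ : ℕ) else 0 with hf
  set g : ℕ → ℕ := fun k => if h : k < n then (w⁻¹ ⟨k, h⟩ : ℕ) else 0 with hg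
  have ef : ∀ k (h : k < n), f k = w ⟨k, h⟩ := fun k h => by simp only [hf, dif_pos h]
  have eg : ∀ k (h : k < n), g k = (w⁻¹ ⟨k, h⟩ : Fin n) := fun k h => by simp only [hg, dif_pos h]
  have hb := Q3_bound n f g ?_ ?_ ?_ ?_ k k.2
  · rw [ef k k.2] at hb
    exact hb
  · intro k h
    rw [ef k h]
    refine ⟨(w ⟨k, h⟩).2, ?_⟩
    rw [eg _ (w ⟨k, h⟩).2]
    simp
  · intro k h
    rw [eg k h]
    refine ⟨(w⁻¹ ⟨k, h⟩).2, ?_⟩
    rw [ef _ (w⁻¹ ⟨k, h⟩).2]
    simp
  · intro i h
    rw [ef i (by omega), ef (i + 2) h]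
    exact h1 i h
  · intro i h
    rw [eg i (by omega), eg (i + 2) h]
    exact h2 i h

/-- L8 -/
lemma irred_len (w a : Equiv.Perm (Fin n))
    (h1 : ∀ (i : ℕ) (h : i + 2 < n), w ⟨i, by omega⟩ < w ⟨i + 2, h⟩)
    (h2 : ∀ (i : ℕ) (h : i + 2 < n), w⁻¹ ⟨i, by omega⟩ < w⁻¹ ⟨i + 2, h⟩)
    (ha : ∀ (i : ℕ) (h : i + 1 < n), w ⟨i + 1, h⟩ < w ⟨i, by omega⟩ → a ⟨i + 1, h⟩ < a ⟨i, by omega⟩) :
    len w ≤ len a := by
  unfold len
  apply Finset.card_le_card
  intro p hp
  rw [Finset.mem_filter] at hp ⊢
  obtain ⟨_, hlt, hinv⟩ := hp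
  refine ⟨Finset.mem_univ _, hlt, ?_⟩
  have b1 := near_id w h1 h2 p.1
  have b2 := near_id w h1 h2 p.2
  rw [Fin.lt_def] at hlt hinv
  have hq : (p.2 : ℕ) = p.1 + 1 := by omega
  have hn : (p.1 : ℕ) + 1 < n := by have := p.2.2; omega
  have e2 : p.2 = ⟨p.1 + 1, hn⟩ := Fin.ext hq
  have e1 : p.1 = ⟨p.1, by omega⟩ := Fin.ext rfl
  have h3 := ha p.1 hn (by rw [← e2, Fin.lt_def]; exact hinv)
  rw [← e2] at h3
  exact h3

end Pool.Agent.LibKLD42
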