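import Pool.Agent.LibKLD42.O
import Pool.Agent.LibKLD42.Q1
import Pool.Agent.LibKLD42.Q2
import Pool.Agent.LibKLD42.Q3

set_option autoImplicit false
set_option linter.unusedSectionVars false
set_option linter.unusedSimpArgs false

namespace Pool.Agent.LibKLD42

open LaurentPolynomial

section

variable {n : ℕ}

lemma mem_simp {i : ℕ} (h : i + 1 < n) : sim n i ∈ Simp n := ⟨i, h, rfl⟩

/-- one of two neighbours is not a descent of a fully commutative element -/
lemma fc_adj {i j : ℕ} (hi : i + 1 < n) (hj : j + 1 < n) (hij : j = i + 1 ∨ i = j + 1)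
    (z : Equiv.Perm (Fin n)) (hf : FCp z) (h1 : vl z (i + 1) < vl z i) : vl z j < vl z (j + 1) := by
  by_contra hcon
  have hne : vl z j ≠ vl z (j + 1) := by
    intro e
    have := vl_inj z (Nat.lt_of_succ_lt hj) hj e
    omega
  have h2 : vl z (j + 1) < vl z j := by omega
  rcases hij with rfl | rfl
  · rw [vl_of z hi, vl_of z (Nat.lt_of_succ_lt hi)] at h1
    rw [vl_of z hj, vl_of z (Nat.lt_of_succ_lt hj)] at h2
    exact hf ⟨i, Nat.lt_of_succ_lt hi⟩ ⟨i + 1, hi⟩ ⟨i + 1 + 1, hj⟩ (by simp [Fin.lt_def]) (by simp [Fin.lt_def])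
      ⟨h2, h1⟩
  · rw [vl_of z hi, vl_of z (Nat.lt_of_succ_lt hi)] at h1
    rw [vl_of z hj, vl_of z (Nat.lt_of_succ_lt hj)] at h2
    exact hf ⟨j, Nat.lt_of_succ_lt hj⟩ ⟨j + 1, hj⟩ ⟨j + 1 + 1, hi⟩ (by simp [Fin.lt_def]) (by simp [Fin.lt_def])
      ⟨h1, h2⟩

/-- the star partner of a fully commutative element -/
lemma fc_star {i j : ℕ} (hi : i + 1 < n) (hj : j + 1 < n) (hij : j = i + 1 ∨ i = j + 1)
    (z : Equiv.Perm (Fin n)) (hf : FCp z) (h1 : vl z (i + 1) < vl z i) :
    ∃ z', FCp z' ∧ vl z' (j + 1) < vl z' j ∧ vl z' i < vl z' (i + 1) ∧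
      (z' = z * sim n i ∨ z' = z * sim n j) := by
  have h2 := fc_adj hi hj hij z hf h1
  rcases hij with rfl | rfl
  · -- positions i, i+1, i+2 ; `z i > z (i+1) < z (i+2)`
    rcases lt_trichotomy (vl z i) (vl z (i + 2)) with h3 | h3 | h3
    · refine ⟨z * sim n (i + 1), ?_, ?_, ?_, Or.inr rfl⟩
      · apply fc_star1 hj z hf
        · rw [vl_of z hi, vl_of z (Nat.lt_of_succ_lt hi)] at h1
          exact h1
        · rw [vl_of z (Nat.lt_of_succ_lt hi), vl_of z hj] at h3
          exact h3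
      · rw [vl_mul z hj hj, vl_mul z hj (Nat.lt_of_succ_lt hj)]
        rw [if_neg (by omega), if_pos rfl, if_pos rfl]
        exact h2
      · rw [vl_mul z hj hi, vl_mul z hj (Nat.lt_of_succ_lt hi)]
        rw [if_neg (by omega), if_neg (by omega), if_pos rfl]
        exact h3
    · have := vl_inj z (by omega) (by omega) h3
      omega
    · refine ⟨z * sim n i, ?_, ?_, ?_, Or.inl rfl⟩
      · apply fc_dn hi z hf
        rw [vl_of z hi, vl_of z (Nat.lt_of_succ_lt hi)] at h1
        exact h1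
      · rw [vl_mul z hi hj, vl_mul z hi (Nat.lt_of_succ_lt hj)]
        rw [if_neg (by omega), if_neg (by omega), if_neg (by omega), if_pos rfl]
        exact h3
      · rw [vl_mul z hi hi, vl_mul z hi (Nat.lt_of_succ_lt hi)]
        rw [if_pos rfl, if_neg (by omega), if_pos rfl]
        exact h1
  · -- positions j, j+1, j+2 ; `z j < z (j+1) > z (j+2)`
    rcases lt_trichotomy (vl z j) (vl z (j + 2)) with h3 | h3 | h3
    · refine ⟨z * sim n j, ?_, ?_, ?_, Or.inr rfl⟩
      · apply fc_star2 hi z hf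
        · rw [vl_of z (Nat.lt_of_succ_lt hj), vl_of z hi] at h3
          exact h3
        · rw [vl_of z hi, vl_of z (Nat.lt_of_succ_lt hi)] at h1
          exact h1
      · rw [vl_mul z hj hj, vl_mul z hj (Nat.lt_of_succ_lt hj)]
        rw [if_neg (by omega), if_pos rfl, if_pos rfl]
        exact h2
      · rw [vl_mul z hj hi, vl_mul z hj (Nat.lt_of_succ_lt hi)]
        rw [if_neg (by omega), if_pos rfl, if_neg (by omega), if_neg (by omega)]
        exact h3
    · have := vl_inj z (by omega) (by omega) h3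
      omega
    · refine ⟨z * sim n (j + 1), ?_, ?_, ?_, Or.inl rfl⟩
      · apply fc_dn hi z hf
        rw [vl_of z hi, vl_of z (Nat.lt_of_succ_lt hi)] at h1
        exact h1
      · rw [vl_mul z hi hj, vl_mul z hi (Nat.lt_of_succ_lt hj)]
        rw [if_pos rfl, if_neg (by omega), if_neg (by omega)]
        exact h3
      · rw [vl_mul z hi hi, vl_mul z hi (Nat.lt_of_succ_lt hi)]
        rw [if_pos rfl, if_neg (by omega), if_pos rfl]
        exact h1

end

section

variable {n : ℕ} {H : Type} [Ring H] [Algebra A H]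
  {b : Module.Basis (Equiv.Perm (Fin n)) A H} {bar : H →+* H} {C D : Equiv.Perm (Fin n) → H}

/-- the coefficient of `C z` in `X` -/
noncomputable def ff (b : Module.Basis (Equiv.Perm (Fin n)) A H) (D : Equiv.Perm (Fin n) → H)
    (z : Equiv.Perm (Fin n)) (X : H) : A := tau b (D z⁻¹ * X)

lemma ff_add (z : Equiv.Perm (Fin n)) (X Y : H) : ff b D z (X + Y) = ff b D z X + ff b D z Y := by
  unfold ff; rw [mul_add, tau_add]

lemma ff_sub (z : Equiv.Perm (Fin n)) (X Y : H) : ff b D z (X - Y) = ff b D z X - ff b D z Y := by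
  unfold ff; rw [mul_sub, tau_sub]

lemma ff_smul (z : Equiv.Perm (Fin n)) (a : A) (X : H) : ff b D z (a • X) = a * ff b D z X := by
  unfold ff; rw [mul_smul_comm, tau_smul]

lemma ff_zsmul (z : Equiv.Perm (Fin n)) (a : ℤ) (X : H) : ff b D z (a • X) = (a : A) * ff b D z X := by
  rw [← Int.cast_smul_eq_zsmul A, ff_smul]

lemma ff_sum (z : Equiv.Perm (Fin n)) {ι : Type} (s : Finset ι) (f : ι → H) :
    ff b D z (∑ i ∈ s, f i) = ∑ i ∈ s, ff b D z (f i) := by
  unfold ff; rw [Finset.mul_sum, tau_sum]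

variable (P : Pack (Simp n) len b bar C D)

include P in
lemma ff_C (z u : Equiv.Perm (Fin n)) : ff b D z (C u) = if u = z then 1 else 0 := by
  unfold ff; rw [P.dd, inv_inv]

include P in
lemma ff_kill {i : ℕ} (hi : i + 1 < n) (z : Equiv.Perm (Fin n)) (hz : vl z i < vl z (i + 1)) (X : H) :
    ff b D z (X * C (sim n i)) = 0 := by
  unfold ff
  rw [← tau_rot (lenData n) P.hd, kill (lenData n) P.hd P.bd P.kl P.dd (mem_simp hi), zero_mul]
  · simp [tau]
  · rw [inv_inv, up_iff hi]; exact hz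

include P in
lemma ff_star {i j : ℕ} (hi : i + 1 < n) (hj : j + 1 < n) (hij : j = i + 1 ∨ i = j + 1)
    (z z' : Equiv.Perm (Fin n)) (h1 : vl z (i + 1) < vl z i) (h2 : vl z j < vl z (j + 1))
    (h3 : vl z' (j + 1) < vl z' j) (h4 : vl z' i < vl z' (i + 1))
    (hz : z' = z * sim n i ∨ z' = z * sim n j) (X : H) :
    ff b D z (X * C (sim n j) * C (sim n i)) = ff b D z' (X * C (sim n j)) := by
  rw [← dn_iff hi] at h1
  rw [← up_iff hj] at h2
  rw [← dn_iff hj] at h3
  rw [← up_iff hi] at h4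
  unfold ff
  have hs := star (lenData n) P.hd P.bd P.kl P.dd (s := sim n i) (t := sim n j) (w := z⁻¹) (w' := z'⁻¹)
    (mem_simp hi) (mem_simp hj) (by rw [inv_inv]; exact h2) (by rw [inv_inv]; exact h4)
    (by rw [inv_inv]; exact h1)
    (by rw [inv_inv, inv_inv]; exact star_uniq hi hj hij z z' h1 h2 h3 h4 hz)
    (by rw [inv_inv, inv_inv]; exact hz) (sim_ne hi hj (by omega))
  rw [← tau_rot (lenData n) P.hd, ← tau_rot (lenData n) P.hd, ← tau_rot (lenData n) P.hd, hs]

include P in
lemma CC_dn {i : ℕ} (hi : i + 1 < n) (z : Equiv.Perm (Fin n)) (hz : vl z (i + 1) < vl z i) :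
    C z * C (sim n i) = (v + vi) • C z :=
  CCs_dn (lenData n) P.hd P.bd P.kl _ z (sim n i) rfl (mem_simp hi) ((dn_iff hi z).mpr hz)

include P in
/-- coefficients of `C z * C s` -/
lemma ff_CC_up {i : ℕ} (hi : i + 1 < n) (z a : Equiv.Perm (Fin n)) (hz : vl z i < vl z (i + 1)) :
    ff b D a (C z * C (sim n i)) =
      (if z * sim n i = a then 1 else 0) + ((mm len b C z (sim n i) a : ℤ) : A) := by
  unfold ff
  rw [F_up (lenData n) P.hd P.bd P.kl P.dd a⁻¹ (mem_simp hi) ((up_iff hi z).mpr hz), inv_inv]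

include P in
lemma mm_eq {i j : ℕ} (hi : i + 1 < n) (hj : j + 1 < n) (z a : Equiv.Perm (Fin n))
    (h1 : vl z (j + 1) < vl z j) (h2 : vl a j < vl a (j + 1)) (h3 : vl a (i + 1) < vl a i) :
    mm len b C z (sim n i) a = if a * sim n j = z then 1 else 0 := by
  unfold mm
  rw [if_pos (by have := (dn_iff hi a).mpr h3; omega)]
  exact mu_rel (lenData n) P.hd P.bd P.kl (mem_simp hj) ((dn_iff hj z).mpr h1) ((up_iff hj a).mpr h2)

lemma mm_zero {i : ℕ} (hi : i + 1 < n) (z a : Equiv.Perm (Fin n))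
    (h3 : vl a i < vl a (i + 1)) : mm len b C z (sim n i) a = 0 := by
  unfold mm
  rw [if_neg (by have := (up_iff hi a).mpr h3; omega)]

/-- the left ideal property, one step -/
def PP (b : Module.Basis (Equiv.Perm (Fin n)) A H) (C D : Equiv.Perm (Fin n) → H)
    (a : Equiv.Perm (Fin n)) : Prop := ∀ (h : H) (z : Equiv.Perm (Fin n)), FCp z → ff b D z (h * C a) = 0

include P in
lemma cancel_dn {i : ℕ} (hi : i + 1 < n) (a z : Equiv.Perm (Fin n)) (ha : vl a (i + 1) < vl a i)
    (h : H) (h0 : ff b D z (h * C a * C (sim n i)) = 0) : ff b D z (h * C a) = 0 := by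
  rw [mul_assoc, CC_dn P hi a ha, mul_smul_comm, ff_smul] at h0
  exact (mul_eq_zero.mp h0).resolve_left vv_ne

include P in
lemma PP_dd {i j : ℕ} (hi : i + 1 < n) (hj : j + 1 < n) (hij : j = i + 1 ∨ i = j + 1)
    (a : Equiv.Perm (Fin n)) (h1 : vl a (i + 1) < vl a i) (h2 : vl a (j + 1) < vl a j) :
    PP b C D a := by
  intro h z hz
  by_cases h3 : vl z (i + 1) < vl z i
  · have h4 := fc_adj hi hj hij z hz h3
    exact cancel_dn P hj a z h2 h (ff_kill P hj z h4 _)
  · have h4 : vl z i < vl z (i + 1) := by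
      have : vl z i ≠ vl z (i + 1) := by
        intro e
        have := vl_inj z (by omega) (by omega) e
        omega
      omega
    exact cancel_dn P hi a z h1 h (ff_kill P hi z h4 _)

lemma vl_or (z : Equiv.Perm (Fin n)) {i : ℕ} (hi : i + 1 < n) :
    vl z (i + 1) < vl z i ∨ vl z i < vl z (i + 1) := by
  have : vl z i ≠ vl z (i + 1) := by
    intro e
    have := vl_inj z (by omega) (by omega) e
    omega
  omega

include P in
/-- `a` has descent `i`, not `j`; `a * sim j` has descent `j`, not `i`. -/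
lemma PP_star {i j : ℕ} (hi : i + 1 < n) (hj : j + 1 < n) (hij : j = i + 1 ∨ i = j + 1)
    (a : Equiv.Perm (Fin n)) (h1 : vl a (i + 1) < vl a i) (h2 : vl a j < vl a (j + 1))
    (h3 : vl (a * sim n j) (j + 1) < vl (a * sim n j) j)
    (h4 : vl (a * sim n j) i < vl (a * sim n j) (i + 1))
    (ha : PP b C D a) : PP b C D (a * sim n j) := by
  intro h z hz
  rcases vl_or z hj with h5 | h5
  · -- `j` is a descent of `z`
    have h6 : vl z i < vl z (i + 1) := fc_adj hj hi (by tauto) z hz h5
    obtain ⟨z', hz', g1, g2, g3⟩ := fc_star hj hi (by tauto) z hz h5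
    have e1 : h * C (a * sim n j) = h * C a * C (sim n j) -
        ∑ y, (mm len b C a (sim n j) y) • (h * C y) := by
      rw [mul_assoc, CCs_up (lenData n) P.hd P.bd P.kl (mem_simp hj) ((up_iff hj a).mpr h2), mul_add,
        Finset.mul_sum]
      have : ∑ y, h * ((mm len b C a (sim n j) y) • C y) = ∑ y, (mm len b C a (sim n j) y) • (h * C y) := by
        apply Finset.sum_congr rfl
        intro y _
        rw [mul_smul_comm]
      rw [this, add_sub_cancel_right]
    rw [e1, ff_sub, ff_sum, Finset.sum_eq_zero, sub_zero]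
    · -- main term
      have e2 : ff b D z (h * C a * C (sim n i) * C (sim n j)) = (v + vi) * ff b D z (h * C a * C (sim n j)) := by
        rw [mul_assoc h, CC_dn P hi a h1, mul_smul_comm, smul_mul_assoc, ff_smul]
      rw [ff_star P hj hi (by tauto) z z' h5 h6 g1 g2 g3, mul_assoc, CC_dn P hi a h1, mul_smul_comm,
        ff_smul, ha h z' hz', mul_zero] at e2
      exact (mul_eq_zero.mp e2.symm).resolve_left vv_ne
    · intro y _
      rw [ff_zsmul]
      rcases vl_or y hj with k1 | k1
      · rcases vl_or y hi with k2 | k2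
        · rw [PP_dd P hi hj hij y k2 k1 h z hz, mul_zero]
        · rw [mm_eq P hj hi a y h1 k2 k1, if_neg]
          · simp
          · intro e
            have e3 : y = a * sim n i := by rw [← e, mul_assoc, sim_sq hi, mul_one]
            rw [e3] at k1 k2
            exact not_both hi hj hij a h1 h2 k1 h4
      · rw [mm_zero hj a y k1]; simp
  · exact cancel_dn P hj _ z h3 h (ff_kill P hj z h5 _)

include P in
theorem left_ideal (a : Equiv.Perm (Fin n)) (ha : ¬ FCp a) : PP b C D a := by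
  refine nonfc_induct (PP b C D) ?_ ?_ ?_ a ha
  · intro w i h h1 h2
    have hi : i + 1 < n := by omega
    have hj : i + 1 + 1 < n := by omega
    refine PP_dd P hi hj (Or.inl rfl) w ?_ ?_
    · rw [vl_of w hi, vl_of w (Nat.lt_of_succ_lt hi)]; exact h2
    · rw [vl_of w hj, vl_of w (Nat.lt_of_succ_lt hj)]; exact h1
  · intro w i h h1 h2 hp
    have hi : i + 1 < n := by omega
    have hj : i + 1 + 1 < n := by omega
    have g1 : vl w (i + 1) < vl w (i + 2) := by rw [vl_of w hi, vl_of w h]; exact h1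
    have g2 : vl w (i + 2) < vl w i := by rw [vl_of w h, vl_of w (Nat.lt_of_succ_lt hi)]; exact h2
    have e : w * sim n i * sim n i = w := by rw [mul_assoc, sim_sq hi, mul_one]
    rw [← e]
    refine PP_star P (i := i + 1) (j := i) hj hi (Or.inr rfl) (w * sim n i) ?_ ?_ ?_ ?_ hp
    · rw [vl_mul w hi hj, vl_mul w hi (Nat.lt_of_succ_lt hj), if_neg (by omega), if_neg (by omega),
        if_neg (by omega), if_pos rfl]
      exact g2
    · rw [vl_mul w hi hi, vl_mul w hi (Nat.lt_of_succ_lt hi)]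
      simp
      omega
    · rw [e]; omega
    · rw [e]; exact g1
  · intro w i h h1 h2 hp
    have hi : i + 1 < n := by omega
    have hj : i + 1 + 1 < n := by omega
    have g1 : vl w (i + 2) < vl w i := by rw [vl_of w (Nat.lt_of_succ_lt hi), vl_of w h]; exact h1
    have g2 : vl w i < vl w (i + 1) := by rw [vl_of w hi, vl_of w (Nat.lt_of_succ_lt hi)]; exact h2
    have e : w * sim n (i + 1) * sim n (i + 1) = w := by rw [mul_assoc, sim_sq hj, mul_one]
    rw [← e]
    refine PP_star P (i := i) (j := i + 1) hi hj (Or.inl rfl) (w * sim n (i + 1)) ?_ ?_ ?_ ?_ hp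
    · rw [vl_mul w hj hi, vl_mul w hj (Nat.lt_of_succ_lt hi), if_pos rfl, if_neg (by omega),
        if_neg (by omega)]
      exact g1
    · have g1' : vl w (i + 1 + 1) < vl w i := g1
      rw [vl_mul w hj hj, vl_mul w hj (Nat.lt_of_succ_lt hj)]
      simp
      omega
    · have g1' : vl w (i + 1 + 1) < vl w i := g1
      rw [e]; omega
    · rw [e]; exact g2

include P in
theorem right_ideal (a : Equiv.Perm (Fin n)) (ha : ¬ FCp a) (h : H) (z : Equiv.Perm (Fin n)) (hz : FCp z) :
    ff b D z (C a * h) = 0 := by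
  have P' := P.op (lenData n)
  have ha' : ¬ FCp a⁻¹ := fun h => ha (by have := fc_inv _ h; rwa [inv_inv] at this)
  have := left_ideal P' a⁻¹ ha' (MulOpposite.op h) z⁻¹ (fc_inv z hz)
  unfold ff at this ⊢
  rw [opb_tau] at this
  simp only [inv_inv, ← MulOpposite.op_mul, MulOpposite.unop_op] at this
  rw [tau_comm (lenData n) P.hd]
  exact this

end

end Pool.Agent.LibKLD42
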