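import Pool.Agent.LibKLD42.F1

set_option autoImplicit false
set_option linter.unusedSectionVars false
set_option linter.unusedSimpArgs false

namespace Pool.Agent.LibKLD42

open LaurentPolynomial

section

variable {n : ℕ} {H : Type} [Ring H] [Algebra A H]
  {b : Module.Basis (Equiv.Perm (Fin n)) A H} {bar : H →+* H} {C D : Equiv.Perm (Fin n) → H}
  (P : Pack (Simp n) len b bar C D)

include P in
lemma b_mem_span (w : Equiv.Perm (Fin n)) : b w ∈ Submodule.span A (Set.range C) := by
  have key : ∀ (N : ℕ) (w : Equiv.Perm (Fin n)), len w = N → b w ∈ Submodule.span A (Set.range C) := by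
    intro N
    induction N using Nat.strong_induction_on with
    | _ N ih =>
      intro w hw
      have e : b w = C w - ∑ y ∈ Finset.univ.erase w, b.repr (C w) y • b y := by
        have h1 := b.sum_repr (C w)
        rw [← Finset.add_sum_erase Finset.univ _ (Finset.mem_univ w), P.kl.self, one_smul] at h1
        rw [eq_sub_iff_add_eq]
        exact h1
      rw [e]
      apply Submodule.sub_mem
      · exact Submodule.subset_span ⟨w, rfl⟩
      · apply Submodule.sum_mem
        intro y hy
        rw [Finset.mem_erase] at hy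
        by_cases h0 : b.repr (C w) y = 0
        · rw [h0, zero_smul]; exact Submodule.zero_mem _
        · rcases P.kl.tri w y h0 with h1 | h1
          · exact absurd h1 hy.1
          · exact Submodule.smul_mem _ _ (ih (len y) (by omega) y rfl)
  exact key _ w rfl

include P in
lemma C_expand (X : H) : X = ∑ u, ff b D u X • C u := by
  have h1 : X ∈ Submodule.span A (Set.range C) := by
    rw [← b.sum_repr X]
    apply Submodule.sum_mem
    intro y _
    exact Submodule.smul_mem _ _ (b_mem_span P y)
  rw [Submodule.mem_span_range_iff_exists_fun] at h1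
  obtain ⟨c, hc⟩ := h1
  have h2 : ∀ u, ff b D u X = c u := by
    intro u
    rw [← hc, ff_sum, Finset.sum_eq_single u]
    · rw [ff_smul, ff_C P, if_pos rfl, mul_one]
    · intro y _ hy
      rw [ff_smul, ff_C P, if_neg hy, mul_zero]
    · intro h; exact absurd (Finset.mem_univ u) h
  conv_lhs => rw [← hc]
  apply Finset.sum_congr rfl
  intro u _
  rw [h2]

include P in
lemma J_left (X h : H) (hX : ∀ z, FCp z → ff b D z X = 0) (z : Equiv.Perm (Fin n)) (hz : FCp z) :
    ff b D z (h * X) = 0 := by
  rw [C_expand P X, Finset.mul_sum, ff_sum]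
  apply Finset.sum_eq_zero
  intro u _
  rw [mul_smul_comm, ff_smul]
  by_cases hu : FCp u
  · rw [hX u hu, zero_mul]
  · rw [left_ideal P u hu h z hz, mul_zero]

include P in
lemma J_right (X h : H) (hX : ∀ z, FCp z → ff b D z X = 0) (z : Equiv.Perm (Fin n)) (hz : FCp z) :
    ff b D z (X * h) = 0 := by
  rw [C_expand P X, Finset.sum_mul, ff_sum]
  apply Finset.sum_eq_zero
  intro u _
  rw [smul_mul_assoc, ff_smul]
  by_cases hu : FCp u
  · rw [hX u hu, zero_mul]
  · rw [right_ideal P u hu h z hz, mul_zero]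

/-- The congruence modulo the span of the `C z` with `z` not fully commutative. -/
def Jcon (P : Pack (Simp n) len b bar C D) : RingCon H where
  r X Y := ∀ z, FCp z → ff b D z X = ff b D z Y
  iseqv := ⟨fun _ _ _ => rfl, fun h z hz => (h z hz).symm, fun h h' z hz => (h z hz).trans (h' z hz)⟩
  add' := by
    intro X1 Y1 X2 Y2 h1 h2 z hz
    rw [ff_add, ff_add, h1 z hz, h2 z hz]
  mul' := by
    intro X1 Y1 X2 Y2 h1 h2 z hz
    have e : X1 * X2 = Y1 * Y2 + ((X1 - Y1) * X2 + Y1 * (X2 - Y2)) := by noncomm_ring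
    rw [e, ff_add, ff_add, J_right P (X1 - Y1) X2 _ z hz, J_left P (X2 - Y2) Y1 _ z hz, add_zero, add_zero]
    · intro z hz
      rw [ff_sub, h2 z hz, sub_self]
    · intro z hz
      rw [ff_sub, h1 z hz, sub_self]

/-- the quotient map -/
def pi (P : Pack (Simp n) len b bar C D) : H →+* (Jcon P).Quotient := (Jcon P).mk'

lemma pi_eq (X Y : H) : pi P X = pi P Y ↔ ∀ z, FCp z → ff b D z X = ff b D z Y := by
  unfold pi
  exact RingCon.eq (Jcon P)

lemma pi_zero_iff (X : H) : pi P X = 0 ↔ ∀ z, FCp z → ff b D z X = 0 := by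
  rw [← map_zero (pi P), pi_eq]
  simp [ff, tau]

lemma pi_smul (a : A) (X : H) : pi P (a • X) = pi P (algebraMap A H a) * pi P X := by
  rw [Algebra.smul_def, map_mul]

lemma pi_nonfc (x : Equiv.Perm (Fin n)) (hx : ¬ FCp x) : pi P (C x) = 0 := by
  rw [pi_zero_iff]
  intro z hz
  rw [ff_C P, if_neg]
  rintro rfl
  exact hx hz

/-- star formula in the quotient -/
lemma pi_star {i j : ℕ} (hi : i + 1 < n) (hj : j + 1 < n) (hij : j = i + 1 ∨ i = j + 1)
    (z z' : Equiv.Perm (Fin n)) (hf : FCp z') (h1 : vl z (i + 1) < vl z i) (h2 : vl z j < vl z (j + 1))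
    (h3 : vl z' (j + 1) < vl z' j) (h4 : vl z' i < vl z' (i + 1))
    (hz : z' = z * sim n i ∨ z' = z * sim n j) :
    pi P (C z) * pi P (C (sim n j)) = pi P (C z') := by
  rw [← map_mul, pi_eq]
  intro a ha
  rw [ff_CC_up P hj z a h2, ff_C P]
  rcases vl_or a hj with h5 | h5
  · have h6 : vl a i < vl a (i + 1) := fc_adj hj hi (by tauto) a ha h5
    rw [mm_eq P hj hi z a h1 h6 h5]
    have e0 : (a * sim n i = z) ↔ (z * sim n i = a) := by
      constructor
      · rintro rfl; rw [mul_assoc, sim_sq hi, mul_one]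
      · rintro rfl; rw [mul_assoc, sim_sq hi, mul_one]
    simp only [e0]
    have hne : z * sim n i ≠ z * sim n j := fun e => sim_ne hi hj (by omega) (mul_left_cancel e)
    rcases hz with rfl | rfl
    · by_cases h7 : z * sim n i = a
      · rw [if_pos h7, if_pos h7, if_neg (fun e => hne (h7.trans e.symm))]; simp
      · rw [if_neg h7, if_neg h7, if_neg]
        · simp
        · intro e
          rw [← e] at h5 h6
          exact not_both hi hj hij z h1 h2 h3 h6
    · by_cases h7 : z * sim n j = a
      · rw [if_pos h7, if_neg (fun e => hne (e.trans h7.symm))]; simp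
      · rw [if_neg h7, if_neg]
        · simp
        · intro e
          rw [← e] at h5 h6
          exact not_both hi hj hij z h1 h2 h5 h4
  · rw [mm_zero hj z a h5, if_neg, if_neg]
    · simp
    · rintro rfl; omega
    · intro e
      rw [← e, vl_mul z hj hj, vl_mul z hj (Nat.lt_of_succ_lt hj)] at h5
      simp at h5
      omega

/-- the value of a word -/
def wd (n : ℕ) (ω : List ℕ) : Equiv.Perm (Fin n) := (ω.map (sim n)).prod

/-- the monomial of a word -/
def cw (C : Equiv.Perm (Fin n) → H) (ω : List ℕ) : H := (ω.map (fun i => C (sim n i))).prod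

/-- reduced words -/
def Red (n : ℕ) (ω : List ℕ) : Prop := (∀ i ∈ ω, i + 1 < n) ∧ len (wd n ω) = ω.length

lemma wd_append (ω ω' : List ℕ) : wd n (ω ++ ω') = wd n ω * wd n ω' := by
  unfold wd; rw [List.map_append, List.prod_append]

lemma cw_append (ω ω' : List ℕ) : cw C (ω ++ ω') = cw C ω * cw C ω' := by
  unfold cw; rw [List.map_append, List.prod_append]

lemma wd_single (i : ℕ) : wd n [i] = sim n i := by simp [wd]

lemma cw_single (i : ℕ) : cw C [i] = C (sim n i) := by simp [cw]

lemma wd_cons (i : ℕ) (ω : List ℕ) : wd n (i :: ω) = sim n i * wd n ω := by simp [wd]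

lemma cw_cons (i : ℕ) (ω : List ℕ) : cw C (i :: ω) = C (sim n i) * cw C ω := by simp [cw]

lemma len_right_le (w : Equiv.Perm (Fin n)) {i : ℕ} (hi : i + 1 < n) : len (w * sim n i) ≤ len w + 1 := by
  rcases (lenData n).right (sim n i) (mem_simp hi) w with h | h <;> omega

lemma len_wd_le (ω : List ℕ) (h : ∀ i ∈ ω, i + 1 < n) : len (wd n ω) ≤ ω.length := by
  induction ω using List.reverseRecOn with
  | nil => simp [wd, len_one]
  | append_singleton ω i ih =>
    rw [wd_append, wd_single, List.length_append, List.length_singleton]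
    have h1 := ih (fun j hj => h j (by simp [hj]))
    have h2 := len_right_le (wd n ω) (h i (by simp))
    omega

/-- the last letter of a reduced word -/
lemma red_split (ω : List ℕ) (i : ℕ) (h : Red n (ω ++ [i])) :
    i + 1 < n ∧ Red n ω ∧ wd n ω = wd n (ω ++ [i]) * sim n i ∧
      vl (wd n (ω ++ [i])) (i + 1) < vl (wd n (ω ++ [i])) i := by
  obtain ⟨h1, h2⟩ := h
  have hi : i + 1 < n := h1 i (by simp)
  have h3 := len_wd_le ω (fun j hj => h1 j (by simp [hj]))
  have e : wd n (ω ++ [i]) * sim n i = wd n ω := by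
    rw [wd_append, wd_single, mul_assoc, sim_sq hi, mul_one]
  rw [List.length_append, List.length_singleton] at h2
  have h4 : len (wd n ω) = ω.length := by
    have := len_right_le (wd n ω) hi
    rw [← wd_single (n := n) i, ← wd_append] at this
    omega
  refine ⟨hi, ⟨fun j hj => h1 j (by simp [hj]), h4⟩, e.symm, ?_⟩
  rw [← dn_iff hi, e]
  omega

lemma red_snoc (ω : List ℕ) {i : ℕ} (hi : i + 1 < n) (z : Equiv.Perm (Fin n))
    (h : Red n ω) (hw : wd n ω = z * sim n i) (hz : vl z (i + 1) < vl z i) :
    Red n (ω ++ [i]) ∧ wd n (ω ++ [i]) = z := by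
  have e : wd n (ω ++ [i]) = z := by
    rw [wd_append, wd_single, hw, mul_assoc, sim_sq hi, mul_one]
  refine ⟨⟨?_, ?_⟩, e⟩
  · intro j hj
    rw [List.mem_append, List.mem_singleton] at hj
    rcases hj with hj | rfl
    · exact h.1 j hj
    · exact hi
  · rw [e, List.length_append, List.length_singleton, ← h.2, hw]
    exact ((dn_iff hi z).mpr hz).symm

lemma exists_red : ∀ (N : ℕ) (z : Equiv.Perm (Fin n)), len z = N → ∃ ω, Red n ω ∧ wd n ω = z := by
  intro N
  induction N with
  | zero =>
    intro z hz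
    refine ⟨[], ⟨by simp, ?_⟩, ?_⟩
    · simp [wd, len_one]
    · have : z = 1 := by
        by_contra h
        obtain ⟨s, hs, h2⟩ := (lenData n).desc z h
        omega
      simp [wd, this]
  | succ N ih =>
    intro z hz
    have hz1 : z ≠ 1 := by
      rintro rfl; rw [len_one] at hz; omega
    obtain ⟨s, ⟨i, hi, rfl⟩, h2⟩ := (lenData n).desc z hz1
    have h3 : len (z * sim n i) + 1 = len z := by
      rcases (lenData n).right (sim n i) (mem_simp hi) z with h | h <;> omega
    obtain ⟨ω, hω, hω2⟩ := ih (z * sim n i) (by omega)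
    exact ⟨ω ++ [i], red_snoc ω hi z hω hω2 ((dn_iff hi z).mp h3)⟩

lemma sim_comm {i j : ℕ} (hi : i + 1 < n) (hj : j + 1 < n) (hij : i + 1 < j ∨ j + 1 < i) :
    sim n i * sim n j = sim n j * sim n i := by
  ext k
  simp only [Equiv.Perm.mul_apply]
  rw [sim_val hi, sim_val hj, sim_val hj, sim_val hi]
  split_ifs <;> omega

include P in
lemma C_comm {i j : ℕ} (hi : i + 1 < n) (hj : j + 1 < n) (hij : i + 1 < j ∨ j + 1 < i) :
    C (sim n i) * C (sim n j) = C (sim n j) * C (sim n i) := by
  have up : ∀ i j : ℕ, i + 1 < n → j + 1 < n → (i + 1 < j ∨ j + 1 < i) →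
      b (sim n i) * b (sim n j) = b (sim n i * sim n j) := by
    intro i j hi hj hij
    apply bs_up (lenData n) P.hd (mem_simp hj)
    rw [up_iff hj]
    have h1 := sim_val hi ⟨j, Nat.lt_of_succ_lt hj⟩
    have h2 := sim_val hi ⟨j + 1, hj⟩
    rw [vl_of _ hj, vl_of _ (Nat.lt_of_succ_lt hj), h1, h2]
    simp only []
    rw [if_neg (by omega), if_neg (by omega), if_neg (by omega), if_neg (by omega)]
    omega
  rw [C_s (lenData n) P.hd P.bd P.kl (mem_simp hi), C_s (lenData n) P.hd P.bd P.kl (mem_simp hj)]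
  simp only [mul_add, add_mul, mul_smul_comm, smul_mul_assoc, mul_one, one_mul]
  rw [up i j hi hj hij, up j i hj hi (by tauto), sim_comm hi hj hij]
  module

end

end Pool.Agent.LibKLD42
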