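import Pool.Agent.LibKLD42.F2

set_option autoImplicit false
set_option linter.unusedSectionVars false
set_option linter.unusedSimpArgs false

namespace Pool.Agent.LibKLD42

open LaurentPolynomial

section

variable {n : ℕ} {H : Type} [Ring H] [Algebra A H]
  {b : Module.Basis (Equiv.Perm (Fin n)) A H} {bar : H →+* H} {C D : Equiv.Perm (Fin n) → H}

/-- a right reducible element is a product in the quotient -/
lemma red_right (P : Pack (Simp n) len b bar C D) (z : Equiv.Perm (Fin n)) (hz : FCp z) {i : ℕ} (h : i + 2 < n)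
    (h1 : vl z (i + 2) < vl z i) :
    ∃ t, t + 1 < n ∧ vl z (t + 1) < vl z t ∧ pi P (C (z * sim n t)) * pi P (C (sim n t)) = pi P (C z) := by
  have hi : i + 1 < n := by omega
  have hj : i + 1 + 1 < n := by omega
  have h1' : vl z (i + 1 + 1) < vl z i := h1
  rcases vl_or z hi with h2 | h2
  · have h3 := fc_adj hi hj (Or.inl rfl) z hz h2
    refine ⟨i, hi, h2, ?_⟩
    refine pi_star P (i := i + 1) (j := i) hj hi (Or.inr rfl) (z * sim n i) z hz ?_ ?_ h2 h3 ?_
    · rw [vl_mul z hi hj, vl_mul z hi (Nat.lt_of_succ_lt hj)]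
      split_ifs <;> omega
    · rw [vl_mul z hi hi, vl_mul z hi (Nat.lt_of_succ_lt hi)]
      split_ifs <;> omega
    · right; rw [mul_assoc, sim_sq hi, mul_one]
  · have h3 : vl z (i + 1 + 1) < vl z (i + 1) := by omega
    refine ⟨i + 1, hj, h3, ?_⟩
    refine pi_star P (i := i) (j := i + 1) hi hj (Or.inl rfl) (z * sim n (i + 1)) z hz ?_ ?_ h3 h2 ?_
    · rw [vl_mul z hj hi, vl_mul z hj (Nat.lt_of_succ_lt hi)]
      split_ifs <;> omega
    · rw [vl_mul z hj hj, vl_mul z hj (Nat.lt_of_succ_lt hj)]
      split_ifs <;> omega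
    · right; rw [mul_assoc, sim_sq hj, mul_one]

/-- a left reducible element is a product in the quotient -/
lemma red_left (P : Pack (Simp n) len b bar C D) (z : Equiv.Perm (Fin n)) (hz : FCp z) {i : ℕ} (h : i + 2 < n)
    (h1 : vl z⁻¹ (i + 2) < vl z⁻¹ i) :
    ∃ t, t + 1 < n ∧ vl z⁻¹ (t + 1) < vl z⁻¹ t ∧
      pi P (C (sim n t)) * pi P (C (sim n t * z)) = pi P (C z) := by
  obtain ⟨t, ht, h2, h3⟩ := red_right (P.op (lenData n)) z⁻¹ (fc_inv z hz) h h1
  refine ⟨t, ht, h2, ?_⟩
  rw [← map_mul, pi_eq] at h3 ⊢
  intro a ha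
  have h4 := h3 a⁻¹ (fc_inv a ha)
  unfold ff at h4 ⊢
  rw [opb_tau, opb_tau] at h4
  simp only [inv_inv, ← MulOpposite.op_mul, MulOpposite.unop_op, mul_inv_rev,
    (lenData n).inv_s (mem_simp ht)] at h4
  rw [tau_comm (lenData n) P.hd, h4, tau_comm (lenData n) P.hd]

lemma irred_split (P : Pack (Simp n) len b bar C D) (z : Equiv.Perm (Fin n)) (hz : FCp z)
    (h1 : ∀ (i : ℕ), i + 2 < n → vl z i < vl z (i + 2))
    (h2 : ∀ (i : ℕ), i + 2 < n → vl z⁻¹ i < vl z⁻¹ (i + 2))
    {t : ℕ} (ht : t + 1 < n) (hzt : vl z (t + 1) < vl z t) :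
    pi P (C (z * sim n t)) * pi P (C (sim n t)) = pi P (C z) := by
  rw [← map_mul, pi_eq]
  intro a ha
  have hup : vl (z * sim n t) t < vl (z * sim n t) (t + 1) := by
    rw [vl_mul z ht ht, vl_mul z ht (Nat.lt_of_succ_lt ht)]
    simp
    omega
  have e : z * sim n t * sim n t = z := by rw [mul_assoc, sim_sq ht, mul_one]
  rw [ff_CC_up P ht _ a hup, e, ff_C P]
  have hmm : mm len b C (z * sim n t) (sim n t) a = 0 := by
    by_contra hne
    have hta : vl a (t + 1) < vl a t := by
      rcases vl_or a ht with h | h
      · exact h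
      · exact absurd (mm_zero ht _ a h) hne
    have hlen : len (z * sim n t) + 1 = len z := (dn_iff ht z).mpr hzt
    -- length of `a`
    have hla : len a < len (z * sim n t) := by
      have h5 : b.repr (C (z * sim n t)) a ≠ 0 := by
        intro h0
        apply hne
        unfold mm mu
        rw [h0]; simp
      rcases P.kl.tri _ _ h5 with h6 | h6
      · rw [h6] at hta; omega
      · exact h6
    have hsub : ∀ (r : ℕ), r + 1 < n → vl z (r + 1) < vl z r → vl a (r + 1) < vl a r := by
      intro r hr hzr
      by_cases hrt : r = t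
      · rw [hrt]; exact hta
      have hfar : t + 1 < r ∨ r + 1 < t := by
        by_contra hcon
        have hadj : t = r + 1 ∨ r = t + 1 := by omega
        have := fc_adj hr ht hadj z hz hzr
        omega
      rcases vl_or a hr with h6 | h6
      · exact h6
      · exfalso
        apply hne
        have hd : vl (z * sim n t) (r + 1) < vl (z * sim n t) r := by
          rw [vl_mul z ht hr, vl_mul z ht (Nat.lt_of_succ_lt hr), if_neg (by omega), if_neg (by omega),
            if_neg (by omega), if_neg (by omega)]
          exact hzr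
        rw [mm_eq P ht hr _ a hd h6 hta, if_neg]
        intro e2
        have h7 : vl (a * sim n r) (t + 1) < vl (a * sim n r) t := by
          rw [vl_mul a hr ht, vl_mul a hr (Nat.lt_of_succ_lt ht), if_neg (by omega), if_neg (by omega),
            if_neg (by omega), if_neg (by omega)]
          exact hta
        rw [e2] at h7
        omega
    have := irred_len z a
      (fun i h => by
        have := h1 i h
        rw [vl_of z h, vl_of z (by omega)] at this
        exact this)
      (fun i h => by
        have := h2 i h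
        rw [vl_of _ h, vl_of _ (by omega)] at this
        exact this)
      (fun i h h' => by
        have := hsub i h (by rw [vl_of z h, vl_of z (by omega)]; exact h')
        rw [vl_of a h, vl_of a (by omega)] at this
        exact this)
    omega
  rw [hmm]
  simp

theorem mono (P : Pack (Simp n) len b bar C D) : ∀ (N : ℕ) (z : Equiv.Perm (Fin n)), len z = N → FCp z →
    ∀ ω, Red n ω → wd n ω = z → pi P (C z) = pi P (cw C ω) := by
  intro N
  induction N using Nat.strong_induction_on with
  | _ N ih =>
    intro z hN hz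
    -- all reduced words agree
    have agree : ∀ ω ω', Red n ω → wd n ω = z → Red n ω' → wd n ω' = z →
        pi P (cw C ω) = pi P (cw C ω') := by
      intro ω ω' h1 h2 h3 h4
      rcases List.eq_nil_or_concat' ω with rfl | ⟨ω1, t, rfl⟩
      · have h5 := h1.2
        rw [h2] at h5
        have h6 := h3.2
        rw [h4, h5] at h6
        have : ω' = [] := List.eq_nil_of_length_eq_zero h6.symm
        rw [this]
      rcases List.eq_nil_or_concat' ω' with rfl | ⟨ω2, t', rfl⟩
      · have h5 := h1.2
        rw [h2] at h5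
        have h6 := h3.2
        rw [h4, h5] at h6
        simp at h6
      obtain ⟨a1, a2, a3, a4⟩ := red_split ω1 t h1
      obtain ⟨b1, b2, b3, b4⟩ := red_split ω2 t' h3
      rw [h2] at a3 a4
      rw [h4] at b3 b4
      have l1 : len (z * sim n t) + 1 = len z := (dn_iff a1 z).mpr a4
      have l2 : len (z * sim n t') + 1 = len z := (dn_iff b1 z).mpr b4
      have f1 : FCp (z * sim n t) := fc_dn a1 z hz (by
        rw [vl_of z a1, vl_of z (Nat.lt_of_succ_lt a1)] at a4; exact a4)
      have f2 : FCp (z * sim n t') := fc_dn b1 z hz (by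
        rw [vl_of z b1, vl_of z (Nat.lt_of_succ_lt b1)] at b4; exact b4)
      rw [cw_append, cw_append, map_mul, map_mul, cw_single, cw_single]
      by_cases htt : t = t'
      · subst htt
        rw [← ih (len (z * sim n t)) (by omega) _ rfl f1 ω1 a2 a3,
          ← ih (len (z * sim n t)) (by omega) _ rfl f1 ω2 b2 b3]
      · have hfar : t + 1 < t' ∨ t' + 1 < t := by
          by_contra hcon
          have hadj : t' = t + 1 ∨ t = t' + 1 := by omega
          have := fc_adj a1 b1 hadj z hz a4
          omega
        have d1 : vl (z * sim n t) (t' + 1) < vl (z * sim n t) t' := by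
          rw [vl_mul z a1 b1, vl_mul z a1 (Nat.lt_of_succ_lt b1), if_neg (by omega), if_neg (by omega),
            if_neg (by omega), if_neg (by omega)]
          exact b4
        have d2 : vl (z * sim n t') (t + 1) < vl (z * sim n t') t := by
          rw [vl_mul z b1 a1, vl_mul z b1 (Nat.lt_of_succ_lt a1), if_neg (by omega), if_neg (by omega),
            if_neg (by omega), if_neg (by omega)]
          exact a4
        obtain ⟨ω3, r3, w3⟩ := exists_red _ (z * sim n t * sim n t') rfl
        have w3' : wd n ω3 = z * sim n t' * sim n t := by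
          rw [w3, mul_assoc, mul_assoc, sim_comm a1 b1 hfar]
        obtain ⟨c1, c2⟩ := red_snoc ω3 b1 (z * sim n t) r3 w3 d1
        obtain ⟨e1, e2⟩ := red_snoc ω3 a1 (z * sim n t') r3 w3' d2
        rw [← ih (len (z * sim n t)) (by omega) _ rfl f1 ω1 a2 a3,
          ih (len (z * sim n t)) (by omega) _ rfl f1 _ c1 c2,
          ← ih (len (z * sim n t')) (by omega) _ rfl f2 ω2 b2 b3,
          ih (len (z * sim n t')) (by omega) _ rfl f2 _ e1 e2,
          cw_append, cw_append, map_mul, map_mul, cw_single, cw_single, mul_assoc, mul_assoc]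
        congr 1
        rw [← map_mul, ← map_mul, C_comm P a1 b1 hfar]
    -- right split gives a word
    have right_word : ∀ t, t + 1 < n → vl z (t + 1) < vl z t →
        pi P (C (z * sim n t)) * pi P (C (sim n t)) = pi P (C z) →
        ∃ ω, Red n ω ∧ wd n ω = z ∧ pi P (C z) = pi P (cw C ω) := by
      intro t ht h1 h2
      have l1 : len (z * sim n t) + 1 = len z := (dn_iff ht z).mpr h1
      have f1 : FCp (z * sim n t) := fc_dn ht z hz (by
        rw [vl_of z ht, vl_of z (Nat.lt_of_succ_lt ht)] at h1; exact h1)
      obtain ⟨ω1, r1, w1⟩ := exists_red _ (z * sim n t) rfl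
      obtain ⟨c1, c2⟩ := red_snoc ω1 ht z r1 w1 h1
      refine ⟨ω1 ++ [t], c1, c2, ?_⟩
      rw [← h2, ih _ (by omega) (z * sim n t) rfl f1 ω1 r1 w1, cw_append, map_mul, cw_single]
    have good : ∃ ω, Red n ω ∧ wd n ω = z ∧ pi P (C z) = pi P (cw C ω) := by
      by_cases hR : ∃ i, i + 2 < n ∧ vl z (i + 2) < vl z i
      · obtain ⟨i, hi, h1⟩ := hR
        obtain ⟨t, ht, h2, h3⟩ := red_right P z hz hi h1
        exact right_word t ht h2 h3
      by_cases hL : ∃ i, i + 2 < n ∧ vl z⁻¹ (i + 2) < vl z⁻¹ i
      · obtain ⟨i, hi, h1⟩ := hL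
        obtain ⟨t, ht, h2, h3⟩ := red_left P z hz hi h1
        have l1 : len (sim n t * z) + 1 = len z := by
          rw [len_left z ht, ← len_inv z]
          exact (dn_iff ht z⁻¹).mpr h2
        have f1 : FCp (sim n t * z) := by
          have := fc_dn ht z⁻¹ (fc_inv z hz) (by
            rw [vl_of _ ht, vl_of _ (Nat.lt_of_succ_lt ht)] at h2; exact h2)
          have h4 := fc_inv _ this
          rwa [mul_inv_rev, inv_inv, (lenData n).inv_s (mem_simp ht)] at h4
        obtain ⟨ω1, r1, w1⟩ := exists_red _ (sim n t * z) rfl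
        refine ⟨t :: ω1, ⟨?_, ?_⟩, ?_, ?_⟩
        · intro j hj
          rw [List.mem_cons] at hj
          rcases hj with rfl | hj
          · exact ht
          · exact r1.1 j hj
        · rw [wd_cons, w1, ← mul_assoc, sim_sq ht, one_mul, List.length_cons, ← r1.2, w1]
          exact l1.symm
        · rw [wd_cons, w1, ← mul_assoc, sim_sq ht, one_mul]
        · rw [← h3, ih _ (by omega) (sim n t * z) rfl f1 ω1 r1 w1, cw_cons, map_mul]
      · by_cases hz1 : z = 1
        · refine ⟨[], ⟨by simp, by simp [wd, len_one]⟩, by simp [wd, hz1], ?_⟩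
          rw [hz1, C_one (lenData n) P.hd P.kl]
          simp [cw]
        · obtain ⟨s, ⟨t, ht, rfl⟩, h2⟩ := (lenData n).desc z hz1
          have h3 : vl z (t + 1) < vl z t := by
            rw [← dn_iff ht]
            rcases (lenData n).right (sim n t) (mem_simp ht) z with h | h <;> omega
          refine right_word t ht h3 (irred_split P z hz ?_ ?_ ht h3)
          · intro i hi
            by_contra hcon
            apply hR
            refine ⟨i, hi, ?_⟩
            have : vl z i ≠ vl z (i + 2) := by
              intro e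
              have := vl_inj z (by omega) (by omega) e
              omega
            omega
          · intro i hi
            by_contra hcon
            apply hL
            refine ⟨i, hi, ?_⟩
            have : vl z⁻¹ i ≠ vl z⁻¹ (i + 2) := by
              intro e
              have := vl_inj z⁻¹ (by omega) (by omega) e
              omega
            omega
    intro ω h1 h2
    obtain ⟨ω0, g1, g2, g3⟩ := good
    rw [g3]
    exact agree ω0 ω g1 g2 h1 h2

/-- reduced products of fully commutative elements -/
lemma mono_split (P : Pack (Simp n) len b bar C D) (z : Equiv.Perm (Fin n)) (hz : FCp z) {t : ℕ} (ht : t + 1 < n)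
    (hzt : vl z (t + 1) < vl z t) :
    pi P (C z) = pi P (C (z * sim n t)) * pi P (C (sim n t)) := by
  have f1 : FCp (z * sim n t) := fc_dn ht z hz (by
    rw [vl_of z ht, vl_of z (Nat.lt_of_succ_lt ht)] at hzt; exact hzt)
  obtain ⟨ω1, r1, w1⟩ := exists_red _ (z * sim n t) rfl
  obtain ⟨c1, c2⟩ := red_snoc ω1 ht z r1 w1 hzt
  rw [mono P _ z rfl hz _ c1 c2, mono P _ _ rfl f1 ω1 r1 w1, cw_append, map_mul, cw_single]

end

end Pool.Agent.LibKLD42
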