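import Pool.Agent.LibKLD42.F3

set_option autoImplicit false
set_option linter.unusedSectionVars false
set_option linter.unusedSimpArgs false

namespace Pool.Agent.LibKLD42

open LaurentPolynomial

section

variable {n : ℕ} {H : Type} [Ring H] [Algebra A H]
  {b : Module.Basis (Equiv.Perm (Fin n)) A H} {bar : H →+* H} {C D : Equiv.Perm (Fin n) → H}

/-- multiplication of an equality in the quotient -/
lemma pi_mul_right (P : Pack (Simp n) len b bar C D) {X : H} {a : A} {Y : H} (h : pi P X = pi P (a • Y)) (Z : H) :
    pi P (X * Z) = pi P (a • (Y * Z)) := by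
  rw [map_mul, h, ← map_mul, smul_mul_assoc]

/-- right multiplication by `C s` sends a fully commutative basis element to a multiple of such -/
theorem alpha (P : Pack (Simp n) len b bar C D) : ∀ (N : ℕ) (z : Equiv.Perm (Fin n)), len z = N → FCp z →
    ∀ i, i + 1 < n → pi P (C z * C (sim n i)) = 0 ∨ ∃ (k : ℕ) (z' : Equiv.Perm (Fin n)), FCp z' ∧
      pi P (C z * C (sim n i)) = pi P ((v + vi) ^ k • C z') ∧ (z' = z * sim n i ∨ len z' ≤ len z) := by
  intro N
  induction N using Nat.strong_induction_on with
  | _ N ih =>
    intro z hN hz i hi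
    rcases vl_or z hi with h1 | h1
    · right
      refine ⟨1, z, hz, ?_, Or.inr le_rfl⟩
      rw [CC_dn P hi z h1, pow_one]
    · by_cases hadj : ∃ j, j + 1 < n ∧ (i = j + 1 ∨ j = i + 1) ∧ vl z (j + 1) < vl z j
      · obtain ⟨j, hj, hij, h2⟩ := hadj
        right
        obtain ⟨z', hz', g1, g2, g3⟩ := fc_star hj hi hij z hz h2
        refine ⟨0, z', hz', ?_, ?_⟩
        · rw [map_mul, pi_star P hj hi hij z z' hz' h2 h1 g1 g2 g3, pow_zero, one_smul]
        · rcases g3 with g3 | g3
          · right
            have := (dn_iff hj z).mpr h2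
            rw [← g3] at this
            omega
          · left; exact g3
      · by_cases hfc : FCp (z * sim n i)
        · right
          refine ⟨0, z * sim n i, hfc, ?_, Or.inl rfl⟩
          have hd : vl (z * sim n i) (i + 1) < vl (z * sim n i) i := by
            rw [vl_mul z hi hi, vl_mul z hi (Nat.lt_of_succ_lt hi)]
            split_ifs <;> omega
          have := mono_split P (z * sim n i) hfc hi hd
          rw [mul_assoc z, sim_sq hi, mul_one] at this
          rw [map_mul, ← this, pow_zero, one_smul]
        · -- `z s` is not fully commutative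
          have hz1 : z ≠ 1 := by
            rintro rfl
            apply hfc
            rw [one_mul]
            intro p q r hpq hqr hh
            have e1 := sim_val hi p
            have e2 := sim_val hi q
            have e3 := sim_val hi r
            rw [Fin.lt_def] at hpq hqr
            obtain ⟨k1, k2⟩ := hh
            rw [Fin.lt_def, e3, e2] at k1
            rw [Fin.lt_def, e2, e1] at k2
            split_ifs at k1 k2 <;> omega
          obtain ⟨s, ⟨j, hj, rfl⟩, h2⟩ := (lenData n).desc z hz1
          have h3 : vl z (j + 1) < vl z j := by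
            rw [← dn_iff hj]
            rcases (lenData n).right (sim n j) (mem_simp hj) z with h | h <;> omega
          have hji : j ≠ i := by rintro rfl; omega
          have hfar : i + 1 < j ∨ j + 1 < i := by
            by_contra hcon
            exact hadj ⟨j, hj, by omega, h3⟩
          have hn2 : ¬ FCp (z * sim n j * sim n i) :=
            nonfc_comm hi hj hfar z hz (by rw [vl_of z hi, vl_of z (Nat.lt_of_succ_lt hi)] at h1; exact h1) hfc
          have l1 : len (z * sim n j) + 1 = len z := (dn_iff hj z).mpr h3
          have f1 : FCp (z * sim n j) := fc_dn hj z hz (by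
            rw [vl_of z hj, vl_of z (Nat.lt_of_succ_lt hj)] at h3; exact h3)
          have e0 : pi P (C z * C (sim n i)) = pi P (C (z * sim n j) * C (sim n i)) * pi P (C (sim n j)) := by
            rw [map_mul, mono_split P z hz hj h3, mul_assoc, ← map_mul, C_comm P hj hi (by tauto), ← map_mul,
              ← map_mul, mul_assoc]
          rcases ih (len (z * sim n j)) (by omega) (z * sim n j) rfl f1 i hi with h5 | ⟨k, z', hz', h5, h6⟩
          · left
            rw [e0, h5, zero_mul]
          · have h7 : len z' < len z := by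
              rcases h6 with rfl | h6
              · exact absurd hz' hn2
              · omega
            rw [e0, h5, ← map_mul, smul_mul_assoc]
            rcases ih (len z') (by omega) z' rfl hz' j hj with h8 | ⟨m, z'', hz'', h8, h9⟩
            · left
              rw [pi_smul, h8, mul_zero]
            · right
              refine ⟨k + m, z'', hz'', ?_, ?_⟩
              · rw [pi_smul, h8, ← pi_smul, smul_smul, pow_add]
              · right
                rcases h9 with rfl | h9
                · have := len_right_le z' hj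
                  omega
                · omega

/-- the monomial property -/
theorem monomial (P : Pack (Simp n) len b bar C D) (x : Equiv.Perm (Fin n)) (ω : List ℕ)
    (hω : ∀ i ∈ ω, i + 1 < n) :
    pi P (C x * cw C ω) = 0 ∨ ∃ (k : ℕ) (z : Equiv.Perm (Fin n)), FCp z ∧
      pi P (C x * cw C ω) = pi P ((v + vi) ^ k • C z) := by
  induction ω using List.reverseRecOn with
  | nil =>
    by_cases hx : FCp x
    · right
      refine ⟨0, x, hx, ?_⟩
      simp [cw]
    · left
      simp [cw, pi_nonfc P x hx]
  | append_singleton ω i ih =>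
    rw [cw_append, cw_single, ← mul_assoc]
    rcases ih (fun j hj => hω j (by simp [hj])) with h1 | ⟨k, z, hz, h1⟩
    · left
      rw [map_mul, h1, zero_mul]
    · have h2 := pi_mul_right P h1 (C (sim n i))
      rw [h2]
      rcases alpha P _ z rfl hz i (hω i (by simp)) with h3 | ⟨m, z', hz', h3, -⟩
      · left
        rw [pi_smul, h3, mul_zero]
      · right
        refine ⟨k + m, z', hz', ?_⟩
        rw [pi_smul, h3, ← pi_smul, smul_smul, pow_add]

/-- words detect zero -/
lemma words_detect (P : Pack (Simp n) len b bar C D) (Y : H)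
    (h : ∀ ω : List ℕ, (∀ i ∈ ω, i + 1 < n) → tau b (Y * cw C ω) = 0) : Y = 0 := by
  apply nondeg (lenData n) P.hd
  have key : ∀ (N : ℕ) (u : Equiv.Perm (Fin n)), len u = N → ∀ Y : H,
      (∀ ω : List ℕ, (∀ i ∈ ω, i + 1 < n) → tau b (Y * cw C ω) = 0) → tau b (Y * b u) = 0 := by
    intro N
    induction N with
    | zero =>
      intro u hu Y hY
      have : u = 1 := by
        by_contra h
        obtain ⟨s, hs, h2⟩ := (lenData n).desc u h
        omega
      rw [this, b_one (lenData n) P.hd]
      have := hY [] (by simp)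
      simpa [cw] using this
    | succ N ih =>
      intro u hu Y hY
      have hu1 : u⁻¹ ≠ 1 := by
        intro h
        rw [inv_eq_one] at h
        rw [h, len_one] at hu; omega
      obtain ⟨s, ⟨i, hi, rfl⟩, h2⟩ := (lenData n).desc u⁻¹ hu1
      have h3 : len (sim n i * u) < len u := by
        rw [len_left u hi, ← len_inv u]; exact h2
      obtain ⟨u', rfl⟩ : ∃ u', u = sim n i * u' := ⟨sim n i * u, by rw [← mul_assoc, sim_sq hi, one_mul]⟩
      rw [← mul_assoc, sim_sq hi, one_mul] at h3
      have h4 : len (sim n i * u') = len u' + 1 := by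
        rcases (lenData n).left (mem_simp hi) u' with h | h <;> omega
      have h5 : b (sim n i * u') = b (sim n i) * b u' :=
        (P.hd.mul (sim n i) u' (by rw [h4, (lenData n).len_s (mem_simp hi)]; omega)).symm
      rw [h5, ← mul_assoc]
      apply ih u' (by omega)
      intro ω hω
      have e : b (sim n i) = C (sim n i) - v • (1 : H) := by
        rw [C_s (lenData n) P.hd P.bd P.kl (mem_simp hi)]; abel
      rw [e, mul_sub, sub_mul, tau_sub, mul_assoc, ← cw_cons, hY (i :: ω), mul_smul_comm, mul_one,
        smul_mul_assoc, tau_smul, hY ω hω, mul_zero, sub_zero]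
      intro j hj
      rw [List.mem_cons] at hj
      rcases hj with rfl | hj
      · exact hi
      · exact hω j hj
  exact fun u => key _ u rfl Y h

lemma pow_vv_ne (k : ℕ) : ((v + vi : A)) ^ k ≠ 0 := pow_ne_zero k vv_ne

lemma coeff_intCast (c k : ℤ) (hk : k ≠ 0) : ((c : ℤ) : A).coeff k = 0 := by
  rw [show ((c : ℤ) : A) = LaurentPolynomial.C c by simp, C_apply]
  simp [hk]

/-- half of the final argument -/
lemma half (P : Pack (Simp n) len b bar C D) {i j : ℕ} (hi : i + 1 < n) (hj : j + 1 < n)
    (hij : j = i + 1 ∨ i = j + 1) (g g' x y : Equiv.Perm (Fin n)) (hg : FCp g) (hg' : FCp g')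
    (h1 : vl g (i + 1) < vl g i) (h2 : vl g j < vl g (j + 1))
    (h3 : vl g' (j + 1) < vl g' j) (h4 : vl g' i < vl g' (i + 1))
    (hgg : g' = g * sim n i ∨ g' = g * sim n j)
    (hX : ∀ h, ff b D g (C x * h) = ff b D g (C y * h)) (ω : List ℕ) (hω : ∀ i ∈ ω, i + 1 < n)
    (hne : ff b D g' (C x * cw C ω) ≠ 0) : ff b D g' (C x * cw C ω) = ff b D g' (C y * cw C ω) := by
  have hX2 : ∀ h, ff b D g' (C x * h * C (sim n j)) = ff b D g' (C y * h * C (sim n j)) := by
    intro h
    rw [← ff_star P hi hj hij g g' h1 h2 h3 h4 hgg, ← ff_star P hi hj hij g g' h1 h2 h3 h4 hgg,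
      mul_assoc, mul_assoc, mul_assoc, mul_assoc, hX]
  rcases monomial P x ω hω with m1 | ⟨k, z1, hz1, m1⟩
  · exact absurd ((pi_zero_iff P _).mp m1 g' hg') hne
  have hz1g : z1 = g' := by
    by_contra hcon
    apply hne
    rw [(pi_eq P _ _).mp m1 g' hg', ff_smul, ff_C P, if_neg hcon, mul_zero]
  subst hz1g
  have ex : ff b D z1 (C x * cw C ω) = (v + vi) ^ k := by
    rw [(pi_eq P _ _).mp m1 z1 hg', ff_smul, ff_C P, if_pos rfl, mul_one]
  have ext : ff b D z1 (C x * cw C ω * C (sim n j)) = (v + vi) ^ k * (v + vi) := by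
    rw [(pi_eq P _ _).mp (pi_mul_right P m1 _) z1 hg', ff_smul, CC_dn P hj z1 h3, ff_smul, ff_C P,
      if_pos rfl, mul_one]
  have exs : ff b D g (C x * cw C ω * C (sim n i)) = (v + vi) ^ k := by
    rw [(pi_eq P _ _).mp (pi_mul_right P m1 _) g hg, ff_smul]
    have h5 : pi P (C z1 * C (sim n i)) = pi P (C g) := by
      rw [map_mul]
      refine pi_star P hj hi (by tauto) z1 g hg h3 h4 h1 h2 ?_
      rcases hgg with e | e
      · right; rw [e, mul_assoc, sim_sq hi, mul_one]
      · left; rw [e, mul_assoc, sim_sq hj, mul_one]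
    rw [(pi_eq P _ _).mp h5 g hg, ff_C P, if_pos rfl, mul_one]
  rcases monomial P y ω hω with m2 | ⟨m, z, hz, m2⟩
  · exfalso
    have h5 : ff b D z1 (C y * cw C ω * C (sim n j)) = 0 := by
      apply (pi_zero_iff P _).mp _ z1 hg'
      rw [map_mul, m2, zero_mul]
    rw [← hX2, ext] at h5
    exact (mul_ne_zero (pow_vv_ne k) vv_ne) h5
  have ey : ff b D z1 (C y * cw C ω) = (v + vi) ^ m * (if z = z1 then 1 else 0) := by
    rw [(pi_eq P _ _).mp m2 z1 hg', ff_smul, ff_C P]
  have eyt : ff b D z1 (C y * cw C ω * C (sim n j)) = (v + vi) ^ m * ff b D z1 (C z * C (sim n j)) := by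
    rw [(pi_eq P _ _).mp (pi_mul_right P m2 _) z1 hg', ff_smul]
  have eys : ff b D g (C y * cw C ω * C (sim n i)) = (v + vi) ^ m * ff b D g (C z * C (sim n i)) := by
    rw [(pi_eq P _ _).mp (pi_mul_right P m2 _) g hg, ff_smul]
  rw [← hX2, ext] at eyt
  have hXs : ff b D g (C y * cw C ω * C (sim n i)) = ff b D g (C x * cw C ω * C (sim n i)) := by
    rw [mul_assoc, mul_assoc, hX]
  rw [hXs, exs] at eys
  rcases vl_or z hj with h5 | h5
  · rw [CC_dn P hj z h5, ff_smul, ff_C P] at eyt
    by_cases hzz : z = z1
    · rw [if_pos hzz, mul_one] at eyt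
      rw [ex, ey, if_pos hzz, mul_one]
      exact mul_right_cancel₀ vv_ne eyt
    · rw [if_neg hzz, mul_zero, mul_zero] at eyt
      exact absurd eyt (mul_ne_zero (pow_vv_ne k) vv_ne)
  · exfalso
    rw [ff_CC_up P hj z z1 h5] at eyt
    set c : ℤ := (if z * sim n j = z1 then 1 else 0) + mm len b C z (sim n j) z1 with hc
    have hcc : ((if z * sim n j = z1 then 1 else 0 : A)) + ((mm len b C z (sim n j) z1 : ℤ) : A) = (c : A) := by
      rw [hc]; push_cast; rfl
    rw [hcc, eys] at eyt
    have hc0 : (c : A) = ff b D g (C z * C (sim n i)) * (v + vi) := by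
      have e : (v + vi) ^ m * (c : A) = (v + vi) ^ m * (ff b D g (C z * C (sim n i)) * (v + vi)) := by
        rw [← eyt]; ring
      exact mul_left_cancel₀ (pow_vv_ne m) e
    have hcne : (c : A) ≠ 0 := by
      intro h0
      rw [h0, mul_zero] at eyt
      rw [← eys] at eyt
      exact (mul_ne_zero (pow_vv_ne k) vv_ne) eyt
    rcases vl_or z hi with h6 | h6
    · rw [CC_dn P hi z h6, ff_smul, ff_C P] at hc0
      by_cases hzg : z = g
      · rw [if_pos hzg, mul_one] at hc0
        have h7 := congrArg (fun f : A => f.coeff 2) hc0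
        rw [coeff_intCast c 2 (by norm_num), add_mul, AddMonoidAlgebra.coeff_add, Finsupp.add_apply,
          coeff_v_mul, coeff_vi_mul, AddMonoidAlgebra.coeff_add,
          Finsupp.add_apply, Finsupp.add_apply, coeff_v, coeff_v, coeff_vi, coeff_vi] at h7
        norm_num at h7
      · rw [if_neg hzg, mul_zero, zero_mul] at hc0
        exact hcne hc0
    · rw [ff_CC_up P hi z g h6] at hc0
      set d : ℤ := (if z * sim n i = g then 1 else 0) + mm len b C z (sim n i) g with hd
      have hdd : ((if z * sim n i = g then 1 else 0 : A)) + ((mm len b C z (sim n i) g : ℤ) : A) = (d : A) := by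
        rw [hd]; push_cast; rfl
      rw [hdd, mul_comm] at hc0
      have h7 := congrArg (fun f : A => f.coeff 1) hc0
      rw [coeff_intCast c 1 (by norm_num), add_mul, AddMonoidAlgebra.coeff_add, Finsupp.add_apply,
          coeff_v_mul, coeff_vi_mul, coeff_intCast d (1 + 1) (by norm_num)] at h7
      have hd0 : d = 0 := by
        have h8 : ((d : ℤ) : A).coeff (1 - 1) = d := by
          rw [show ((d : ℤ) : A) = LaurentPolynomial.C d by simp, C_apply]
          simp
        rw [h8, add_zero] at h7
        exact h7.symm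
      rw [hd0] at hc0
      apply hcne
      rw [hc0]
      simp

end

end Pool.Agent.LibKLD42
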