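import Pool.Agent.LibKLD42.F4
import Pool.Agent.LibKLD42.Defs

set_option autoImplicit false
set_option linter.unusedSectionVars false
set_option linter.unusedSimpArgs false

namespace Pool.Agent.LibKLD42

open LaurentPolynomial

section

variable {n : ℕ} {H : Type} [Ring H] [Algebra A H]
  {b : Module.Basis (Equiv.Perm (Fin n)) A H} {bar : H →+* H} {C D : Equiv.Perm (Fin n) → H}

theorem fc_step (P : Pack (Simp n) len b bar C D) {i j : ℕ} (hi : i + 1 < n) (hj : j + 1 < n)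
    (hij : j = i + 1 ∨ i = j + 1) (w w' x y : Equiv.Perm (Fin n)) (hg : FCp w⁻¹) (hg' : FCp w'⁻¹)
    (h1 : vl w⁻¹ (i + 1) < vl w⁻¹ i) (h2 : vl w⁻¹ j < vl w⁻¹ (j + 1))
    (h3 : vl w'⁻¹ (j + 1) < vl w'⁻¹ j) (h4 : vl w'⁻¹ i < vl w'⁻¹ (i + 1))
    (hgg : w'⁻¹ = w⁻¹ * sim n i ∨ w'⁻¹ = w⁻¹ * sim n j)
    (hX : D w * C x = D w * C y) : D w' * C x = D w' * C y := by
  have hX1 : ∀ h, ff b D w⁻¹ (C x * h) = ff b D w⁻¹ (C y * h) := by
    intro h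
    unfold ff
    rw [inv_inv, ← mul_assoc, ← mul_assoc, hX]
  rw [← sub_eq_zero]
  apply words_detect P
  intro ω hω
  rw [sub_mul, tau_sub, sub_eq_zero]
  have e : ∀ u, tau b (D w' * C u * cw C ω) = ff b D w'⁻¹ (C u * cw C ω) := by
    intro u
    unfold ff
    rw [inv_inv, mul_assoc]
  rw [e, e]
  by_cases h0 : ff b D w'⁻¹ (C x * cw C ω) = 0
  · by_cases h0' : ff b D w'⁻¹ (C y * cw C ω) = 0
    · rw [h0, h0']
    · exact (half P hi hj hij w⁻¹ w'⁻¹ y x hg hg' h1 h2 h3 h4 hgg (fun h => (hX1 h).symm) ω hω h0').symm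
  · exact half P hi hj hij w⁻¹ w'⁻¹ x y hg hg' h1 h2 h3 h4 hgg hX1 ω hω h0

lemma leftStar_data (w w' : Equiv.Perm (Fin n)) (hs : LeftStar w w') :
    ∃ i j : ℕ, i + 1 < n ∧ j + 1 < n ∧ (j = i + 1 ∨ i = j + 1) ∧
      vl w⁻¹ (i + 1) < vl w⁻¹ i ∧ vl w⁻¹ j < vl w⁻¹ (j + 1) ∧
      vl w'⁻¹ (j + 1) < vl w'⁻¹ j ∧ vl w'⁻¹ i < vl w'⁻¹ (i + 1) ∧
      (w'⁻¹ = w⁻¹ * sim n i ∨ w'⁻¹ = w⁻¹ * sim n j) := by
  obtain ⟨i, j, hi, hj, hij, e1, e2, e3, e4, e5⟩ := hs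
  rw [len_left w hi, ← len_inv w] at e1
  rw [len_left w hj, ← len_inv w] at e2
  rw [len_left w' hj, ← len_inv w'] at e3
  rw [len_left w' hi, ← len_inv w'] at e4
  refine ⟨i, j, hi, hj, hij, ?_, ?_, ?_, ?_, ?_⟩
  · rw [← dn_iff hi]
    rcases (lenData n).right (sim n i) ⟨i, hi, rfl⟩ w⁻¹ with h | h <;> omega
  · rw [← up_iff hj]
    rcases (lenData n).right (sim n j) ⟨j, hj, rfl⟩ w⁻¹ with h | h <;> omega
  · rw [← dn_iff hj]
    rcases (lenData n).right (sim n j) ⟨j, hj, rfl⟩ w'⁻¹ with h | h <;> omega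
  · rw [← up_iff hi]
    rcases (lenData n).right (sim n i) ⟨i, hi, rfl⟩ w'⁻¹ with h | h <;> omega
  · rcases e5 with rfl | rfl
    · left; rw [mul_inv_rev, (lenData n).inv_s ⟨i, hi, rfl⟩]
    · right; rw [mul_inv_rev, (lenData n).inv_s ⟨j, hj, rfl⟩]

lemma leftStar_fc (w w' : Equiv.Perm (Fin n)) (hs : LeftStar w w') (hw : FCp w) : FCp w' := by
  obtain ⟨i, j, hi, hj, hij, h1, h2, h3, h4, h5⟩ := leftStar_data w w' hs
  obtain ⟨z', hz', g1, g2, g3⟩ := fc_star hi hj hij w⁻¹ (fc_inv w hw) h1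
  have e : z' = w'⁻¹ := by
    apply star_uniq hi hj hij w⁻¹ w'⁻¹ ((dn_iff hi _).mpr h1) ((up_iff hj _).mpr h2)
      ((dn_iff hj _).mpr h3) ((up_iff hi _).mpr h4) h5 z' ((up_iff hi _).mpr g2) ((dn_iff hj _).mpr g1) g3
  have := fc_inv _ hz'
  rwa [e, inv_inv] at this

theorem fc_main (hb : IsHecke b) (hbar : IsBar b bar) (hC : IsKL b bar C) (hD : IsDual b C D)
    (w w' x y : Equiv.Perm (Fin n)) (hw : FCp w) (hs : Relation.ReflTransGen LeftStar w w')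
    (hX : D w * C x = D w * C y) : D w' * C x = D w' * C y := by
  have P : Pack (Simp n) len b bar C D :=
    ⟨hb.toHData, hbar.toBarData, hbar.inv_right, hC.toKLData, hD.toDualData⟩
  have key : FCp w' ∧ D w' * C x = D w' * C y := by
    induction hs with
    | refl => exact ⟨hw, hX⟩
    | @tail u u' _ h ih =>
      obtain ⟨h0, hX'⟩ := ih
      have h0' := leftStar_fc u u' h h0
      refine ⟨h0', ?_⟩
      obtain ⟨i, j, hi, hj, hij, h1, h2, h3, h4, h5⟩ := leftStar_data u u' h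
      exact fc_step P hi hj hij u u' x y (fc_inv u h0) (fc_inv u' h0') h1 h2 h3 h4 h5 hX'
  exact key.2

end

end Pool.Agent.LibKLD42
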