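import Pool.Agent.LibKLD42.P2
import Pool.Agent.LibKLD42.Q3

set_option autoImplicit false
set_option linter.unusedSectionVars false

namespace Pool.Agent.LibKLD42

variable {n : ℕ}

private lemma Q4_sim (d : Equiv.Perm (Fin n)) {m : ℕ} (hm : m + 1 < n) {k : ℕ} (hk : k < n) :
    vl (sim n m * d) k = if vl d k = m then m + 1 else if vl d k = m + 1 then m else vl d k := by
  rw [vl_of _ hk, Equiv.Perm.mul_apply, sim_val hm, vl_of d hk]

private lemma Q4_inv (d : Equiv.Perm (Fin n)) {k : ℕ} (hk : k < n) :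
    vl d k < n ∧ vl d⁻¹ (vl d k) = k := by
  have h := (d ⟨k, hk⟩).2
  rw [vl_of d hk]
  refine ⟨h, ?_⟩
  rw [vl_of _ h]
  simp

/-- Q4 : by `near_id` (for `d` and `d⁻¹`), `d l = l + 1` and `d (l + 1) = l`.
Case `m = l + 1`: take `i = l`. Then `(sim m * d) l = l + 2`; and `d (l + 2) = l + 2` (if `d (l+2) = l+3` then
`d (l+3) = l+2`, against `hother` for `k = l + 2`), so `(sim m * d) (l + 2) = l + 1`.
Case `l = m + 1`: take `i = m`. Then `(sim m * d) (m + 2) = m`, and `d m = m` (use `hother` with `k = m - 1`), so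
`(sim m * d) m = m + 1`. -/
lemma irred_star (d : Equiv.Perm (Fin n))
    (h1 : ∀ (i : ℕ) (h : i + 2 < n), d ⟨i, by omega⟩ < d ⟨i + 2, h⟩)
    (h2 : ∀ (i : ℕ) (h : i + 2 < n), d⁻¹ ⟨i, by omega⟩ < d⁻¹ ⟨i + 2, h⟩)
    {l m : ℕ} (hl : l + 1 < n) (hm : m + 1 < n) (hlm : m = l + 1 ∨ l = m + 1)
    (hd : vl d⁻¹ (l + 1) < vl d⁻¹ l)
    (hother : ∀ k, k + 1 < n → (k = m + 1 ∨ m = k + 1) → k ≠ l → vl d⁻¹ k < vl d⁻¹ (k + 1)) :
    ∃ i, i + 2 < n ∧ vl (sim n m * d) (i + 2) < vl (sim n m * d) i := by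
  have nf : ∀ k, k < n → vl d k ≤ k + 1 ∧ k ≤ vl d k + 1 := by
    intro k hk
    have := near_id d h1 h2 ⟨k, hk⟩
    rw [vl_of d hk]
    exact this
  have ng : ∀ k, k < n → vl d⁻¹ k ≤ k + 1 ∧ k ≤ vl d⁻¹ k + 1 := by
    intro k hk
    have := near_id d⁻¹ h2 (by simpa using h1) ⟨k, hk⟩
    rw [vl_of d⁻¹ hk]
    exact this
  have gf : ∀ k, k < n → vl d k < n ∧ vl d⁻¹ (vl d k) = k := fun k hk => Q4_inv d hk
  have fg : ∀ k, k < n → vl d⁻¹ k < n ∧ vl d (vl d⁻¹ k) = k := by
    intro k hk
    have := Q4_inv d⁻¹ hk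
    rwa [inv_inv] at this
  have a1 := ng (l + 1) hl
  have a2 := ng l (by omega)
  have g1 : vl d⁻¹ (l + 1) = l := by omega
  have g2 : vl d⁻¹ l = l + 1 := by omega
  have f1 : vl d l = l + 1 := by
    have := (fg (l + 1) hl).2
    rwa [g1] at this
  have f2 : vl d (l + 1) = l := by
    have := (fg l (by omega)).2
    rwa [g2] at this
  rcases hlm with rfl | rfl
  · refine ⟨l, by omega, ?_⟩
    have b := nf (l + 2) (by omega)
    have f3 : vl d (l + 2) = l + 2 := by
      by_contra hc
      have c1 : vl d (l + 2) ≠ l + 1 := by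
        intro e
        have := (gf (l + 2) (by omega)).2
        rw [e, g1] at this
        omega
      have c2 : vl d (l + 2) = l + 3 := by omega
      have c3 := gf (l + 2) (by omega)
      rw [c2] at c3
      have c4 := ng (l + 2) (by omega)
      have c5 := (fg (l + 2) (by omega)).2
      have c6 : vl d⁻¹ (l + 2) ≠ l + 1 := by
        intro e
        rw [e, f2] at c5
        omega
      have c7 : vl d⁻¹ (l + 2) ≠ l + 2 := by
        intro e
        rw [e] at c5
        omega
      have c8 := hother (l + 2) (by omega) (by omega) (by omega)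
      have c9 : vl d⁻¹ (l + 2 + 1) = l + 2 := c3.2
      omega
    rw [Q4_sim d hm (by omega), Q4_sim d hm (by omega), f1, f3]
    simp
  · refine ⟨m, by omega, ?_⟩
    have b := nf m (by omega)
    have f3 : vl d m = m := by
      by_contra hc
      have c1 : vl d m ≠ m + 1 := by
        intro e
        have := (gf m (by omega)).2
        rw [e, g2] at this
        omega
      obtain ⟨j, rfl⟩ : ∃ j, m = j + 1 := ⟨m - 1, by omega⟩
      have c2 : vl d (j + 1) = j := by omega
      have c3 := (gf (j + 1) (by omega)).2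
      rw [c2] at c3
      have c4 := ng (j + 1) (by omega)
      have c5 := (fg (j + 1) (by omega)).2
      have c6 : vl d⁻¹ (j + 1) ≠ j + 2 := by
        intro e
        rw [e] at c5
        have : vl d (j + 2) = j + 3 := f1
        omega
      have c7 : vl d⁻¹ (j + 1) ≠ j + 1 := by
        intro e
        rw [e] at c5
        omega
      have c8 := hother j (by omega) (by omega) (by omega)
      omega
    have f2' : vl d (m + 2) = m + 1 := f2
    rw [Q4_sim d hm (by omega), Q4_sim d hm (by omega), f2', f3]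
    simp

end Pool.Agent.LibKLD42
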