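import Pool.Agent.LibKLD42.P2
import Pool.Agent.LibKLD42.Q3

set_option autoImplicit false
set_option linter.unusedSectionVars false

namespace Pool.Agent.LibKLD42

variable {n : ℕ}

lemma near_vl (w : Equiv.Perm (Fin n))
    (h1 : ∀ (i : ℕ) (h : i + 2 < n), w ⟨i, by omega⟩ < w ⟨i + 2, h⟩)
    (h2 : ∀ (i : ℕ) (h : i + 2 < n), w⁻¹ ⟨i, by omega⟩ < w⁻¹ ⟨i + 2, h⟩) {k : ℕ} (hk : k < n) :
    vl w k ≤ k + 1 ∧ k ≤ vl w k + 1 := by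
  have := near_id w h1 h2 ⟨k, hk⟩
  rw [vl_of w hk]
  exact this

lemma vl_lt (w : Equiv.Perm (Fin n)) {k : ℕ} (hk : k < n) : vl w k < n := by
  rw [vl_of w hk]; exact (w ⟨k, hk⟩).isLt

lemma vl_inv (w : Equiv.Perm (Fin n)) {k : ℕ} (hk : k < n) : vl w (vl w⁻¹ k) = k := by
  have h1 : vl w⁻¹ k = (w⁻¹ ⟨k, hk⟩ : ℕ) := vl_of w⁻¹ hk
  rw [h1, vl_of w (w⁻¹ ⟨k, hk⟩).isLt]
  simp

/-- no two consecutive points both move up -/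
lemma no_run (w : Equiv.Perm (Fin n))
    (h1 : ∀ (i : ℕ) (h : i + 2 < n), w ⟨i, by omega⟩ < w ⟨i + 2, h⟩)
    (h2 : ∀ (i : ℕ) (h : i + 2 < n), w⁻¹ ⟨i, by omega⟩ < w⁻¹ ⟨i + 2, h⟩) :
    ∀ k, k + 1 < n → ¬ (vl w k = k + 1 ∧ vl w (k + 1) = k + 2) := by
  have h1' : ∀ (i : ℕ) (h : i + 2 < n), (w⁻¹)⁻¹ ⟨i, by omega⟩ < (w⁻¹)⁻¹ ⟨i + 2, h⟩ := by
    rw [inv_inv]; exact h1
  intro k
  induction k with
  | zero =>
    rintro hk ⟨a1, a2⟩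
    have h3 := (near_vl w⁻¹ h2 h1' (k := 0) (by omega)).1
    have h4 := vl_inv w (k := 0) (by omega)
    have h5 : vl w⁻¹ 0 = 0 ∨ vl w⁻¹ 0 = 1 := by omega
    rcases h5 with h5 | h5
    · rw [h5, a1] at h4; omega
    · rw [h5] at h4
      simp only [zero_add] at a2
      rw [a2] at h4; omega
  | succ k ih =>
    rintro hk ⟨a1, a2⟩
    have h3 := near_vl w⁻¹ h2 h1' (k := k + 1) (by omega)
    have h4 := vl_inv w (k := k + 1) (by omega)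
    have h5 : vl w⁻¹ (k + 1) = k ∨ vl w⁻¹ (k + 1) = k + 1 ∨ vl w⁻¹ (k + 1) = k + 1 + 1 := by omega
    rcases h5 with h5 | h5 | h5
    · rw [h5] at h4
      exact ih (by omega) ⟨h4, a1⟩
    · rw [h5, a1] at h4; omega
    · rw [h5, a2] at h4; omega

/-- a point that moves up is exchanged with the next one -/
lemma up_swap (w : Equiv.Perm (Fin n))
    (h1 : ∀ (i : ℕ) (h : i + 2 < n), w ⟨i, by omega⟩ < w ⟨i + 2, h⟩)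
    (h2 : ∀ (i : ℕ) (h : i + 2 < n), w⁻¹ ⟨i, by omega⟩ < w⁻¹ ⟨i + 2, h⟩)
    {k : ℕ} (hk : k < n) (h : vl w k = k + 1) : k + 1 < n ∧ vl w (k + 1) = k := by
  have h1' : ∀ (i : ℕ) (h : i + 2 < n), (w⁻¹)⁻¹ ⟨i, by omega⟩ < (w⁻¹)⁻¹ ⟨i + 2, h⟩ := by
    rw [inv_inv]; exact h1
  have hk1 : k + 1 < n := by
    have := vl_lt w hk; omega
  refine ⟨hk1, ?_⟩
  have h3 := near_vl w⁻¹ h2 h1' (k := k) hk
  have h4 := vl_inv w (k := k) hk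
  have h5 : vl w⁻¹ k = k + 1 ∨ vl w⁻¹ k = k ∨ vl w⁻¹ k + 1 = k := by omega
  rcases h5 with h5 | h5 | h5
  · rw [h5] at h4; exact h4
  · rw [h5, h] at h4; omega
  · exfalso
    obtain ⟨j, hj⟩ : ∃ j, k = j + 1 := ⟨vl w⁻¹ k, h5.symm⟩
    subst hj
    have h6 : vl w⁻¹ (j + 1) = j := by omega
    rw [h6] at h4
    exact no_run w h1 h2 j (by omega) ⟨h4, h⟩

lemma vl_formula (w : Equiv.Perm (Fin n))
    (h1 : ∀ (i : ℕ) (h : i + 2 < n), w ⟨i, by omega⟩ < w ⟨i + 2, h⟩)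
    (h2 : ∀ (i : ℕ) (h : i + 2 < n), w⁻¹ ⟨i, by omega⟩ < w⁻¹ ⟨i + 2, h⟩)
    {k : ℕ} (hk : k < n) :
    (vl w k = k + 1 ↔ (k + 1 < n ∧ vl w (k + 1) < vl w k)) ∧
    (vl w k + 1 = k ↔ (0 < k ∧ vl w k < vl w (k - 1))) := by
  have hn := near_vl w h1 h2 hk
  have h1' : ∀ (i : ℕ) (h : i + 2 < n), (w⁻¹)⁻¹ ⟨i, by omega⟩ < (w⁻¹)⁻¹ ⟨i + 2, h⟩ := by
    rw [inv_inv]; exact h1
  constructor
  · constructor
    · intro h
      obtain ⟨a1, a2⟩ := up_swap w h1 h2 hk h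
      exact ⟨a1, by omega⟩
    · rintro ⟨a1, a2⟩
      have := near_vl w h1 h2 a1
      omega
  · constructor
    · intro h
      have hk0 : 0 < k := by omega
      refine ⟨hk0, ?_⟩
      -- `w⁻¹ (k-1) = k`
      obtain ⟨j, rfl⟩ : ∃ j, k = j + 1 := ⟨k - 1, by omega⟩
      have h3 : vl w (j + 1) = j := by omega
      have h4 : vl w⁻¹ j = j + 1 := by
        have h5 := vl_inv w (k := j) (by omega)
        have h6 := vl_lt w⁻¹ (k := j) (by omega)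
        exact vl_inj w h6 hk (h5.trans h3.symm)
      obtain ⟨b1, b2⟩ := up_swap w⁻¹ h2 h1' (k := j) (by omega) h4
      have h7 := vl_inv w (k := j + 1) hk
      rw [b2] at h7
      rw [Nat.add_sub_cancel, h7, h3]
      omega
    · rintro ⟨a1, a2⟩
      have := near_vl w h1 h2 (k := k - 1) (by omega)
      omega

lemma irred_eq (u u' : Equiv.Perm (Fin n))
    (h1 : ∀ (i : ℕ) (h : i + 2 < n), u ⟨i, by omega⟩ < u ⟨i + 2, h⟩)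
    (h2 : ∀ (i : ℕ) (h : i + 2 < n), u⁻¹ ⟨i, by omega⟩ < u⁻¹ ⟨i + 2, h⟩)
    (h1' : ∀ (i : ℕ) (h : i + 2 < n), u' ⟨i, by omega⟩ < u' ⟨i + 2, h⟩)
    (h2' : ∀ (i : ℕ) (h : i + 2 < n), u'⁻¹ ⟨i, by omega⟩ < u'⁻¹ ⟨i + 2, h⟩)
    (hd : ∀ k, k + 1 < n → (vl u⁻¹ (k + 1) < vl u⁻¹ k ↔ vl u'⁻¹ (k + 1) < vl u'⁻¹ k)) : u = u' := by
  have g1 : ∀ (i : ℕ) (h : i + 2 < n), (u⁻¹)⁻¹ ⟨i, by omega⟩ < (u⁻¹)⁻¹ ⟨i + 2, h⟩ := by
    rw [inv_inv]; exact h1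
  have g1' : ∀ (i : ℕ) (h : i + 2 < n), (u'⁻¹)⁻¹ ⟨i, by omega⟩ < (u'⁻¹)⁻¹ ⟨i + 2, h⟩ := by
    rw [inv_inv]; exact h1'
  apply inv_injective
  ext k
  obtain ⟨k, hk⟩ := k
  have a := vl_formula u⁻¹ h2 g1 hk
  have a' := vl_formula u'⁻¹ h2' g1' hk
  have c := near_vl u⁻¹ h2 g1 hk
  have c' := near_vl u'⁻¹ h2' g1' hk
  have e : vl u⁻¹ k = vl u'⁻¹ k := by
    have up : vl u⁻¹ k = k + 1 ↔ vl u'⁻¹ k = k + 1 := by
      rw [a.1, a'.1]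
      constructor
      · rintro ⟨x, y⟩; exact ⟨x, (hd k x).mp y⟩
      · rintro ⟨x, y⟩; exact ⟨x, (hd k x).mpr y⟩
    have dn : vl u⁻¹ k + 1 = k ↔ vl u'⁻¹ k + 1 = k := by
      rw [a.2, a'.2]
      have hd' : ∀ (h0 : 0 < k), (vl u⁻¹ k < vl u⁻¹ (k - 1) ↔ vl u'⁻¹ k < vl u'⁻¹ (k - 1)) := by
        intro h0
        have := hd (k - 1) (by omega)
        rw [Nat.sub_add_cancel h0] at this
        exact this
      constructor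
      · rintro ⟨x, y⟩; exact ⟨x, (hd' x).mp y⟩
      · rintro ⟨x, y⟩; exact ⟨x, (hd' x).mpr y⟩
    omega
  rw [vl_of _ hk, vl_of _ hk] at e
  exact e

end Pool.Agent.LibKLD42
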