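import Pool.Agent.LibKLD42.F5
import Pool.Agent.LibKLD42.Q4
import Pool.Agent.LibKLD42.Q5

set_option autoImplicit false
set_option linter.unusedSectionVars false
set_option linter.unusedSimpArgs false

namespace Pool.Agent.LibKLD42

open LaurentPolynomial

section

variable {n : ℕ}

/-- right star operation from `z` to `z'` with given indices: `i` is a descent of `z`, `j` of `z'` -/
def RS (i j : ℕ) (z z' : Equiv.Perm (Fin n)) : Prop :=
  i + 1 < n ∧ j + 1 < n ∧ (j = i + 1 ∨ i = j + 1) ∧ vl z (i + 1) < vl z i ∧ vl z j < vl z (j + 1) ∧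
    vl z' (j + 1) < vl z' j ∧ vl z' i < vl z' (i + 1) ∧ (z' = z * sim n i ∨ z' = z * sim n j)

lemma RS.symm {i j : ℕ} {z z' : Equiv.Perm (Fin n)} (h : RS i j z z') : RS j i z' z := by
  obtain ⟨hi, hj, hij, h1, h2, h3, h4, h5⟩ := h
  refine ⟨hj, hi, by tauto, h3, h4, h1, h2, ?_⟩
  rcases h5 with rfl | rfl
  · right; rw [mul_assoc, sim_sq hi, mul_one]
  · left; rw [mul_assoc, sim_sq hj, mul_one]

/-- right star operation -/
def RStar (z z' : Equiv.Perm (Fin n)) : Prop := ∃ i j, RS i j z z'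

lemma RStar.symm {z z' : Equiv.Perm (Fin n)} (h : RStar z z') : RStar z' z := by
  obtain ⟨i, j, h⟩ := h
  exact ⟨j, i, h.symm⟩

lemma RS.uniq {i j : ℕ} {z z' z'' : Equiv.Perm (Fin n)} (h : RS i j z z') (h' : RS i j z z'') : z'' = z' := by
  obtain ⟨hi, hj, hij, h1, h2, h3, h4, h5⟩ := h
  obtain ⟨-, -, -, -, -, h3', h4', h5'⟩ := h'
  exact star_uniq hi hj hij z z' ((dn_iff hi _).mpr h1) ((up_iff hj _).mpr h2)
      ((dn_iff hj _).mpr h3) ((up_iff hi _).mpr h4) h5 z'' ((up_iff hi _).mpr h4') ((dn_iff hj _).mpr h3') h5'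

lemma RS.exists {i j : ℕ} (hi : i + 1 < n) (hj : j + 1 < n) (hij : j = i + 1 ∨ i = j + 1)
    {z : Equiv.Perm (Fin n)} (hz : FCp z) (h1 : vl z (i + 1) < vl z i) : ∃ z', FCp z' ∧ RS i j z z' := by
  obtain ⟨z', hz', g1, g2, g3⟩ := fc_star hi hj hij z hz h1
  exact ⟨z', hz', hi, hj, hij, h1, fc_adj hi hj hij z hz h1, g1, g2, g3⟩

lemma RS.fc {i j : ℕ} {z z' : Equiv.Perm (Fin n)} (h : RS i j z z') (hz : FCp z) : FCp z' := by
  obtain ⟨z'', hz'', h'⟩ := RS.exists h.1 h.2.1 h.2.2.1 hz h.2.2.2.1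
  rw [← RS.uniq h h']
  exact hz''

/-- a right reducible fully commutative element has a shorter star neighbour -/
lemma rred (z : Equiv.Perm (Fin n)) (hz : FCp z) {i : ℕ} (h : i + 2 < n) (h1 : vl z (i + 2) < vl z i) :
    ∃ t q, RS t q z (z * sim n t) := by
  have hi : i + 1 < n := by omega
  have hj : i + 1 + 1 < n := by omega
  have h1' : vl z (i + 1 + 1) < vl z i := h1
  rcases vl_or z hi with h2 | h2
  · have h3 := fc_adj hi hj (Or.inl rfl) z hz h2
    refine ⟨i, i + 1, hi, hj, Or.inl rfl, h2, h3, ?_, ?_, Or.inl rfl⟩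
    · rw [vl_mul z hi hj, vl_mul z hi (Nat.lt_of_succ_lt hj)]
      split_ifs <;> omega
    · rw [vl_mul z hi hi, vl_mul z hi (Nat.lt_of_succ_lt hi)]
      split_ifs <;> omega
  · have h3 : vl z (i + 1 + 1) < vl z (i + 1) := by omega
    refine ⟨i + 1, i, hj, hi, Or.inr rfl, h3, h2, ?_, ?_, Or.inl rfl⟩
    · rw [vl_mul z hj hi, vl_mul z hj (Nat.lt_of_succ_lt hi)]
      split_ifs <;> omega
    · rw [vl_mul z hj hj, vl_mul z hj (Nat.lt_of_succ_lt hj)]
      split_ifs <;> omega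

lemma RS.len_le {i j : ℕ} {z z' : Equiv.Perm (Fin n)} (h : RS i j z z') : len z' ≤ len z + 1 := by
  rcases h.2.2.2.2.2.2.2 with rfl | rfl
  · exact len_right_le z h.1
  · exact len_right_le z h.2.1

end

section

variable {n : ℕ} {H : Type} [Ring H] [Algebra A H]
  {b : Module.Basis (Equiv.Perm (Fin n)) A H} {bar : H →+* H} {C D : Equiv.Perm (Fin n) → H}

lemma ff_op (P : Pack (Simp n) len b bar C D) (z : Equiv.Perm (Fin n)) (X : H) :
    ff (opb b) (fun w => MulOpposite.op (D w⁻¹)) z (MulOpposite.op X) = ff b D z⁻¹ X := by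
  unfold ff
  rw [opb_tau]
  simp only [inv_inv, ← MulOpposite.op_mul, MulOpposite.unop_op]
  rw [tau_comm (lenData n) P.hd]

/-- equality in the quotient of the opposite -/
lemma pi_op (P : Pack (Simp n) len b bar C D) (X Y : H) :
    pi (P.op (lenData n)) (MulOpposite.op X) = pi (P.op (lenData n)) (MulOpposite.op Y) ↔ pi P X = pi P Y := by
  rw [pi_eq, pi_eq]
  constructor
  · intro h z hz
    have := h z⁻¹ (fc_inv z hz)
    rwa [ff_op P, ff_op P, inv_inv] at this
  · intro h z hz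
    rw [ff_op P, ff_op P]
    exact h z⁻¹ (fc_inv z hz)

/-- left star formula -/
lemma pi_star_left (P : Pack (Simp n) len b bar C D) {l m : ℕ} {z u : Equiv.Perm (Fin n)} (hu : FCp u)
    (h : RS l m z⁻¹ u⁻¹) : pi P (C (sim n m)) * pi P (C z) = pi P (C u) := by
  obtain ⟨hi, hj, hij, h1, h2, h3, h4, h5⟩ := h
  have := pi_star (P.op (lenData n)) hi hj hij z⁻¹ u⁻¹ (fc_inv u hu) h1 h2 h3 h4 h5
  rw [← map_mul] at this
  simp only [inv_inv, ← MulOpposite.op_mul, (lenData n).inv_s (mem_simp hj)] at this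
  rw [pi_op] at this
  rw [← map_mul, this]

lemma pi_star_right (P : Pack (Simp n) len b bar C D) {i j : ℕ} {z z' : Equiv.Perm (Fin n)} (hz' : FCp z')
    (h : RS i j z z') : pi P (C z) * pi P (C (sim n j)) = pi P (C z') := by
  obtain ⟨hi, hj, hij, h1, h2, h3, h4, h5⟩ := h
  exact pi_star P hi hj hij z z' hz' h1 h2 h3 h4 h5

lemma CC_dn_left (P : Pack (Simp n) len b bar C D) {i : ℕ} (hi : i + 1 < n) (z : Equiv.Perm (Fin n))
    (hz : vl z⁻¹ (i + 1) < vl z⁻¹ i) : C (sim n i) * C z = (v + vi) • C z := by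
  have := CC_dn (P.op (lenData n)) hi z⁻¹ hz
  simp only [inv_inv, ← MulOpposite.op_mul, (lenData n).inv_s (mem_simp hi)] at this
  rw [← MulOpposite.op_smul] at this
  exact MulOpposite.op_injective this

lemma ff_kill_left (P : Pack (Simp n) len b bar C D) {i : ℕ} (hi : i + 1 < n) (z : Equiv.Perm (Fin n))
    (hz : vl z⁻¹ i < vl z⁻¹ (i + 1)) (X : H) : ff b D z (C (sim n i) * X) = 0 := by
  have := ff_kill (P.op (lenData n)) hi z⁻¹ hz (MulOpposite.op X)
  simp only [← MulOpposite.op_mul, (lenData n).inv_s (mem_simp hi)] at this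
  rwa [ff_op P, inv_inv] at this

/-- `z'` is generated from `z` (right multiplication) -/
def Gen (P : Pack (Simp n) len b bar C D) (z z' : Equiv.Perm (Fin n)) : Prop :=
  ∃ (ω : List ℕ) (a : ℕ), (∀ i ∈ ω, i + 1 < n) ∧ pi P (C z * cw C ω) = pi P ((v + vi) ^ a • C z')

lemma Gen.trans {P : Pack (Simp n) len b bar C D} {x y z : Equiv.Perm (Fin n)}
    (h : Gen P x y) (h' : Gen P y z) : Gen P x z := by
  obtain ⟨ω, a, h1, h2⟩ := h
  obtain ⟨ω', a', h1', h2'⟩ := h'
  refine ⟨ω ++ ω', a + a', ?_, ?_⟩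
  · intro i hi
    rw [List.mem_append] at hi
    rcases hi with hi | hi
    · exact h1 i hi
    · exact h1' i hi
  · rw [cw_append, ← mul_assoc, pi_mul_right P h2, pi_smul, h2', ← pi_smul, smul_smul, pow_add]

lemma RS.gen (P : Pack (Simp n) len b bar C D) {i j : ℕ} {z z' : Equiv.Perm (Fin n)} (h : RS i j z z')
    (hz : FCp z) : Gen P z z' := by
  refine ⟨[j], 0, ?_, ?_⟩
  · intro k hk
    rw [List.mem_singleton] at hk
    rw [hk]; exact h.2.1
  · rw [cw_single, map_mul, pi_star_right P (h.fc hz) h, pow_zero, one_smul]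

lemma gen_of_ff (P : Pack (Simp n) len b bar C D) (z z' : Equiv.Perm (Fin n)) (hz' : FCp z') (h : H)
    (hne : ff b D z' (C z * h) ≠ 0) : Gen P z z' := by
  by_contra hcon
  apply hne
  have h0 : D z'⁻¹ * C z = 0 := by
    apply words_detect P
    intro ω hω
    by_contra h1
    have h2 : ff b D z' (C z * cw C ω) ≠ 0 := by
      unfold ff
      rwa [← mul_assoc]
    rcases monomial P z ω hω with h3 | ⟨k, u, hu, h3⟩
    · exact h2 ((pi_zero_iff P _).mp h3 z' hz')
    · have h4 := (pi_eq P _ _).mp h3 z' hz'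
      rw [ff_smul, ff_C P] at h4
      by_cases h5 : u = z'
      · exact hcon ⟨ω, k, hω, by rw [h3, h5]⟩
      · rw [if_neg h5, mul_zero] at h4
        exact h2 h4
  unfold ff
  rw [← mul_assoc, h0, zero_mul]
  simp [tau]

/-- left descents grow -/
lemma Gen.left (P : Pack (Simp n) len b bar C D) {z z' : Equiv.Perm (Fin n)} (hg : Gen P z z')
    (hz' : FCp z') {l : ℕ} (hl : l + 1 < n) (h1 : vl z⁻¹ (l + 1) < vl z⁻¹ l) :
    vl z'⁻¹ (l + 1) < vl z'⁻¹ l := by
  rcases vl_or z'⁻¹ hl with h2 | h2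
  · exact h2
  · exfalso
    obtain ⟨ω, a, hω, h3⟩ := hg
    have e1 : pi P (C (sim n l) * (C z * cw C ω)) = pi P ((v + vi) • (C z * cw C ω)) := by
      rw [← mul_assoc, CC_dn_left P hl z h1, smul_mul_assoc]
    rw [map_mul, pi_smul, h3, ← map_mul, ← pi_smul, pi_eq] at e1
    have e2 := e1 z' hz'
    rw [ff_kill_left P hl z' h2, ff_smul, ff_smul, ff_C P, if_pos rfl, mul_one] at e2
    exact (mul_ne_zero vv_ne (pow_vv_ne a)) e2.symm

/-- left star operations preserve right descents -/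
lemma lstar_right (P : Pack (Simp n) len b bar C D) {l m : ℕ} {z u : Equiv.Perm (Fin n)} (hu : FCp u)
    (h : RS l m z⁻¹ u⁻¹) {i : ℕ} (hi : i + 1 < n) (h1 : vl z (i + 1) < vl z i) : vl u (i + 1) < vl u i := by
  rcases vl_or u hi with h2 | h2
  · exact h2
  · exfalso
    have h3 := pi_star_left P hu h
    have e1 : pi P (C u * C (sim n i)) = pi P ((v + vi) • C u) := by
      rw [map_mul, ← h3, mul_assoc, ← map_mul, CC_dn P hi z h1, ← map_mul, mul_smul_comm, pi_smul, map_mul,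
        h3, ← pi_smul]
    have e2 := (pi_eq P _ _).mp e1 u hu
    rw [ff_kill P hi u h2, ff_smul, ff_C P, if_pos rfl, mul_one] at e2
    exact vv_ne e2.symm

/-- left star operations on both members preserve generation -/
lemma Gen.lstar (P : Pack (Simp n) len b bar C D) {z z' : Equiv.Perm (Fin n)} (hg : Gen P z z')
    {l m : ℕ} {u u' : Equiv.Perm (Fin n)} (hu : FCp u) (hu' : FCp u')
    (h : RS l m z⁻¹ u⁻¹) (h' : RS l m z'⁻¹ u'⁻¹) : Gen P u u' := by
  obtain ⟨ω, a, hω, h3⟩ := hg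
  refine ⟨ω, a, hω, ?_⟩
  rw [map_mul, ← pi_star_left P hu h, mul_assoc, ← map_mul, h3, ← map_mul, mul_smul_comm, pi_smul, map_mul,
    pi_star_left P hu' h', ← pi_smul]

lemma pi_C_inj (P : Pack (Simp n) len b bar C D) {z z' : Equiv.Perm (Fin n)} (hz : FCp z)
    (h : pi P (C z) = pi P (C z')) : z' = z := by
  have := (pi_eq P _ _).mp h z hz
  rw [ff_C P, ff_C P, if_pos rfl] at this
  by_contra h2
  rw [if_neg h2] at this
  exact one_ne_zero this

/-- left star operations commute with right star operations -/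
lemma lstar_rstar (P : Pack (Simp n) len b bar C D) {i j l m : ℕ} {z z' u u' : Equiv.Perm (Fin n)}
    (hz : FCp z) (hu : FCp u) (hu' : FCp u') (hr : RS i j z z')
    (h : RS l m z⁻¹ u⁻¹) (h' : RS l m z'⁻¹ u'⁻¹) : RS i j u u' := by
  have hi := hr.1
  have hj := hr.2.1
  have hij := hr.2.2.1
  have h1 := lstar_right P hu h hi hr.2.2.2.1
  obtain ⟨x, hx, hx'⟩ := RS.exists hi hj hij hu h1
  have e1 := pi_star_right P hx hx'
  rw [← pi_star_left P hu h, mul_assoc, pi_star_right P (hr.fc hz) hr, pi_star_left P hu' h'] at e1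
  have e2 := pi_C_inj P hu' e1
  rw [← e2]
  exact hx'

/-- connectedness by right star operations -/
def Conn (z z' : Equiv.Perm (Fin n)) : Prop := Relation.ReflTransGen RStar z z'

lemma Conn.symm' {z z' : Equiv.Perm (Fin n)} (h : Conn z z') : Conn z' z := by
  unfold Conn at *
  induction h with
  | refl => exact Relation.ReflTransGen.refl
  | tail _ h ih => exact Relation.ReflTransGen.head h.symm ih

lemma Conn.fc {z z' : Equiv.Perm (Fin n)} (h : Conn z z') (hz : FCp z) : FCp z' := by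
  unfold Conn at h
  induction h with
  | refl => exact hz
  | tail _ h ih =>
    obtain ⟨i, j, h⟩ := h
    exact h.fc ih

lemma conn_left (P : Pack (Simp n) len b bar C D) {l m : ℕ} {z z' : Equiv.Perm (Fin n)} (hz : FCp z)
    (h : Conn z z') : ∀ u u', RS l m z⁻¹ u⁻¹ → RS l m z'⁻¹ u'⁻¹ → Conn u u' := by
  unfold Conn at h
  have fcu : ∀ {x y : Equiv.Perm (Fin n)}, FCp x → RS l m x⁻¹ y⁻¹ → FCp y := by
    intro x y hx h
    have := fc_inv _ (h.fc (fc_inv x hx))
    rwa [inv_inv] at this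
  induction h with
  | refl =>
    intro u u' h1 h2
    have : u'⁻¹ = u⁻¹ := RS.uniq h1 h2
    rw [inv_injective this]
    exact Relation.ReflTransGen.refl
  | @tail x y hzx hxy ih =>
    intro u u' h1 h2
    have hx : FCp x := Conn.fc hzx hz
    obtain ⟨i, j, hxy⟩ := hxy
    have hy : FCp y := hxy.fc hx
    -- `l` is a left descent of `x`
    have hlx : vl x⁻¹ (l + 1) < vl x⁻¹ l := (RS.gen P hxy.symm hy).left P hx h2.1 h2.2.2.2.1
    obtain ⟨u1, hu1, h3⟩ := RS.exists h2.1 h2.2.1 h2.2.2.1 (fc_inv x hx) hlx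
    have h3' : RS l m x⁻¹ (u1⁻¹)⁻¹ := by rw [inv_inv]; exact h3
    have h4 := ih u u1⁻¹ h1 h3'
    have h5 := lstar_rstar P hx (fcu hx h3') (fcu hy h2) hxy h3' h2
    exact Relation.ReflTransGen.tail h4 ⟨i, j, h5⟩

end

end Pool.Agent.LibKLD42
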