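import Pool.Agent.LibKLD42.G1

set_option autoImplicit false
set_option linter.unusedSectionVars false
set_option linter.unusedSimpArgs false

namespace Pool.Agent.LibKLD42

open LaurentPolynomial

section

variable {n : ℕ} {H : Type} [Ring H] [Algebra A H]
  {b : Module.Basis (Equiv.Perm (Fin n)) A H} {bar : H →+* H} {C D : Equiv.Perm (Fin n) → H}

lemma not_red (z : Equiv.Perm (Fin n)) (h : ¬ ∃ i, i + 2 < n ∧ vl z (i + 2) < vl z i) :
    ∀ (i : ℕ) (h : i + 2 < n), z ⟨i, by omega⟩ < z ⟨i + 2, h⟩ := by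
  intro i hi
  by_contra hcon
  apply h
  refine ⟨i, hi, ?_⟩
  have h1 : vl z i ≠ vl z (i + 2) := by
    intro e
    have := vl_inj z (by omega) (by omega) e
    omega
  have h2 : ¬ (vl z i < vl z (i + 2)) := by
    intro h3
    apply hcon
    rw [vl_of z hi, vl_of z (by omega)] at h3
    exact h3
  omega

/-- two fully commutative elements generating each other are connected by right star operations -/
theorem cell_conn (P : Pack (Simp n) len b bar C D) : ∀ (N M : ℕ) (u u' : Equiv.Perm (Fin n)),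
    len u + len u' = N → len u = M → FCp u → FCp u' → Gen P u u' → Gen P u' u → Conn u u' := by
  intro N
  induction N using Nat.strong_induction_on with
  | _ N ihN =>
    intro M
    induction M using Nat.strong_induction_on with
    | _ M ihM =>
      intro u u' hN hM hu hu' hg hg'
      -- induction hypothesis in one piece
      have IH : ∀ x y : Equiv.Perm (Fin n), (len x + len y < N ∨ (len x + len y = N ∧ len x < M)) →
          FCp x → FCp y → Gen P x y → Gen P y x → Conn x y := by
        intro x y h h1 h2 h3 h4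
        rcases h with h | ⟨h, h'⟩
        · exact ihN _ h _ x y rfl rfl h1 h2 h3 h4
        · exact ihM _ h' x y h rfl h1 h2 h3 h4
      have fcl : ∀ {l m : ℕ} {x y : Equiv.Perm (Fin n)}, FCp x → RS l m x⁻¹ y⁻¹ → FCp y := by
        intro l m x y hx h
        have := fc_inv _ (h.fc (fc_inv x hx))
        rwa [inv_inv] at this
      by_cases c1 : ∃ i, i + 2 < n ∧ vl u (i + 2) < vl u i
      · -- `u` right reducible
        obtain ⟨i, hi, h1⟩ := c1
        obtain ⟨t, q, hs⟩ := rred u hu hi h1
        have hl : len (u * sim n t) + 1 = len u := (dn_iff hs.1 u).mpr hs.2.2.2.1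
        have hv := hs.fc hu
        have := IH (u * sim n t) u' (Or.inl (by omega)) hv hu'
          ((RS.gen P hs.symm hv).trans hg) (hg'.trans (RS.gen P hs hu))
        exact Relation.ReflTransGen.head ⟨t, q, hs⟩ this
      by_cases c2 : ∃ i, i + 2 < n ∧ vl u' (i + 2) < vl u' i
      · -- `u'` right reducible
        obtain ⟨i, hi, h1⟩ := c2
        obtain ⟨t, q, hs⟩ := rred u' hu' hi h1
        have hl : len (u' * sim n t) + 1 = len u' := (dn_iff hs.1 u').mpr hs.2.2.2.1
        have hv := hs.fc hu'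
        have := IH u (u' * sim n t) (Or.inl (by omega)) hu hv
          (hg.trans (RS.gen P hs hu')) ((RS.gen P hs.symm hv).trans hg')
        exact Relation.ReflTransGen.tail this ⟨q, t, hs.symm⟩
      by_cases c3 : ∃ i, i + 2 < n ∧ vl u⁻¹ (i + 2) < vl u⁻¹ i
      · -- `u` left reducible
        obtain ⟨i, hi, h1⟩ := c3
        obtain ⟨l, m, hs⟩ := rred u⁻¹ (fc_inv u hu) hi h1
        have hl : len (u⁻¹ * sim n l) + 1 = len u⁻¹ := (dn_iff hs.1 u⁻¹).mpr hs.2.2.2.1
        obtain ⟨v1, hv1⟩ : ∃ v1 : Equiv.Perm (Fin n), v1⁻¹ = u⁻¹ * sim n l := ⟨(u⁻¹ * sim n l)⁻¹, inv_inv _⟩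
        rw [← hv1] at hs hl
        rw [len_inv, len_inv] at hl
        have hfv1 := fcl hu hs
        have hlu' : vl u'⁻¹ (l + 1) < vl u'⁻¹ l := hg.left P hu' hs.1 hs.2.2.2.1
        obtain ⟨x, hx, hs'⟩ := RS.exists hs.1 hs.2.1 hs.2.2.1 (fc_inv u' hu') hlu'
        obtain ⟨v2, hv2⟩ : ∃ v2 : Equiv.Perm (Fin n), v2⁻¹ = x := ⟨x⁻¹, inv_inv x⟩
        rw [← hv2] at hs'
        have hfv2 := fcl hu' hs'
        have hl2 := hs'.len_le
        rw [len_inv, len_inv] at hl2
        have hc := IH v1 v2 (by omega) hfv1 hfv2 (hg.lstar P hfv1 hfv2 hs hs') (hg'.lstar P hfv2 hfv1 hs' hs)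
        exact conn_left P hfv1 hc u u' hs.symm hs'.symm
      by_cases c4 : ∃ i, i + 2 < n ∧ vl u'⁻¹ (i + 2) < vl u'⁻¹ i
      · -- `u'` left reducible
        obtain ⟨i, hi, h1⟩ := c4
        obtain ⟨l, m, hs⟩ := rred u'⁻¹ (fc_inv u' hu') hi h1
        have hl : len (u'⁻¹ * sim n l) + 1 = len u'⁻¹ := (dn_iff hs.1 u'⁻¹).mpr hs.2.2.2.1
        obtain ⟨v2, hv2⟩ : ∃ v2 : Equiv.Perm (Fin n), v2⁻¹ = u'⁻¹ * sim n l :=
          ⟨(u'⁻¹ * sim n l)⁻¹, inv_inv _⟩
        rw [← hv2] at hs hl
        rw [len_inv, len_inv] at hl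
        have hfv2 := fcl hu' hs
        have hlu : vl u⁻¹ (l + 1) < vl u⁻¹ l := hg'.left P hu hs.1 hs.2.2.2.1
        obtain ⟨x, hx, hs'⟩ := RS.exists hs.1 hs.2.1 hs.2.2.1 (fc_inv u hu) hlu
        obtain ⟨v1, hv1⟩ : ∃ v1 : Equiv.Perm (Fin n), v1⁻¹ = x := ⟨x⁻¹, inv_inv x⟩
        rw [← hv1] at hs'
        have hfv1 := fcl hu hs'
        have hgv := hg.lstar P hfv1 hfv2 hs' hs
        have hgv' := hg'.lstar P hfv2 hfv1 hs hs'
        have hcv : Conn v1 v2 := by
          rcases hs'.2.2.2.2.2.2.2 with e | e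
          · have hl1 : len (u⁻¹ * sim n l) + 1 = len u⁻¹ := (dn_iff hs.1 u⁻¹).mpr hlu
            rw [← e, len_inv, len_inv] at hl1
            exact IH v1 v2 (by omega) hfv1 hfv2 hgv hgv'
          · have e1 : v1 = sim n m * u := by
              rw [← inv_inv v1, e, mul_inv_rev, inv_inv, (lenData n).inv_s (mem_simp hs.2.1)]
            have hl1 := hs'.len_le
            rw [len_inv, len_inv] at hl1
            obtain ⟨k, hk, hk1⟩ := irred_star u (not_red u c1) (not_red u⁻¹ c3) hs.1 hs.2.1 hs.2.2.1 hlu (by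
              intro k hk hkm hkl
              rcases vl_or u⁻¹ hk with h2 | h2
              · exfalso
                have h3 : vl u'⁻¹ (k + 1) < vl u'⁻¹ k := hg.left P hu' hk h2
                have h4 : vl v2⁻¹ (k + 1) < vl v2⁻¹ k := by
                  have hlm := hs.2.2.1
                  rw [hv2, vl_mul _ hs.1 hk, vl_mul _ hs.1 (Nat.lt_of_succ_lt hk), if_neg (by omega),
                    if_neg (by omega), if_neg (by omega), if_neg (by omega)]
                  exact h3
                have h5 := fc_adj hs.2.1 hk hkm v2⁻¹ (fc_inv v2 hfv2) hs.2.2.2.2.2.1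
                omega
              · exact h2)
            rw [← e1] at hk1
            obtain ⟨t, q, hs1⟩ := rred v1 hfv1 hk hk1
            have hlt : len (v1 * sim n t) + 1 = len v1 := (dn_iff hs1.1 v1).mpr hs1.2.2.2.1
            have hfv3 := hs1.fc hfv1
            have hc := IH (v1 * sim n t) v2 (Or.inl (by omega)) hfv3 hfv2
              ((RS.gen P hs1.symm hfv3).trans hgv) (hgv'.trans (RS.gen P hs1 hfv1))
            exact Relation.ReflTransGen.head ⟨t, q, hs1⟩ hc
        exact conn_left P hfv1 hcv u u' hs'.symm hs.symm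
      · -- both irreducible
        have e : u = u' := by
          apply irred_eq u u' (not_red u c1) (not_red u⁻¹ c3) (not_red u' c2) (not_red u'⁻¹ c4)
          intro k hk
          exact ⟨fun h => hg.left P hu' hk h, fun h => hg'.left P hu hk h⟩
        rw [e]
        exact Relation.ReflTransGen.refl

end

end Pool.Agent.LibKLD42
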