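import Pool.Agent.LibKLD42.G2
import Pool.Agent.LibKLD42.Defs2

set_option autoImplicit false
set_option linter.unusedSectionVars false
set_option linter.unusedSimpArgs false

namespace Pool.Agent.LibKLD42

open LaurentPolynomial

section

variable {n : ℕ} {H : Type} [Ring H] [Algebra A H]
  {b : Module.Basis (Equiv.Perm (Fin n)) A H} {bar : H →+* H} {C D : Equiv.Perm (Fin n) → H}

lemma leftLe_ff (P : Pack (Simp n) len b bar C D) {x y : Equiv.Perm (Fin n)} (h : LeftLe C x y) :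
    ∃ h : H, ff b D y (h * C x) ≠ 0 := by
  obtain ⟨h, c, h1, h2⟩ := h
  refine ⟨h, ?_⟩
  rw [h1, ff_sum, Finset.sum_eq_single y]
  · rw [ff_smul, ff_C P, if_pos rfl, mul_one]
    exact h2
  · intro u _ hu
    rw [ff_smul, ff_C P, if_neg hu, mul_zero]
  · intro h; exact absurd (Finset.mem_univ y) h

lemma leftLe_fc (P : Pack (Simp n) len b bar C D) {x y : Equiv.Perm (Fin n)} (h : LeftLe C x y)
    (hy : FCp y) : FCp x := by
  by_contra hx
  obtain ⟨h, h1⟩ := leftLe_ff P h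
  exact h1 (left_ideal P x hx h y hy)

lemma leftLe_gen (P : Pack (Simp n) len b bar C D) {x y : Equiv.Perm (Fin n)} (h : LeftLe C x y)
    (hy : FCp y) : Gen (P.op (lenData n)) x⁻¹ y⁻¹ := by
  obtain ⟨h, h1⟩ := leftLe_ff P h
  apply gen_of_ff (P.op (lenData n)) x⁻¹ y⁻¹ (fc_inv y hy) (MulOpposite.op h)
  simp only [inv_inv, ← MulOpposite.op_mul]
  rw [ff_op P, inv_inv]
  exact h1

lemma chain_gen (P : Pack (Simp n) len b bar C D) {x y : Equiv.Perm (Fin n)}
    (h : Relation.ReflTransGen (LeftLe C) x y) (hy : FCp y) :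
    FCp x ∧ Gen (P.op (lenData n)) x⁻¹ y⁻¹ := by
  induction h using Relation.ReflTransGen.head_induction_on with
  | refl =>
    refine ⟨hy, [], 0, by simp, ?_⟩
    simp [cw]
  | head h _ ih =>
    exact ⟨leftLe_fc P h ih.1, (leftLe_gen P h ih.1).trans ih.2⟩

lemma conn_eq (P : Pack (Simp n) len b bar C D) {w w' : Equiv.Perm (Fin n)} (x y : Equiv.Perm (Fin n))
    (hw : FCp w⁻¹) (h : Conn w⁻¹ w'⁻¹) (hX : D w * C x = D w * C y) : D w' * C x = D w' * C y := by
  have key : ∀ z, Conn w⁻¹ z → FCp z ∧ D z⁻¹ * C x = D z⁻¹ * C y := by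
    intro z hz
    unfold Conn at hz
    induction hz with
    | refl =>
      rw [inv_inv]
      exact ⟨hw, hX⟩
    | @tail u u' _ h ih =>
      obtain ⟨h0, hX'⟩ := ih
      obtain ⟨i, j, hr⟩ := h
      have h0' := hr.fc h0
      refine ⟨h0', ?_⟩
      obtain ⟨hi, hj, hij, h1, h2, h3, h4, h5⟩ := hr
      refine fc_step P hi hj hij u⁻¹ u'⁻¹ x y ?_ ?_ ?_ ?_ ?_ ?_ ?_ hX'
      · rw [inv_inv]; exact h0
      · rw [inv_inv]; exact h0'
      · rw [inv_inv]; exact h1
      · rw [inv_inv]; exact h2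
      · rw [inv_inv]; exact h3
      · rw [inv_inv]; exact h4
      · rw [inv_inv, inv_inv]; exact h5
  have := (key w'⁻¹ h).2
  rwa [inv_inv] at this

theorem cell_main (hb : IsHecke b) (hbar : IsBar b bar) (hC : IsKL b bar C) (hD : IsDual b C D)
    (w w' x y : Equiv.Perm (Fin n)) (hw : FCp w) (hs : LeftCell C w w')
    (hX : D w * C x = D w * C y) : D w' * C x = D w' * C y := by
  have P : Pack (Simp n) len b bar C D :=
    ⟨hb.toHData, hbar.toBarData, hbar.inv_right, hC.toKLData, hD.toDualData⟩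
  obtain ⟨hw', g2⟩ := chain_gen P hs.2 hw
  obtain ⟨-, g1⟩ := chain_gen P hs.1 hw'
  have hc := cell_conn (P.op (lenData n)) _ _ w⁻¹ w'⁻¹ rfl rfl (fc_inv w hw) (fc_inv w' hw') g1 g2
  exact conn_eq P x y (fc_inv w hw) hc hX

end

end Pool.Agent.LibKLD42
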