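import Pool.Agent.LibKLD42.G3

set_option autoImplicit false
set_option linter.unusedSectionVars false
set_option linter.unusedSimpArgs false

namespace Pool.Agent.LibKLD42

open LaurentPolynomial

section

variable {n : ℕ} {H : Type} [Ring H] [Algebra A H]
  {b : Module.Basis (Equiv.Perm (Fin n)) A H} {bar : H →+* H} {C D : Equiv.Perm (Fin n) → H}

/-- the functional `X ↦ τ (u X)` for `u = ∑ c a • D a` -/
lemma phi_eq (c : Equiv.Perm (Fin n) → ℤ) (X : H) :
    tau b ((∑ a, c a • D a) * X) = ∑ a, ((c a : ℤ) : A) * ff b D a⁻¹ X := by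
  rw [Finset.sum_mul, tau_sum]
  apply Finset.sum_congr rfl
  intro a _
  unfold ff
  rw [inv_inv, ← Int.cast_smul_eq_zsmul A, smul_mul_assoc, tau_smul]

lemma phi_mon (P : Pack (Simp n) len b bar C D) (c : Equiv.Perm (Fin n) → ℤ) (hc : ∀ a, ¬ FCp a → c a = 0)
    (X : H) (k : ℕ) (z : Equiv.Perm (Fin n)) (h : pi P X = pi P ((v + vi) ^ k • C z)) :
    tau b ((∑ a, c a • D a) * X) = (v + vi) ^ k * ((c z⁻¹ : ℤ) : A) := by
  rw [phi_eq, Finset.sum_eq_single z⁻¹]
  · by_cases hz : FCp z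
    · rw [inv_inv, (pi_eq P _ _).mp h z hz, ff_smul, ff_C P, if_pos rfl, mul_one, mul_comm]
    · rw [hc z⁻¹ (fun h => hz (by have := fc_inv _ h; rwa [inv_inv] at this))]
      simp
  · intro a _ ha
    by_cases hfa : FCp a
    · rw [(pi_eq P _ _).mp h a⁻¹ (fc_inv a hfa), ff_smul, ff_C P, if_neg, mul_zero, mul_zero]
      rintro rfl
      exact ha (inv_inv a).symm
    · rw [hc a hfa]; simp
  · intro h; exact absurd (Finset.mem_univ _) h

lemma phi_zero (P : Pack (Simp n) len b bar C D) (c : Equiv.Perm (Fin n) → ℤ) (hc : ∀ a, ¬ FCp a → c a = 0)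
    (X : H) (h : pi P X = 0) : tau b ((∑ a, c a • D a) * X) = 0 := by
  rw [phi_eq]
  apply Finset.sum_eq_zero
  intro a _
  by_cases hfa : FCp a
  · rw [(pi_zero_iff P _).mp h a⁻¹ (fc_inv a hfa), mul_zero]
  · rw [hc a hfa]; simp

lemma phi_congr (P : Pack (Simp n) len b bar C D) (c : Equiv.Perm (Fin n) → ℤ) (hc : ∀ a, ¬ FCp a → c a = 0)
    (X Y : H) (h : pi P X = pi P Y) :
    tau b ((∑ a, c a • D a) * X) = tau b ((∑ a, c a • D a) * Y) := by
  rw [phi_eq, phi_eq]
  apply Finset.sum_congr rfl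
  intro a _
  by_cases hfa : FCp a
  · rw [(pi_eq P _ _).mp h a⁻¹ (fc_inv a hfa)]
  · rw [hc a hfa]; simp

/-- the part of `c` on the elements with left descent `i` -/
def plus (i : ℕ) (c : Equiv.Perm (Fin n) → ℤ) (a : Equiv.Perm (Fin n)) : ℤ :=
  if len (sim n i * a) < len a then c a else 0

lemma plus_supp (i : ℕ) (c : Equiv.Perm (Fin n) → ℤ) (hc : ∀ a, ¬ FCp a → c a = 0) :
    ∀ a, ¬ FCp a → plus i c a = 0 := by
  intro a ha
  unfold plus
  rw [hc a ha]; simp

lemma plus_inv {i : ℕ} (hi : i + 1 < n) (c : Equiv.Perm (Fin n) → ℤ) (z : Equiv.Perm (Fin n)) :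
    plus i c z⁻¹ = if vl z (i + 1) < vl z i then c z⁻¹ else 0 := by
  unfold plus
  have e : (len (sim n i * z⁻¹) < len z⁻¹) ↔ (vl z (i + 1) < vl z i) := by
    rw [len_left z⁻¹ hi, inv_inv, len_inv, ← dn_iff hi]
    rcases (lenData n).right (sim n i) (mem_simp hi) z with h | h <;> omega
  simp only [e]

lemma half_plus (P : Pack (Simp n) len b bar C D) (c : Equiv.Perm (Fin n) → ℤ)
    (hc : ∀ a, ¬ FCp a → c a = 0) {i : ℕ} (hi : i + 1 < n) (x y : Equiv.Perm (Fin n))
    (hX : ∀ h, tau b ((∑ a, c a • D a) * (C x * h)) = tau b ((∑ a, c a • D a) * (C y * h)))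
    (ω : List ℕ) (hω : ∀ i ∈ ω, i + 1 < n)
    (hne : tau b ((∑ a, plus i c a • D a) * (C x * cw C ω)) ≠ 0) :
    tau b ((∑ a, plus i c a • D a) * (C x * cw C ω)) = tau b ((∑ a, plus i c a • D a) * (C y * cw C ω)) := by
  have hc' := plus_supp i c hc
  rcases monomial P x ω hω with m1 | ⟨k, z, hz, m1⟩
  · exact absurd (phi_zero P _ hc' _ m1) hne
  have e1 := phi_mon P _ hc' _ k z m1
  rw [plus_inv hi c z] at e1
  have hzi : vl z (i + 1) < vl z i := by
    by_contra hcon
    rw [if_neg hcon] at e1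
    apply hne
    rw [e1]; simp
  rw [if_pos hzi] at e1
  have e2 := phi_mon P c hc _ k z m1
  have hcz : (v + vi) ^ k * ((c z⁻¹ : ℤ) : A) ≠ 0 := by rw [← e1]; exact hne
  have hXω := hX (cw C ω)
  rcases monomial P y ω hω with m2 | ⟨m, z', hz', m2⟩
  · exfalso
    rw [e2, phi_zero P c hc _ m2] at hXω
    exact hcz hXω
  have e3 := phi_mon P c hc _ m z' m2
  rw [e2, e3] at hXω
  rcases vl_or z' hi with h1 | h1
  · rw [e1, phi_mon P _ hc' _ m z' m2, plus_inv hi c z', if_pos h1]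
    exact hXω
  · exfalso
    have hXs := hX (cw C ω * C (sim n i))
    rw [← mul_assoc (C x), ← mul_assoc (C y)] at hXs
    -- left side
    have l1 : tau b ((∑ a, c a • D a) * (C x * cw C ω * C (sim n i))) =
        (v + vi) ^ (k + 1) * ((c z⁻¹ : ℤ) : A) := by
      apply phi_mon P c hc
      rw [pi_mul_right P m1, CC_dn P hi z hzi, smul_smul, pow_succ]
    -- right side
    obtain ⟨d, hd⟩ : ∃ d : ℤ, tau b ((∑ a, c a • D a) * (C z' * C (sim n i))) = (d : A) := by
      refine ⟨∑ a, c a * ((if z' * sim n i = a⁻¹ then 1 else 0) + mm len b C z' (sim n i) a⁻¹), ?_⟩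
      rw [phi_eq]
      push_cast
      apply Finset.sum_congr rfl
      intro a _
      rw [ff_CC_up P hi z' a⁻¹ h1]
    have r1 : tau b ((∑ a, c a • D a) * (C y * cw C ω * C (sim n i))) = (v + vi) ^ m * (d : A) := by
      rw [phi_congr P c hc _ _ (pi_mul_right P m2 _), mul_smul_comm, tau_smul, hd]
    rw [l1, r1, pow_succ] at hXs
    have e4 : (v + vi) ^ m * (((c z'⁻¹ : ℤ) : A) * (v + vi)) = (v + vi) ^ m * (d : A) := by
      rw [← hXs, ← mul_assoc, ← hXω]; ring
    have e5 := mul_left_cancel₀ (pow_vv_ne m) e4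
    have e6 := congrArg (fun f : A => f.coeff 1) e5
    rw [coeff_intCast d 1 (by norm_num), mul_comm, add_mul, AddMonoidAlgebra.coeff_add, Finsupp.add_apply,
      coeff_v_mul, coeff_vi_mul, coeff_intCast _ (1 + 1) (by norm_num), add_zero] at e6
    have e7 : ((c z'⁻¹ : ℤ) : A).coeff (1 - 1) = c z'⁻¹ := by
      rw [show ((c z'⁻¹ : ℤ) : A) = LaurentPolynomial.C (c z'⁻¹) by simp, C_apply]
      simp
    rw [e7] at e6
    rw [e6] at hXω
    apply hcz
    rw [hXω]; simp

/-- the sufficient condition of the known reduction, for combinations of fully commutative elements -/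
theorem plus_main (hb : IsHecke b) (hbar : IsBar b bar) (hC : IsKL b bar C) (hD : IsDual b C D)
    (x y : Equiv.Perm (Fin n)) (i : ℕ) (hi : i + 1 < n) (c : Equiv.Perm (Fin n) → ℤ)
    (hc : ∀ a, c a ≠ 0 → FCp a) (hX : (∑ a, c a • D a) * C x = (∑ a, c a • D a) * C y) :
    (∑ a, (if len (sim n i * a) < len a then c a else 0) • D a) * C x =
      (∑ a, (if len (sim n i * a) < len a then c a else 0) • D a) * C y := by
  have P : Pack (Simp n) len b bar C D :=
    ⟨hb.toHData, hbar.toBarData, hbar.inv_right, hC.toKLData, hD.toDualData⟩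
  have hc0 : ∀ a, ¬ FCp a → c a = 0 := fun a ha => by
    by_contra h; exact ha (hc a h)
  change (∑ a, plus i c a • D a) * C x = (∑ a, plus i c a • D a) * C y
  rw [← sub_eq_zero]
  apply words_detect P
  intro ω hω
  rw [sub_mul, tau_sub, sub_eq_zero, mul_assoc, mul_assoc]
  have h1 : ∀ h, tau b ((∑ a, c a • D a) * (C x * h)) = tau b ((∑ a, c a • D a) * (C y * h)) := by
    intro h
    rw [← mul_assoc, ← mul_assoc, hX]
  by_cases h0 : tau b ((∑ a, plus i c a • D a) * (C x * cw C ω)) = 0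
  · by_cases h0' : tau b ((∑ a, plus i c a • D a) * (C y * cw C ω)) = 0
    · rw [h0, h0']
    · exact (half_plus P c hc0 hi y x (fun h => (h1 h).symm) ω hω h0').symm
  · exact half_plus P c hc0 hi x y h1 ω hω h0

end

end Pool.Agent.LibKLD42
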