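import Mathlib

set_option autoImplicit false

namespace Pool.Agent.LibKLD42

open LaurentPolynomial

/-- The ring `ℤ[v, v⁻¹]`. -/
abbrev A : Type := LaurentPolynomial ℤ

/-- The variable `v`. -/
noncomputable def v : A := T 1

/-- The inverse `v⁻¹`. -/
noncomputable def vi : A := T (-1)

lemma coeff_v_mul (f : A) (k : ℤ) : (v * f).coeff k = f.coeff (k - 1) := by
  unfold v T
  rw [AddMonoidAlgebra.coeff_single_mul_apply, one_mul]
  congr 1; ring

lemma coeff_vi_mul (f : A) (k : ℤ) : (vi * f).coeff k = f.coeff (k + 1) := by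
  unfold vi T
  rw [AddMonoidAlgebra.coeff_single_mul_apply, one_mul]
  congr 1; ring

lemma coeff_v (k : ℤ) : v.coeff k = if k = 1 then 1 else 0 := by
  unfold v; rw [T_apply]; simp [eq_comm]

lemma coeff_vi (k : ℤ) : vi.coeff k = if k = -1 then 1 else 0 := by
  unfold vi; rw [T_apply]; simp [eq_comm]

lemma coeff_one (k : ℤ) : (1 : A).coeff k = if k = 0 then 1 else 0 := by
  rw [← T_zero, T_apply]; simp [eq_comm]

lemma v_mul_vi : v * vi = 1 := by
  unfold v vi; rw [← T_add]; simp

lemma vi_mul_v : vi * v = 1 := by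
  rw [mul_comm]; exact v_mul_vi

lemma invert_v : invert v = vi := by
  unfold v vi; simp

lemma invert_vi : invert vi = v := by
  unfold v vi; simp

lemma coeff_invert (f : A) (k : ℤ) : (invert f).coeff k = f.coeff (-k) := by
  simp

lemma vv_ne : (v + vi : A) ≠ 0 := by
  intro h
  have := congrArg (fun f : A => f.coeff 1) h
  simp [coeff_v, coeff_vi] at this

end Pool.Agent.LibKLD42
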