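import Pool.Agent.LibKLD42.H

set_option autoImplicit false
set_option linter.unusedSectionVars false

namespace Pool.Agent.LibKLD42

open LaurentPolynomial

/-- Abstract length data used in the proofs. -/
structure LenData {W : Type} [Group W] (S : Set W) (l : W → ℕ) : Prop where
  sq : ∀ s ∈ S, s * s = 1
  right : ∀ s ∈ S, ∀ x, l (x * s) = l x + 1 ∨ l (x * s) + 1 = l x
  desc : ∀ x, x ≠ 1 → ∃ s ∈ S, l (x * s) < l x
  one : l 1 = 0
  inv : ∀ x, l x⁻¹ = l x

namespace LenData

variable {W : Type} [Group W] {S : Set W} {l : W → ℕ} (L : LenData S l)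
include L

lemma inv_s {s : W} (hs : s ∈ S) : s⁻¹ = s := inv_eq_of_mul_eq_one_left (L.sq s hs)

lemma ss {s : W} (hs : s ∈ S) (x : W) : x * s * s = x := by
  rw [mul_assoc, L.sq s hs, mul_one]

lemma len_s {s : W} (hs : s ∈ S) : l s = 1 := by
  rcases L.right s hs 1 with h | h
  · rw [one_mul, L.one] at h; exact h
  · rw [L.one] at h; omega

lemma s_ne_one {s : W} (hs : s ∈ S) : s ≠ 1 := by
  intro h; have := L.len_s hs; rw [h, L.one] at this; omega

lemma left {s : W} (hs : s ∈ S) (x : W) : l (s * x) = l x + 1 ∨ l (s * x) + 1 = l x := by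
  have h1 : l (s * x) = l (x⁻¹ * s) := by
    rw [← L.inv (s * x), mul_inv_rev, L.inv_s hs]
  rw [h1, ← L.inv x]
  exact L.right s hs x⁻¹

lemma eq_s {s x u : W} (hs : s ∈ S) : x * s = u ↔ x = u * s := by
  constructor
  · rintro rfl; rw [L.ss hs]
  · rintro rfl; rw [L.ss hs]

end LenData

/-- Abstract Hecke data. -/
structure HData {W : Type} [Group W] (S : Set W) (l : W → ℕ) {H : Type} [Ring H] [Algebra A H]
    (b : Module.Basis W A H) : Prop where
  mul : ∀ x y, l (x * y) = l x + l y → b x * b y = b (x * y)
  sqb : ∀ s ∈ S, b s * b s = b 1 + (vi - v) • b s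

section

variable {W : Type} [Group W] [Fintype W] [DecidableEq W] {S : Set W} {l : W → ℕ}
  (L : LenData S l) {H : Type} [Ring H] [Algebra A H] {b : Module.Basis W A H}
  (HD : HData S l b)

include L HD in
lemma mul_b1 (h : H) : h * b 1 = h := by
  have : (LinearMap.mulRight A (b 1) : H →ₗ[A] H) = LinearMap.id := by
    apply b.ext
    intro x
    simp only [LinearMap.mulRight_apply, LinearMap.id_apply]
    rw [HD.mul x 1 (by rw [mul_one, L.one]; rfl), mul_one]
  exact congrArg (fun f => f h) this

include L HD in
lemma b_one : b 1 = 1 := by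
  have := mul_b1 L HD 1
  rwa [one_mul] at this

include L HD in
lemma bs_up {s x : W} (hs : s ∈ S) (h : l (x * s) = l x + 1) : b x * b s = b (x * s) :=
  HD.mul x s (by rw [h, L.len_s hs])

include L HD in
lemma bs_dn {s x : W} (hs : s ∈ S) (h : l (x * s) + 1 = l x) :
    b x * b s = b (x * s) + (vi - v) • b x := by
  have h1 : b (x * s) * b s = b x := by
    rw [bs_up L HD hs (by rw [L.ss hs]; omega), L.ss hs]
  calc b x * b s = b (x * s) * (b s * b s) := by rw [← mul_assoc, h1]
    _ = _ := by
      rw [HD.sqb s hs, mul_add, mul_b1 L HD, mul_smul_comm, h1]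

/-- the trace -/
noncomputable def tau (b : Module.Basis W A H) (x : H) : A := b.repr x 1

lemma tau_add (x y : H) : tau b (x + y) = tau b x + tau b y := by simp [tau]
lemma tau_sub (x y : H) : tau b (x - y) = tau b x - tau b y := by simp [tau]
lemma tau_smul (a : A) (x : H) : tau b (a • x) = a * tau b x := by simp [tau]
lemma tau_sum {ι : Type} (s : Finset ι) (f : ι → H) : tau b (∑ i ∈ s, f i) = ∑ i ∈ s, tau b (f i) := by
  simp [tau]

lemma tau_b (x : W) : tau b (b x) = if x = 1 then 1 else 0 := by
  unfold tau
  rw [b.repr_self, Finsupp.single_apply]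

include L HD in
lemma tau_bb : ∀ (N : ℕ) (x y : W), l y = N → tau b (b x * b y) = if x * y = 1 then 1 else 0 := by
  intro N
  induction N with
  | zero =>
    intro x y hy
    have : y = 1 := by
      by_contra h
      obtain ⟨s, hs, h2⟩ := L.desc y h
      omega
    subst this
    rw [mul_b1 L HD, tau_b, mul_one]
  | succ N ih =>
    intro x y hy
    have hy1 : y⁻¹ ≠ 1 := by
      intro h
      rw [inv_eq_one] at h
      rw [h, L.one] at hy; omega
    obtain ⟨s, hs, h2⟩ := L.desc y⁻¹ hy1
    have h3 : l (s * y) < l y := by
      have e1 : l (s * y) = l (y⁻¹ * s) := by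
        rw [← L.inv (s * y), mul_inv_rev, L.inv_s hs]
      rw [e1]; rwa [L.inv y] at h2
    obtain ⟨y', rfl⟩ : ∃ y', y = s * y' := ⟨s * y, by rw [← mul_assoc, L.sq s hs, one_mul]⟩
    rw [← mul_assoc, L.sq s hs, one_mul] at h3
    have h4 : l (s * y') = l y' + 1 := by
      rcases L.left hs y' with h | h <;> omega
    have h5 : b (s * y') = b s * b y' := (HD.mul s y' (by rw [h4, L.len_s hs]; omega)).symm
    rw [h5, ← mul_assoc]
    rcases L.right s hs x with h | h
    · rw [bs_up L HD hs h, ih (x * s) y' (by omega), mul_assoc]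
    · rw [bs_dn L HD hs h, add_mul, smul_mul_assoc, tau_add, tau_smul, ih (x * s) y' (by omega),
        ih x y' (by omega), mul_assoc]
      have : ¬ (x * y' = 1) := by
        intro h6
        have h7 : x = y'⁻¹ := eq_inv_of_mul_eq_one_left h6
        have h8 : l (x * s) = l (s * y') := by
          rw [h7, ← L.inv (s * y'), mul_inv_rev, L.inv_s hs]
        have h9 : l x = l y' := by rw [h7, L.inv]
        omega
      simp [this]

include L HD in
lemma tau_comm (x y : H) : tau b (x * y) = tau b (y * x) := by
  have key : ∀ u w : W, tau b (b u * b w) = tau b (b w * b u) := by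
    intro u w
    rw [tau_bb L HD _ u w rfl, tau_bb L HD _ w u rfl]
    by_cases h : u * w = 1
    · have : w * u = 1 := by
        rw [← mul_left_inj u⁻¹]; simp [eq_inv_of_mul_eq_one_left h]
      simp [h, this]
    · have : ¬ (w * u = 1) := by
        intro h2; apply h
        rw [← mul_left_inj w⁻¹]; simp [eq_inv_of_mul_eq_one_left h2]
      simp [h, this]
  have k2 : ∀ (u : W) (y : H), tau b (b u * y) = tau b (y * b u) := by
    intro u y
    have e : (b.coord 1) ∘ₗ (LinearMap.mulLeft A (b u)) = (b.coord 1) ∘ₗ (LinearMap.mulRight A (b u)) := by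
      apply b.ext
      intro w
      simp only [LinearMap.comp_apply, LinearMap.mulLeft_apply, LinearMap.mulRight_apply,
        Module.Basis.coord_apply]
      exact key u w
    have := congrArg (fun f => f y) e
    simp only [LinearMap.comp_apply, LinearMap.mulLeft_apply, LinearMap.mulRight_apply,
        Module.Basis.coord_apply] at this
    exact this
  have e : (b.coord 1) ∘ₗ (LinearMap.mulRight A y) = (b.coord 1) ∘ₗ (LinearMap.mulLeft A y) := by
    apply b.ext
    intro w
    simp only [LinearMap.comp_apply, LinearMap.mulLeft_apply, LinearMap.mulRight_apply,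
      Module.Basis.coord_apply]
    exact k2 w y
  have := congrArg (fun f => f x) e
  simp only [LinearMap.comp_apply, LinearMap.mulLeft_apply, LinearMap.mulRight_apply,
      Module.Basis.coord_apply] at this
  exact this

include L HD in
lemma repr_eq_tau (Y : H) (z : W) : b.repr Y z = tau b (Y * b z⁻¹) := by
  have e : b.coord z = (b.coord 1) ∘ₗ (LinearMap.mulRight A (b z⁻¹)) := by
    apply b.ext
    intro w
    simp only [LinearMap.comp_apply, LinearMap.mulRight_apply, Module.Basis.coord_apply]
    have := tau_bb L HD _ w z⁻¹ rfl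
    unfold tau at this
    rw [this, b.repr_self, Finsupp.single_apply]
    by_cases h : w = z
    · simp [h]
    · have : ¬ (w * z⁻¹ = 1) := by
        intro h2; apply h; exact mul_inv_eq_one.mp h2
      simp [h, this]
  have := congrArg (fun f => f Y) e
  simp only [LinearMap.comp_apply, LinearMap.mulRight_apply,
      Module.Basis.coord_apply] at this
  exact this

include L HD in
lemma nondeg (Y : H) (h : ∀ u, tau b (Y * b u) = 0) : Y = 0 := by
  apply b.repr.injective
  ext z
  rw [repr_eq_tau L HD, h, map_zero, Finsupp.zero_apply]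

include L HD in
/-- coefficients of a product with `b s`. -/
lemma repr_mul_bs {s : W} (hs : s ∈ S) (h : H) (z : W) :
    b.repr (h * b s) z = b.repr h (z * s) + (if l (z * s) < l z then (vi - v) * b.repr h z else 0) := by
  let F : H →ₗ[A] A := b.coord (z * s) + (if l (z * s) < l z then (vi - v) • b.coord z else 0)
  have e : (b.coord z) ∘ₗ (LinearMap.mulRight A (b s)) = F := by
    apply b.ext
    intro x
    have hF : F (b x) = (if x = z * s then 1 else 0) +
        (if l (z * s) < l z then (vi - v) * (if x = z then 1 else 0) else 0) := by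
      simp only [F]
      split_ifs <;> simp_all [Finsupp.single_apply]
    rw [hF]
    simp only [LinearMap.comp_apply, LinearMap.mulRight_apply, Module.Basis.coord_apply]
    rcases L.right s hs x with h1 | h1
    · rw [bs_up L HD hs h1, b.repr_self, Finsupp.single_apply]
      by_cases h2 : x = z * s
      · have h3 : x * s = z := by rw [h2, L.ss hs]
        have h4 : ¬ (x = z) := by
          intro h5; rw [h5] at h3; rw [h5, h3] at h1; omega
        rw [if_pos h3, if_pos h2, if_neg h4, mul_zero, ite_self, add_zero]
      · have h3 : ¬ (x * s = z) := by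
          intro h5; apply h2; rw [← h5, L.ss hs]
        simp only [h3, h2, if_false, zero_add]
        by_cases h4 : x = z
        · subst h4
          have : ¬ (l (x * s) < l x) := by omega
          simp [this]
        · simp [h4]
    · rw [bs_dn L HD hs h1, map_add, map_smul, Finsupp.add_apply, Finsupp.smul_apply, b.repr_self,
        b.repr_self, Finsupp.single_apply, Finsupp.single_apply]
      have h2 : (x * s = z) ↔ (x = z * s) := L.eq_s hs
      by_cases h4 : x = z
      · subst h4
        have h5 : l (x * s) < l x := by omega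
        simp [h5, h2]
      · simp [h4, h2]
  have := congrArg (fun f => f h) e
  simp only [LinearMap.comp_apply, LinearMap.mulRight_apply, Module.Basis.coord_apply] at this
  rw [this]
  simp only [F]
  split_ifs <;> simp

end

end Pool.Agent.LibKLD42
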