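import Pool.Agent.LibKLD42.H2

set_option autoImplicit false
set_option linter.unusedSectionVars false

namespace Pool.Agent.LibKLD42

open LaurentPolynomial

/-- Abstract bar involution. -/
structure BarData {W : Type} [Group W] {H : Type} [Ring H] [Algebra A H]
    (b : Module.Basis W A H) (bar : H →+* H) : Prop where
  semi : ∀ (a : A) (x : H), bar (a • x) = (invert a) • bar x
  inv : ∀ w, bar (b w) * b w⁻¹ = 1

/-- Abstract Kazhdan-Lusztig basis (weak form). -/
structure KLData {W : Type} (l : W → ℕ) {H : Type} [Ring H] [Algebra A H]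
    (b : Module.Basis W A H) (bar : H →+* H) (C : W → H) : Prop where
  bar : ∀ w, bar (C w) = C w
  self : ∀ w, b.repr (C w) w = 1
  tri : ∀ w y, b.repr (C w) y ≠ 0 → y = w ∨ l y < l w
  pos : ∀ w y, y ≠ w → ∀ k : ℤ, k ≤ 0 → (b.repr (C w) y).coeff k = 0

section

variable {W : Type} [Group W] [Fintype W] [DecidableEq W] {S : Set W} {l : W → ℕ}
  (L : LenData S l) {H : Type} [Ring H] [Algebra A H] {b : Module.Basis W A H}
  (HD : HData S l b) {bar : H →+* H} (BD : BarData b bar) {C : W → H}
  (KL : KLData l b bar C)

/-- all coefficients in length at least `k` vanish -/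
def Low (l : W → ℕ) (b : Module.Basis W A H) (k : ℕ) (h : H) : Prop := ∀ z, k ≤ l z → b.repr h z = 0

include L HD in
lemma low_mul {s : W} (hs : s ∈ S) {k : ℕ} {h : H} (hh : Low l b k h) : Low l b (k + 1) (h * b s) := by
  intro z hz
  rw [repr_mul_bs L HD hs, hh z (by omega), hh (z * s) (by rcases L.right s hs z with h1 | h1 <;> omega)]
  simp

include L HD BD in
lemma bar_bs {s : W} (hs : s ∈ S) : bar (b s) = b s + (v - vi) • (1 : H) := by
  have h1 : b s * (b s + (v - vi) • (1 : H)) = 1 := by
    rw [mul_add, HD.sqb s hs, mul_smul_comm, mul_one, b_one L HD, add_assoc, ← add_smul]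
    simp
  have h2 := BD.inv s
  rw [L.inv_s hs] at h2
  calc bar (b s) = bar (b s) * (b s * (b s + (v - vi) • (1 : H))) := by rw [h1, mul_one]
    _ = _ := by rw [← mul_assoc, h2, one_mul]

include L HD BD in
lemma bar_tri : ∀ (N : ℕ) (w : W), l w = N → Low l b (l w) (bar (b w) - b w) := by
  intro N
  induction N with
  | zero =>
    intro w hw
    have h1 : w = 1 := by
      by_contra h
      obtain ⟨s, hs, h2⟩ := L.desc w h
      omega
    subst h1
    intro z _
    rw [b_one L HD, map_one, sub_self, map_zero, Finsupp.zero_apply]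
  | succ N ih =>
    intro w hw
    have h1 : w ≠ 1 := by
      intro h; rw [h, L.one] at hw; omega
    obtain ⟨s, hs, h2⟩ := L.desc w h1
    obtain ⟨w', rfl⟩ : ∃ w', w = w' * s := ⟨w * s, (L.ss hs w).symm⟩
    rw [L.ss hs] at h2
    have h3 : l (w' * s) = l w' + 1 := by
      rcases L.right s hs w' with h | h <;> omega
    have h4 : b (w' * s) = b w' * b s := (bs_up L HD hs h3).symm
    have h5 := ih w' (by omega)
    set r := bar (b w') - b w' with hr
    have h6 : bar (b w') = b w' + r := by rw [hr]; abel
    have h7 : bar (b (w' * s)) - b (w' * s) = r * b s + ((v - vi) • b w' + (v - vi) • r) := by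
      rw [h4, map_mul, bar_bs L HD BD hs, h6, add_mul, mul_add, mul_add, mul_smul_comm,
        mul_smul_comm, mul_one, mul_one]
      abel
    intro z hz
    rw [h7, map_add, Finsupp.add_apply, low_mul L HD hs h5 z (by omega), map_add, map_smul, map_smul,
      Finsupp.add_apply, Finsupp.smul_apply, Finsupp.smul_apply, h5 z (by omega), b.repr_self,
      Finsupp.single_apply]
    have : ¬ (w' = z) := by
      rintro rfl; omega
    simp [this]

include L HD BD in
lemma uniq (h : H) (hb : bar h = h) (hc : ∀ z, ∀ k : ℤ, k ≤ 0 → (b.repr h z).coeff k = 0) : h = 0 := by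
  by_contra hne
  have hex : (Finset.univ.filter (fun z => b.repr h z ≠ 0)).Nonempty := by
    by_contra h0
    rw [Finset.not_nonempty_iff_eq_empty] at h0
    apply hne
    apply b.repr.injective
    ext z
    have : z ∉ Finset.univ.filter (fun z => b.repr h z ≠ 0) := by rw [h0]; simp
    simp only [Finset.mem_filter, Finset.mem_univ, true_and, not_not] at this
    rw [this, map_zero, Finsupp.zero_apply]
  obtain ⟨z, hz, hmax⟩ := Finset.exists_max_image _ l hex
  simp only [Finset.mem_filter, Finset.mem_univ, true_and] at hz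
  have h1 : b.repr h z = invert (b.repr h z) := by
    have e1 : bar h = ∑ u, (invert (b.repr h u)) • bar (b u) := by
      conv_lhs => rw [← b.sum_repr h, map_sum]
      apply Finset.sum_congr rfl
      intro u _
      exact BD.semi _ _
    have e2 : b.repr (bar h) z = ∑ u, (invert (b.repr h u)) * b.repr (bar (b u)) z := by
      rw [e1, map_sum, Finsupp.finsetSum_apply]
      apply Finset.sum_congr rfl
      intro u _
      rw [map_smul, Finsupp.smul_apply, smul_eq_mul]
    rw [hb] at e2
    conv_lhs => rw [e2]
    rw [Finset.sum_eq_single z]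
    · have e3 : b.repr (bar (b z)) z = 1 := by
        have := bar_tri L HD BD _ z rfl z le_rfl
        rw [map_sub, Finsupp.sub_apply, sub_eq_zero, b.repr_self, Finsupp.single_eq_same] at this
        exact this
      rw [e3, mul_one]
    · intro u _ hu
      by_cases h0 : b.repr h u = 0
      · rw [h0]; simp
      · have hle : l u ≤ l z := hmax u (by simp [h0])
        have := bar_tri L HD BD _ u rfl z hle
        rw [map_sub, Finsupp.sub_apply, sub_eq_zero, b.repr_self, Finsupp.single_eq_of_ne (Ne.symm hu)] at this
        rw [this, mul_zero]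
    · intro h; exact absurd (Finset.mem_univ z) h
  apply hz
  ext k
  rcases le_or_gt k 0 with hk | hk
  · rw [hc z k hk]; simp
  · rw [h1, invert_apply, hc z (-k) (by omega)]; simp

include L HD KL in
lemma C_one : C 1 = 1 := by
  rw [← b_one L HD]
  apply b.repr.injective
  ext z
  rw [b.repr_self, Finsupp.single_apply]
  by_cases h : z = 1
  · subst h
    rw [KL.self]; simp
  · have : b.repr (C 1) z = 0 := by
      by_contra h0
      rcases KL.tri 1 z h0 with h1 | h1
      · exact h h1
      · rw [L.one] at h1; omega
    rw [this]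
    simp [Ne.symm h]

include L HD BD KL in
lemma C_s {s : W} (hs : s ∈ S) : C s = b s + v • (1 : H) := by
  rw [← sub_eq_zero]
  apply uniq L HD BD
  · rw [map_sub, KL.bar, map_add, bar_bs L HD BD hs, BD.semi, map_one, invert_v, sub_smul]
    abel
  · intro z k hk
    rw [map_sub, map_add, map_smul, ← b_one L HD, Finsupp.sub_apply, Finsupp.add_apply,
      Finsupp.smul_apply, b.repr_self, b.repr_self, Finsupp.single_apply, Finsupp.single_apply, smul_eq_mul]
    have hs1 := L.s_ne_one hs
    by_cases h1 : z = s
    · subst h1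
      rw [KL.self]
      simp [Ne.symm hs1]
    · by_cases h2 : z = 1
      · subst h2
        have := KL.pos s 1 (Ne.symm hs1) k hk
        simp only [AddMonoidAlgebra.coeff_sub, AddMonoidAlgebra.coeff_add, Finsupp.sub_apply,
          Finsupp.add_apply, this]
        have hk1 : k ≠ 1 := by omega
        simp [hs1, coeff_v, hk1]
      · have := KL.pos s z h1 k hk
        simp only [AddMonoidAlgebra.coeff_sub, AddMonoidAlgebra.coeff_add, Finsupp.sub_apply,
          Finsupp.add_apply, this]
        simp [Ne.symm h1, Ne.symm h2]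

/-- mu -/
noncomputable def mu (b : Module.Basis W A H) (C : W → H) (y u : W) : ℤ := (b.repr (C u) y).coeff 1

include KL in
lemma hh (u z : W) (k : ℤ) (hk : k ≤ 0) :
    (b.repr (C u) z).coeff k = if z = u ∧ k = 0 then 1 else 0 := by
  by_cases h : z = u
  · subst h
    rw [KL.self, coeff_one]
    simp
  · rw [KL.pos u z h k hk]
    simp [h]

end

end Pool.Agent.LibKLD42
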