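import Pool.Agent.LibKLD42.H3

set_option autoImplicit false
set_option linter.unusedSectionVars false

namespace Pool.Agent.LibKLD42

open LaurentPolynomial

section

variable {W : Type} [Group W] [Fintype W] [DecidableEq W] {S : Set W} {l : W → ℕ}
  (L : LenData S l) {H : Type} [Ring H] [Algebra A H] {b : Module.Basis W A H}
  (HD : HData S l b) {bar : H →+* H} (BD : BarData b bar) {C : W → H}
  (KL : KLData l b bar C)

/-- the multiplicity of `C y` in `C u * C s` for `u s > u`, apart from `C (u s)` -/
noncomputable def mm (l : W → ℕ) (b : Module.Basis W A H) (C : W → H) (u s y : W) : ℤ :=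
  if l (y * s) < l y then mu b C y u else 0

include L HD BD KL in
lemma CCs_up {s u : W} (hs : s ∈ S) (hu : l (u * s) = l u + 1) :
    C u * C s = C (u * s) + ∑ y, (mm l b C u s y) • C y := by
  rw [← sub_eq_zero]
  apply uniq L HD BD
  · rw [map_sub, map_mul, KL.bar, KL.bar, map_add, KL.bar, map_sum]
    congr 2
    apply Finset.sum_congr rfl
    intro y _
    rw [map_zsmul, KL.bar]
  · intro z k hk
    have e1 : b.repr (C u * C s) z = b.repr (C u) (z * s) +
        (if l (z * s) < l z then vi * b.repr (C u) z else v * b.repr (C u) z) := by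
      rw [C_s L HD BD KL hs, mul_add, mul_smul_comm, mul_one, map_add, map_smul, Finsupp.add_apply,
        Finsupp.smul_apply, repr_mul_bs L HD hs, smul_eq_mul]
      split_ifs <;> ring
    have e2 : (b.repr (∑ y, (mm l b C u s y) • C y) z).coeff k =
        ∑ y, (mm l b C u s y) * (b.repr (C y) z).coeff k := by
      rw [map_sum, Finsupp.finsetSum_apply]
      have : ∀ t : Finset W, (∑ y ∈ t, (b.repr ((mm l b C u s y) • C y)) z).coeff k =
          ∑ y ∈ t, (mm l b C u s y) * (b.repr (C y) z).coeff k := by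
        intro t
        induction t using Finset.induction_on with
        | empty => simp
        | insert a t ha ih =>
          rw [Finset.sum_insert ha, Finset.sum_insert ha, AddMonoidAlgebra.coeff_add, Finsupp.add_apply, ih,
            map_zsmul]
          congr 1
      exact this Finset.univ
    have e3 : ∑ y, (mm l b C u s y) * (b.repr (C y) z).coeff k = if k = 0 then mm l b C u s z else 0 := by
      rw [Finset.sum_eq_single z]
      · rw [hh KL z z k hk]; simp
      · intro y _ hy
        rw [hh KL y z k hk]; simp [Ne.symm hy]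
      · intro h; exact absurd (Finset.mem_univ z) h
    rw [map_sub, map_add, Finsupp.sub_apply, Finsupp.add_apply, AddMonoidAlgebra.coeff_sub,
      AddMonoidAlgebra.coeff_add, Finsupp.sub_apply, Finsupp.add_apply, e2, e3, e1,
      AddMonoidAlgebra.coeff_add, Finsupp.add_apply, hh KL u (z * s) k hk, hh KL (u * s) z k hk]
    have hzs : (z * s = u) ↔ (z = u * s) := L.eq_s hs
    simp only [hzs]
    unfold mm
    by_cases h1 : l (z * s) < l z
    · rw [if_pos h1, if_pos h1, coeff_vi_mul]
      have hzu : z ≠ u := by rintro rfl; omega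
      rcases eq_or_lt_of_le hk with h2 | h2
      · subst h2
        simp [mu]
      · rw [hh KL u z (k + 1) (by omega)]
        have hk0 : k ≠ 0 := by omega
        simp [hzu, hk0]
    · rw [if_neg h1, if_neg h1, coeff_v_mul, hh KL u z (k - 1) (by omega)]
      have hk0 : k - 1 ≠ 0 := by omega
      simp [hk0]

include L HD BD KL in
lemma CsCs {s : W} (hs : s ∈ S) : C s * C s = (v + vi) • C s := by
  rw [C_s L HD BD KL hs, mul_add, add_mul, HD.sqb s hs, b_one L HD]
  simp only [smul_mul_assoc, one_mul, mul_smul_comm, mul_one, smul_add, smul_smul]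
  have : (v + vi) * v = v * v + 1 := by rw [add_mul, vi_mul_v]
  rw [this]
  module

include L HD BD KL in
lemma CCs_dn : ∀ (N : ℕ) (u s : W), l u = N → s ∈ S → l (u * s) + 1 = l u →
    C u * C s = (v + vi) • C u := by
  intro N
  induction N using Nat.strong_induction_on with
  | _ N ih =>
    intro u s hN hs hu
    obtain ⟨u', rfl⟩ : ∃ u', u = u' * s := ⟨u * s, (L.ss hs u).symm⟩
    rw [L.ss hs] at hu
    have h1 := CCs_up L HD BD KL (u := u') hs (by omega)
    have h2 : C (u' * s) = C u' * C s - ∑ y, (mm l b C u' s y) • C y := by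
      rw [h1]; abel
    have h3 : (∑ y, (mm l b C u' s y) • C y) * C s = (v + vi) • (∑ y, (mm l b C u' s y) • C y) := by
      rw [Finset.sum_mul, Finset.smul_sum]
      apply Finset.sum_congr rfl
      intro y _
      rw [smul_mul_assoc, smul_comm]
      by_cases hy : mm l b C u' s y = 0
      · rw [hy]; simp
      · have h4 : l (y * s) < l y := by
          unfold mm at hy
          by_contra h; rw [if_neg h] at hy; exact hy rfl
        have h5 : b.repr (C u') y ≠ 0 := by
          intro h
          apply hy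
          unfold mm mu
          rw [h]; simp
        have h6 : l y < N := by
          rcases KL.tri u' y h5 with h7 | h7
          · subst h7; omega
          · omega
        rw [ih (l y) h6 y s rfl hs (by rcases L.right s hs y with h | h <;> omega)]
    calc C (u' * s) * C s = C u' * (C s * C s) - (∑ y, (mm l b C u' s y) • C y) * C s := by
          rw [h2, sub_mul, mul_assoc]
      _ = (v + vi) • C (u' * s) := by
          rw [CsCs L HD BD KL hs, h3, mul_smul_comm, ← smul_sub, ← h2]

include L HD BD KL in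
lemma mu_rel {s u z : W} (hs : s ∈ S) (hu : l (u * s) + 1 = l u) (hz : l (z * s) = l z + 1) :
    mu b C z u = if z * s = u then 1 else 0 := by
  have h1 : b.repr (C u * C s) z = b.repr ((v + vi) • C u) z := by
    rw [CCs_dn L HD BD KL _ u s rfl hs hu]
  rw [C_s L HD BD KL hs, mul_add, mul_smul_comm, mul_one, map_add, map_smul, Finsupp.add_apply,
        Finsupp.smul_apply, repr_mul_bs L HD hs, smul_eq_mul, map_smul, Finsupp.smul_apply, smul_eq_mul,
        if_neg (by omega)] at h1
  have h2 : b.repr (C u) (z * s) = vi * b.repr (C u) z := by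
    have : (v + vi) * b.repr (C u) z = vi * b.repr (C u) z + v * b.repr (C u) z := by ring
    rw [this] at h1
    rw [add_zero] at h1
    exact add_right_cancel h1
  have h3 : b.repr (C u) z = v * b.repr (C u) (z * s) := by
    rw [h2, ← mul_assoc, v_mul_vi, one_mul]
  unfold mu
  rw [h3, coeff_v_mul, hh KL u (z * s) (1 - 1) (by omega)]
  simp

/-- abstract dual basis -/
def DualData (b : Module.Basis W A H) (C D : W → H) : Prop :=
  ∀ w u, tau b (D w * C u) = if u = w⁻¹ then 1 else 0

variable {D : W → H} (DD : DualData b C D)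

include L HD KL in
lemma nondegC (Y : H) (h : ∀ u, tau b (Y * C u) = 0) : Y = 0 := by
  apply nondeg L HD
  have key : ∀ (N : ℕ) (u : W), l u = N → tau b (Y * b u) = 0 := by
    intro N
    induction N using Nat.strong_induction_on with
    | _ N ih =>
      intro u hu
      have h1 := h u
      rw [← b.sum_repr (C u), Finset.mul_sum, tau_sum, Finset.sum_eq_single u] at h1
      · rw [mul_smul_comm, tau_smul, KL.self, one_mul] at h1
        exact h1
      · intro y _ hy
        rw [mul_smul_comm, tau_smul]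
        by_cases h0 : b.repr (C u) y = 0
        · rw [h0, zero_mul]
        · rcases KL.tri u y h0 with h2 | h2
          · exact absurd h2 hy
          · rw [ih (l y) (by omega) y rfl, mul_zero]
      · intro h; exact absurd (Finset.mem_univ u) h
  exact fun u => key _ u rfl

/-- `tau (D w * (C u * C s))` -/
lemma tau_mm (s u w : W) (DD : DualData b C D) :
    tau b (D w * (∑ y, (mm l b C u s y) • C y)) = ((mm l b C u s w⁻¹ : ℤ) : A) := by
  rw [Finset.mul_sum, tau_sum, Finset.sum_eq_single w⁻¹]
  · rw [mul_smul_comm]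
    have : (mm l b C u s w⁻¹ : ℤ) • (D w * C w⁻¹) = ((mm l b C u s w⁻¹ : ℤ) : A) • (D w * C w⁻¹) := by
      rw [Int.cast_smul_eq_zsmul]
    rw [this, tau_smul, DD w w⁻¹, if_pos rfl, mul_one]
  · intro y _ hy
    rw [mul_smul_comm]
    have : (mm l b C u s y : ℤ) • (D w * C y) = ((mm l b C u s y : ℤ) : A) • (D w * C y) := by
      rw [Int.cast_smul_eq_zsmul]
    rw [this, tau_smul, DD w y, if_neg hy, mul_zero]
  · intro h; exact absurd (Finset.mem_univ _) h

include L HD BD KL DD in
lemma F_up {s u : W} (w : W) (hs : s ∈ S) (hu : l (u * s) = l u + 1) :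
    tau b (D w * (C u * C s)) = (if u * s = w⁻¹ then 1 else 0) + ((mm l b C u s w⁻¹ : ℤ) : A) := by
  rw [CCs_up L HD BD KL hs hu, mul_add, tau_add, DD, tau_mm s u w DD]

include L HD BD KL DD in
lemma F_dn {s u : W} (w : W) (hs : s ∈ S) (hu : l (u * s) + 1 = l u) :
    tau b (D w * (C u * C s)) = (v + vi) * (if u = w⁻¹ then 1 else 0) := by
  rw [CCs_dn L HD BD KL _ u s rfl hs hu, mul_smul_comm, tau_smul, DD]

include L HD in
lemma tau_rot (s : W) (Y Z : H) : tau b (C s * Y * Z) = tau b (Y * (Z * C s)) := by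
  rw [mul_assoc, tau_comm L HD, mul_assoc]

include L HD BD KL DD in
/-- `C s` kills `D w` unless `s` is a left descent of `w`. -/
lemma kill {s w : W} (hs : s ∈ S) (hw : l (w⁻¹ * s) = l w⁻¹ + 1) : C s * D w = 0 := by
  apply nondegC L HD KL
  intro u
  rw [tau_rot L HD]
  rcases L.right s hs u with h | h
  · rw [F_up L HD BD KL DD w hs h]
    have h1 : ¬ (u * s = w⁻¹) := by
      intro h1
      have h2 : w⁻¹ * s = u := by rw [← h1, L.ss hs]
      rw [h2] at hw; rw [h1] at h; omega
    have h2 : mm l b C u s w⁻¹ = 0 := by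
      unfold mm; rw [if_neg (by omega)]
    simp [h1, h2]
  · rw [F_dn L HD BD KL DD w hs h]
    have h1 : ¬ (u = w⁻¹) := by
      rintro rfl; omega
    simp [h1]

include L HD BD KL DD in
/-- the star operation on the dual basis -/
lemma star {s t w w' : W} (hs : s ∈ S) (ht : t ∈ S)
    (hgt : l (w⁻¹ * t) = l w⁻¹ + 1)
    (hw's : l (w'⁻¹ * s) = l w'⁻¹ + 1)
    (hgs : l (w⁻¹ * s) + 1 = l w⁻¹)
    (huniq : ∀ u, l (u * s) = l u + 1 → l (u * t) + 1 = l u → (u = w⁻¹ * s ∨ u = w⁻¹ * t) → u = w'⁻¹)
    (hw' : w'⁻¹ = w⁻¹ * s ∨ w'⁻¹ = w⁻¹ * t) (hst : s ≠ t) :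
    C t * (C s * D w) = C t * D w' := by
  -- e(u) = 0 for all u with u t < u
  have key : ∀ u, l (u * t) + 1 = l u → tau b ((C s * D w - D w') * C u) = 0 := by
    intro u hut
    rw [sub_mul, tau_sub, tau_rot L HD, DD]
    rcases L.right s hs u with h | h
    · rw [F_up L HD BD KL DD w hs h]
      have h1 : mm l b C u s w⁻¹ = if w⁻¹ * t = u then 1 else 0 := by
        unfold mm
        rw [if_pos (by omega)]
        exact mu_rel L HD BD KL ht hut hgt
      rw [h1]
      have h2 : (u * s = w⁻¹) ↔ (u = w⁻¹ * s) := L.eq_s hs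
      by_cases h3 : u = w'⁻¹
      · rcases hw' with h4 | h4
        · have h5 : ¬ (w⁻¹ * t = u) := by
            intro h5
            rw [h3, h4] at h5
            exact hst (mul_left_cancel h5).symm
          rw [if_pos (h2.mpr (h3.trans h4)), if_neg h5, if_pos h3]; simp
        · have h5 : ¬ (u * s = w⁻¹) := by
            rw [h2, h3, h4]
            intro h5
            exact hst (mul_left_cancel h5).symm
          rw [if_neg h5, if_pos (by rw [h3, h4]), if_pos h3]; simp
      · have h4 : ¬ (u = w⁻¹ * s) := fun h5 => h3 (huniq u h hut (Or.inl h5))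
        have h5 : ¬ (w⁻¹ * t = u) := fun h5 => h3 (huniq u h hut (Or.inr h5.symm))
        rw [if_neg (fun h6 => h4 (h2.mp h6)), if_neg h5, if_neg h3]; simp
    · rw [F_dn L HD BD KL DD w hs h]
      have h1 : ¬ (u = w⁻¹) := by rintro rfl; omega
      have h2 : ¬ (u = w'⁻¹) := by rintro rfl; omega
      simp [h1, h2]
  have h0 : C t * (C s * D w - D w') = 0 := by
    apply nondegC L HD KL
    intro u
    rw [tau_rot L HD]
    rcases L.right t ht u with h | h
    · rw [CCs_up L HD BD KL ht h, mul_add, tau_add, key (u * t) (by rw [L.ss ht]; omega), zero_add,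
        Finset.mul_sum, tau_sum]
      apply Finset.sum_eq_zero
      intro y _
      have e : (mm l b C u t y : ℤ) • C y = ((mm l b C u t y : ℤ) : A) • C y := by
        rw [Int.cast_smul_eq_zsmul]
      rw [e, mul_smul_comm, tau_smul]
      by_cases hy : l (y * t) < l y
      · rw [key y (by rcases L.right t ht y with h | h <;> omega), mul_zero]
      · have : mm l b C u t y = 0 := by unfold mm; rw [if_neg hy]
        rw [this]; simp
    · rw [CCs_dn L HD BD KL _ u t rfl ht h, mul_smul_comm, tau_smul, key u h, mul_zero]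
  rw [mul_sub, sub_eq_zero] at h0
  exact h0

include L HD BD KL DD in
/-- one step of the argument -/
lemma step {s t w w' x y : W} (hs : s ∈ S) (ht : t ∈ S)
    (hgt : l (w⁻¹ * t) = l w⁻¹ + 1)
    (hw's : l (w'⁻¹ * s) = l w'⁻¹ + 1)
    (hgs : l (w⁻¹ * s) + 1 = l w⁻¹)
    (huniq : ∀ u, l (u * s) = l u + 1 → l (u * t) + 1 = l u → (u = w⁻¹ * s ∨ u = w⁻¹ * t) → u = w'⁻¹)
    (hw' : w'⁻¹ = w⁻¹ * s ∨ w'⁻¹ = w⁻¹ * t) (hst : s ≠ t)
    (hw't : l (w'⁻¹ * t) + 1 = l w'⁻¹)
    (honly : ∀ r ∈ S, r ≠ t → l (w'⁻¹ * r) = l w'⁻¹ + 1)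
    (hX : D w * C x = D w * C y) : D w' * C x = D w' * C y := by
  by_cases hxy : x = y
  · rw [hxy]
  have hX0 : D w * (C x - C y) = 0 := by rw [mul_sub, hX, sub_self]
  set Y : H := D w' * (C x - C y) with hY
  have hkill : ∀ r ∈ S, C r * Y = 0 := by
    intro r hr
    by_cases h : r = t
    · subst h
      rw [hY, ← mul_assoc, ← star L HD BD KL DD hs ht hgt hw's hgs huniq hw' hst, mul_assoc,
        mul_assoc, hX0, mul_zero, mul_zero]
    · rw [hY, ← mul_assoc, kill L HD BD KL DD hr (honly r hr h), zero_mul]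
  have hu : ∀ u, u ≠ 1 → tau b (Y * C u) = 0 := by
    intro u hu1
    obtain ⟨r, hr, h1⟩ := L.desc u hu1
    have h2 : tau b (Y * (C u * C r)) = 0 := by
      rw [← tau_rot L HD, hkill r hr, zero_mul]; simp [tau]
    rw [CCs_dn L HD BD KL _ u r rfl hr (by rcases L.right r hr u with h | h <;> omega), mul_smul_comm,
      tau_smul] at h2
    exact (mul_eq_zero.mp h2).resolve_left vv_ne
  -- the coefficient at 1
  have hg1 : w'⁻¹ ≠ 1 := by
    intro h; rw [h, L.one] at hw't; omega
  have main : ∀ p q : W, p ≠ q → tau b (D w' * (C p - C q) * C t) = 0 → p ≠ w'⁻¹ := by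
    intro p q hpq h0 hp
    rw [mul_assoc, sub_mul, mul_sub, tau_sub] at h0
    have hpt : l (p * t) + 1 = l p := by rw [hp]; exact hw't
    rw [F_dn L HD BD KL DD w' ht hpt, if_pos hp, mul_one] at h0
    rcases L.right t ht q with h | h
    · rw [F_up L HD BD KL DD w' ht h] at h0
      have h1 := congrArg (fun f : A => f.coeff 1) h0
      simp only [AddMonoidAlgebra.coeff_sub, AddMonoidAlgebra.coeff_add, Finsupp.sub_apply,
          Finsupp.add_apply, coeff_v, coeff_vi] at h1
      have h2 : ((mm l b C q t w'⁻¹ : ℤ) : A).coeff 1 = 0 := by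
        rw [show ((mm l b C q t w'⁻¹ : ℤ) : A) = LaurentPolynomial.C (mm l b C q t w'⁻¹) by simp, C_apply]
        simp
      have h3 : ((if q * t = w'⁻¹ then 1 else 0 : A)).coeff 1 = 0 := by
        split_ifs
        · rw [coeff_one]; simp
        · simp
      rw [h2, h3] at h1
      simp at h1
    · rw [F_dn L HD BD KL DD w' ht h, if_neg (by rintro rfl; exact hpq hp), mul_zero, sub_zero] at h0
      exact vv_ne h0
  have hYt : tau b (D w' * (C x - C y) * C t) = 0 := hu t (L.s_ne_one ht)
  have hx : x ≠ w'⁻¹ := main x y hxy hYt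
  have hy : y ≠ w'⁻¹ := by
    apply main y x (Ne.symm hxy)
    have e : D w' * (C y - C x) * C t = (-1 : A) • (D w' * (C x - C y) * C t) := by
      rw [neg_smul, one_smul, ← neg_mul, ← mul_neg, neg_sub]
    rw [e, tau_smul, hYt, mul_zero]
  have hY0 : Y = 0 := by
    apply nondegC L HD KL
    intro u
    by_cases h : u = 1
    · subst h
      rw [C_one L HD KL, mul_one, hY, mul_sub, tau_sub, DD, DD, if_neg hx, if_neg hy, sub_zero]
    · exact hu u h
  rw [hY, mul_sub, sub_eq_zero] at hY0
  exact hY0

end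

end Pool.Agent.LibKLD42
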