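import Pool.Agent.LibKLD42.H4

set_option autoImplicit false
set_option linter.unusedSectionVars false

namespace Pool.Agent.LibKLD42

open LaurentPolynomial

section

variable {W : Type} [Group W] [Fintype W] [DecidableEq W] {S : Set W} {l : W → ℕ}
  (L : LenData S l) {H : Type} [Ring H] [Algebra A H] {b : Module.Basis W A H}
  (HD : HData S l b) {bar : H →+* H} (BD : BarData b bar) {C : W → H}
  (KL : KLData l b bar C) {D : W → H} (DD : DualData b C D)

include L HD BD KL DD in
/-- the step from an element with one descent `s` to `s w`, when all neighbours of `s` are descents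
of `s w` -/
lemma step2 {s w w' x y : W} (hs : s ∈ S)
    (hgs : l (w⁻¹ * s) + 1 = l w⁻¹)
    (honly : ∀ r ∈ S, r ≠ s → l (w⁻¹ * r) = l w⁻¹ + 1)
    (hall : ∀ r ∈ S, r ≠ s → l (w⁻¹ * r * s) + 1 = l (w⁻¹ * r))
    (hw' : w'⁻¹ = w⁻¹ * s)
    (hX : D w * C x = D w * C y) : D w' * C x = D w' * C y := by
  have hg1 : w⁻¹ ≠ 1 := by
    intro h; rw [h, L.one] at hgs; omega
  have key : C s * D w - (v + vi) • D w - D w' = 0 := by
    apply nondegC L HD KL
    intro u
    rw [sub_mul, sub_mul, tau_sub, tau_sub, tau_rot L HD, DD, smul_mul_assoc, tau_smul, DD]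
    have h2 : (u * s = w⁻¹) ↔ (u = w⁻¹ * s) := L.eq_s hs
    rcases L.right s hs u with h | h
    · rw [F_up L HD BD KL DD w hs h]
      have hug : u ≠ w⁻¹ := by rintro rfl; omega
      have h1 : mm l b C u s w⁻¹ = 0 := by
        unfold mm
        rw [if_pos (by omega)]
        by_cases hu1 : u = 1
        · subst hu1
          unfold mu
          have : b.repr (C 1) w⁻¹ = 0 := by
            by_contra h0
            rcases KL.tri 1 w⁻¹ h0 with h3 | h3
            · exact hg1 h3
            · rw [L.one] at h3; omega
          rw [this]; simp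
        · obtain ⟨r, hr, h3⟩ := L.desc u hu1
          have hrs : r ≠ s := by rintro rfl; omega
          rw [mu_rel L HD BD KL hr (by rcases L.right r hr u with h | h <;> omega) (honly r hr hrs)]
          rw [if_neg]
          intro h4
          have h5 := hall r hr hrs
          rw [h4] at h5
          omega
      rw [h1, hw']
      by_cases h3 : u * s = w⁻¹
      · rw [if_pos h3, if_pos (h2.mp h3), if_neg hug]; simp
      · rw [if_neg h3, if_neg (fun h4 => h3 (h2.mpr h4)), if_neg hug]; simp
    · rw [F_dn L HD BD KL DD w hs h, hw']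
      have h3 : ¬ (u = w⁻¹ * s) := by
        intro h3
        have h4 := h2.mpr h3
        rw [h4] at h
        rw [← h3] at hgs
        omega
      rw [if_neg h3]
      ring
  have e : D w' = C s * D w - (v + vi) • D w := by
    rw [sub_eq_zero] at key; exact key.symm
  rw [e, sub_mul, sub_mul, mul_assoc, mul_assoc, smul_mul_assoc, smul_mul_assoc, hX]

end

end Pool.Agent.LibKLD42
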