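import Pool.Agent.LibKLD42.G4

set_option autoImplicit false
set_option linter.unusedSectionVars false
set_option linter.unusedSimpArgs false

namespace Pool.Agent.LibKLD42

open LaurentPolynomial

section

variable {W : Type} [Group W] [Fintype W] [DecidableEq W] {S : Set W} {l : W → ℕ}
  (L : LenData S l) {H : Type} [Ring H] [Algebra A H] {b : Module.Basis W A H}
  (HD : HData S l b) {bar : H →+* H} (BD : BarData b bar) {C : W → H}
  (KL : KLData l b bar C)

include L HD in
lemma sb_up {s x : W} (hs : s ∈ S) (h : l (s * x) = l x + 1) : b s * b x = b (s * x) :=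
  HD.mul s x (by rw [h, L.len_s hs]; omega)

include L HD in
lemma sb_dn {s x : W} (hs : s ∈ S) (h : l (s * x) + 1 = l x) :
    b s * b x = b (s * x) + (vi - v) • b x := by
  have e : s * (s * x) = x := by rw [← mul_assoc, L.sq s hs, one_mul]
  have h1 : b s * b (s * x) = b x := by
    rw [sb_up L HD hs (by rw [e]; omega), e]
  calc b s * b x = (b s * b s) * b (s * x) := by rw [mul_assoc, h1]
    _ = _ := by
      rw [HD.sqb s hs, add_mul, b_one L HD, one_mul, smul_mul_assoc, h1]

/-- the linear map sending `b w` to `b w⁻¹` -/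
noncomputable def sg (b : Module.Basis W A H) : H →ₗ[A] H := b.constr A (fun w => b w⁻¹)

lemma sg_b (w : W) : sg b (b w) = b w⁻¹ := by
  unfold sg; rw [Module.Basis.constr_basis]

lemma sg_repr (X : H) (y : W) : b.repr (sg b X) y = b.repr X y⁻¹ := by
  have e : (b.coord y) ∘ₗ (sg b) = b.coord y⁻¹ := by
    apply b.ext
    intro w
    simp only [LinearMap.comp_apply, Module.Basis.coord_apply]
    rw [sg_b, b.repr_self, b.repr_self, Finsupp.single_apply, Finsupp.single_apply]
    by_cases h : w = y⁻¹
    · rw [if_pos h, if_pos (by rw [h, inv_inv])]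
    · rw [if_neg h, if_neg (by rintro rfl; exact h (inv_inv w).symm)]
  have := congrArg (fun f => f X) e
  simpa only [LinearMap.comp_apply, Module.Basis.coord_apply] using this

include L HD in
lemma sg_one : sg b (1 : H) = 1 := by
  rw [← b_one L HD, sg_b, inv_one]

include L HD in
lemma sg_mul_bs {s : W} (hs : s ∈ S) (X : H) : sg b (X * b s) = b s * sg b X := by
  have e : (sg b) ∘ₗ (LinearMap.mulRight A (b s)) = (LinearMap.mulLeft A (b s)) ∘ₗ (sg b) := by
    apply b.ext
    intro x
    simp only [LinearMap.comp_apply, LinearMap.mulRight_apply, LinearMap.mulLeft_apply]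
    have hi : (x * s)⁻¹ = s * x⁻¹ := by rw [mul_inv_rev, L.inv_s hs]
    have hl : l (s * x⁻¹) = l (x * s) := by rw [← hi, L.inv]
    rcases L.right s hs x with h | h
    · rw [bs_up L HD hs h, sg_b, sg_b, hi, sb_up L HD hs (by rw [hl, L.inv, h])]
    · rw [bs_dn L HD hs h, map_add, map_smul, sg_b, sg_b, hi, sb_dn L HD hs (by rw [hl, L.inv, h])]
  have := congrArg (fun f => f X) e
  simpa only [LinearMap.comp_apply, LinearMap.mulRight_apply, LinearMap.mulLeft_apply] using this

include L HD in
lemma sg_mul (X Y : H) : sg b (X * Y) = sg b Y * sg b X := by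
  have key : ∀ (N : ℕ) (u : W), l u = N → ∀ X : H, sg b (X * b u) = sg b (b u) * sg b X := by
    intro N
    induction N with
    | zero =>
      intro u hu X
      have : u = 1 := by
        by_contra h
        obtain ⟨s, hs, h2⟩ := L.desc u h
        omega
      rw [this, b_one L HD, mul_one, sg_one L HD, one_mul]
    | succ N ih =>
      intro u hu X
      have hu1 : u ≠ 1 := by
        intro h; rw [h, L.one] at hu; omega
      obtain ⟨s, hs, h2⟩ := L.desc u hu1
      obtain ⟨u', rfl⟩ : ∃ u', u = u' * s := ⟨u * s, (L.ss hs u).symm⟩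
      rw [L.ss hs] at h2
      have h3 : l (u' * s) = l u' + 1 := by
        rcases L.right s hs u' with h | h <;> omega
      rw [← bs_up L HD hs h3, ← mul_assoc, sg_mul_bs L HD hs, ih u' (by omega), sg_mul_bs L HD hs, mul_assoc]
  have e : (sg b) ∘ₗ (LinearMap.mulLeft A X) = (LinearMap.mulRight A (sg b X)) ∘ₗ (sg b) := by
    apply b.ext
    intro u
    simp only [LinearMap.comp_apply, LinearMap.mulRight_apply, LinearMap.mulLeft_apply]
    exact key _ u rfl X
  have := congrArg (fun f => f Y) e
  simpa only [LinearMap.comp_apply, LinearMap.mulRight_apply, LinearMap.mulLeft_apply] using this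

include L HD BD in
lemma sg_bar (X : H) : bar (sg b X) = sg b (bar X) := by
  have hbw : ∀ w, bar (sg b (b w)) = sg b (bar (b w)) := by
    intro w
    have h1 := congrArg (sg b) (BD.inv w)
    rw [sg_mul L HD, sg_b, inv_inv, sg_one L HD] at h1
    -- h1 : b w * sg (bar (b w)) = 1
    have h2 := BD.inv w⁻¹
    rw [inv_inv] at h2
    -- h2 : bar (b w⁻¹) * b w = 1
    rw [sg_b]
    calc bar (b w⁻¹) = bar (b w⁻¹) * (b w * sg b (bar (b w))) := by rw [h1, mul_one]
      _ = _ := by rw [← mul_assoc, h2, one_mul]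
  conv_lhs => rw [← b.sum_repr X]
  conv_rhs => rw [← b.sum_repr X]
  rw [map_sum, map_sum, map_sum, map_sum]
  apply Finset.sum_congr rfl
  intro w _
  rw [map_smul, BD.semi, BD.semi, map_smul, hbw]

include L HD BD KL in
lemma sg_C (w : W) : sg b (C w) = C w⁻¹ := by
  rw [← sub_eq_zero]
  apply uniq L HD BD
  · rw [map_sub, sg_bar L HD BD, KL.bar, KL.bar]
  · intro z k hk
    rw [map_sub, Finsupp.sub_apply, AddMonoidAlgebra.coeff_sub, Finsupp.sub_apply, sg_repr]
    rw [hh KL w z⁻¹ k hk, hh KL w⁻¹ z k hk]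
    by_cases h : z = w⁻¹
    · subst h; simp
    · have : ¬ (z⁻¹ = w) := by rintro rfl; exact h (inv_inv z).symm
      simp [h, this]

include L HD in
lemma tau_sq (Y : H) : tau b (Y * sg b Y) = ∑ w, b.repr Y w * b.repr Y w := by
  have e : sg b Y = ∑ u, b.repr Y u • b u⁻¹ := by
    conv_lhs => rw [← b.sum_repr Y]
    rw [map_sum]
    apply Finset.sum_congr rfl
    intro u _
    rw [map_smul, sg_b]
  rw [e, Finset.mul_sum, tau_sum]
  apply Finset.sum_congr rfl
  intro u _
  rw [mul_smul_comm, tau_smul, ← repr_eq_tau L HD]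

lemma sq_zero {ι : Type} [Fintype ι] (f : ι → A) (h : ∑ i, f i * f i = 0) (i : ι) : f i = 0 := by
  classical
  have h1 : ∀ i, ∃ (N : ℕ) (p : Polynomial ℤ), Polynomial.toLaurent p = f i * T (N : ℤ) :=
    fun i => LaurentPolynomial.exists_T_pow (f i)
  choose N p hp using h1
  let M := ∑ i, N i
  have hM : ∀ i, N i ≤ M := fun i => Finset.single_le_sum (f := N) (fun _ _ => Nat.zero_le _) (Finset.mem_univ i)
  let q : ι → Polynomial ℤ := fun i => p i * Polynomial.X ^ (M - N i)
  have hq : ∀ i, Polynomial.toLaurent (q i) = f i * T (M : ℤ) := by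
    intro i
    simp only [q]
    rw [map_mul, hp, Polynomial.toLaurent_X_pow, mul_assoc, ← T_add]
    congr 2
    have := hM i
    omega
  have hs : ∑ i, q i * q i = 0 := by
    apply Polynomial.toLaurent_injective
    rw [map_sum, map_zero]
    have : ∀ i, Polynomial.toLaurent (q i * q i) = f i * f i * (T (M : ℤ) * T (M : ℤ)) := by
      intro i
      rw [map_mul, hq]; ring
    rw [Finset.sum_congr rfl (fun i _ => this i), ← Finset.sum_mul, h, zero_mul]
  have hz : q i = 0 := by
    apply Polynomial.funext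
    intro r
    have h2 := congrArg (Polynomial.eval r) hs
    rw [Polynomial.eval_finset_sum, Polynomial.eval_zero] at h2
    have h3 : ∀ j ∈ Finset.univ, (0 : ℤ) ≤ Polynomial.eval r (q j * q j) := by
      intro j _
      rw [Polynomial.eval_mul]; exact mul_self_nonneg _
    have h4 := (Finset.sum_eq_zero_iff_of_nonneg h3).mp h2 i (Finset.mem_univ i)
    rw [Polynomial.eval_mul] at h4
    rw [Polynomial.eval_zero]
    exact mul_self_eq_zero.mp h4
  have h5 := hq i
  rw [hz, map_zero] at h5
  have h6 : f i * T (M : ℤ) * T (-(M : ℤ)) = 0 := by rw [← h5, zero_mul]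
  rw [mul_assoc, ← T_add, add_neg_cancel, T_zero, mul_one] at h6
  exact h6

end

end Pool.Agent.LibKLD42
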