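import Pool.Agent.LibKLD42.K1

set_option autoImplicit false
set_option linter.unusedSectionVars false
set_option linter.unusedSimpArgs false

namespace Pool.Agent.LibKLD42

open LaurentPolynomial

/-- `w` has at most two left descents. -/
def AtMostTwoLeftDescents {n : ℕ} (w : Equiv.Perm (Fin n)) : Prop :=
  ∃ j r : ℕ, ∀ m : ℕ, m + 1 < n → len (sim n m * w) < len w → m = j ∨ m = r

section

variable {n : ℕ}

lemma exists_desc (u : Equiv.Perm (Fin n)) : ∀ (d a : ℕ), a + d < n → vl u (a + d) < vl u a →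
    ∃ m, a ≤ m ∧ m < a + d ∧ vl u (m + 1) < vl u m := by
  intro d
  induction d with
  | zero => intro a h1 h2; simp at h2
  | succ d ih =>
    intro a h1 h2
    rcases vl_or u (i := a + d) (by omega) with h3 | h3
    · exact ⟨a + d, by omega, by omega, h3⟩
    · obtain ⟨m, k1, k2, k3⟩ := ih a (by omega) (by
        have : a + (d + 1) = a + d + 1 := by omega
        rw [this] at h2
        omega)
      exact ⟨m, k1, by omega, k3⟩

lemma one_desc_fc (u : Equiv.Perm (Fin n)) (r : ℕ)
    (h : ∀ m, m + 1 < n → m ≠ r → vl u m < vl u (m + 1)) : FCp u := by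
  rintro ⟨p, hp⟩ ⟨q, hq⟩ ⟨k, hk⟩ hpq hqk ⟨h1, h2⟩
  rw [Fin.lt_def] at hpq hqk h1 h2
  simp only at hpq hqk
  rw [← vl_of u hk, ← vl_of u hq] at h1
  rw [← vl_of u hq, ← vl_of u hp] at h2
  obtain ⟨m, a1, a2, a3⟩ := exists_desc u (q - p) p (by omega) (by
    rw [show p + (q - p) = q by omega]; exact h2)
  obtain ⟨m', b1, b2, b3⟩ := exists_desc u (k - q) q (by omega) (by
    rw [show q + (k - q) = k by omega]; exact h1)
  have e1 : m = r := by
    by_contra hc
    have := h m (by omega) hc
    omega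
  have e2 : m' = r := by
    by_contra hc
    have := h m' (by omega) hc
    omega
  omega

end

section

variable {n : ℕ} {H : Type} [Ring H] [Algebra A H]
  {b : Module.Basis (Equiv.Perm (Fin n)) A H} {bar : H →+* H} {C D : Equiv.Perm (Fin n) → H}

theorem n2_step (P : Pack (Simp n) len b bar C D) {i j : ℕ} (r : ℕ) (w w' : Equiv.Perm (Fin n))
    (hs : RS i j w⁻¹ w'⁻¹)
    (hr : ∀ m, m + 1 < n → m ≠ j → m ≠ r → vl w'⁻¹ m < vl w'⁻¹ (m + 1))
    (X : H) (hX : ∀ z, FCp z → ff b D z X = 0) (h0 : D w * X = 0) : D w' * X = 0 := by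
  obtain ⟨hi, hj, hij, h1, h2, h3, h4, h5⟩ := hs
  rw [← dn_iff hi] at h1
  rw [← up_iff hj] at h2
  rw [← dn_iff hj] at h3
  rw [← up_iff hi] at h4
  set Y : H := D w' * X with hY
  have hst := star (lenData n) P.hd P.bd P.kl P.dd (s := sim n i) (t := sim n j) (w := w) (w' := w')
    (mem_simp hi) (mem_simp hj) h2 h4 h1 (star_uniq hi hj hij w⁻¹ w'⁻¹ h1 h2 h3 h4 h5) h5
    (sim_ne hi hj (by omega))
  have hkill : ∀ m, m + 1 < n → m ≠ r → C (sim n m) * Y = 0 := by
    intro m hm hmr
    by_cases hmj : m = j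
    · subst hmj
      rw [hY, ← mul_assoc, ← hst, mul_assoc, mul_assoc, h0, mul_zero, mul_zero]
    · rw [hY, ← mul_assoc, kill (lenData n) P.hd P.bd P.kl P.dd (mem_simp hm)
        ((up_iff hm _).mpr (hr m hm hmj hmr)), zero_mul]
  have hnf : ∀ u, ¬ FCp u → tau b (Y * C u) = 0 := by
    intro u hu
    obtain ⟨m, hm, hmr, hmd⟩ : ∃ m, m + 1 < n ∧ m ≠ r ∧ vl u (m + 1) < vl u m := by
      by_contra hcon
      push_neg at hcon
      apply hu
      apply one_desc_fc u r
      intro m hm hmr
      rcases vl_or u hm with h | h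
      · have := hcon m hm hmr; omega
      · exact h
    have e : tau b (Y * (C u * C (sim n m))) = 0 := by
      rw [← tau_rot (lenData n) P.hd, hkill m hm hmr, zero_mul]; simp [tau]
    rw [CC_dn P hm u hmd, mul_smul_comm, tau_smul] at e
    exact (mul_eq_zero.mp e).resolve_left vv_ne
  have hJ : ∀ Z : H, (∀ z, FCp z → ff b D z Z = 0) → tau b (Y * Z) = 0 := by
    intro Z hZ
    rw [C_expand P Z, Finset.mul_sum, tau_sum]
    apply Finset.sum_eq_zero
    intro u _
    rw [mul_smul_comm, tau_smul]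
    by_cases hu : FCp u
    · rw [hZ u hu, zero_mul]
    · rw [hnf u hu, mul_zero]
  have hYJ : ∀ z, FCp z → ff b D z Y = 0 := fun z hz => J_left P X (D w') hX z hz
  have hsY : ∀ z, FCp z → ff b D z (sg b Y) = 0 := by
    intro z hz
    have e : sg b Y = ∑ u, ff b D u Y • C u⁻¹ := by
      conv_lhs => rw [C_expand P Y]
      rw [map_sum]
      apply Finset.sum_congr rfl
      intro u _
      rw [map_smul, sg_C (lenData n) P.hd P.bd P.kl]
    rw [e, ff_sum]
    apply Finset.sum_eq_zero
    intro u _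
    rw [ff_smul, ff_C P]
    by_cases hu : u⁻¹ = z
    · have : FCp u := by
        have := fc_inv z hz
        rwa [← hu, inv_inv] at this
      rw [hYJ u this, zero_mul]
    · rw [if_neg hu, mul_zero]
  have hsq := hJ (sg b Y) hsY
  rw [tau_sq (lenData n) P.hd] at hsq
  apply b.repr.injective
  refine Finsupp.ext (fun z => ?_)
  rw [map_zero, Finsupp.zero_apply]
  exact sq_zero (fun w => b.repr Y w) hsq z

theorem n2_main (hb : IsHecke b) (hbar : IsBar b bar) (hC : IsKL b bar C) (hD : IsDual b C D)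
    (w w' : Equiv.Perm (Fin n))
    (hs : Relation.ReflTransGen (fun u u' => LeftStar u u' ∧ AtMostTwoLeftDescents u') w w')
    (c : Equiv.Perm (Fin n) → A) (hc : ∀ z, c z ≠ 0 → ¬ FCp z)
    (h : D w * (∑ z, c z • C z) = 0) : D w' * (∑ z, c z • C z) = 0 := by
  have P : Pack (Simp n) len b bar C D :=
    ⟨hb.toHData, hbar.toBarData, hbar.inv_right, hC.toKLData, hD.toDualData⟩
  have hX : ∀ z, FCp z → ff b D z (∑ z, c z • C z) = 0 := by
    intro z hz
    rw [ff_sum]
    apply Finset.sum_eq_zero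
    intro u _
    rw [ff_smul, ff_C P]
    by_cases hu : u = z
    · subst hu
      have : c u = 0 := by
        by_contra h; exact hc u h hz
      rw [this, zero_mul]
    · rw [if_neg hu, mul_zero]
  induction hs with
  | refl => exact h
  | @tail u u' _ hu ih =>
    obtain ⟨h1, j0, r0, h2⟩ := hu
    obtain ⟨i, j, hi, hj, hij, k1, k2, k3, k4, k5⟩ := leftStar_data u u' h1
    have hdesc : ∀ m, m + 1 < n → vl u'⁻¹ (m + 1) < vl u'⁻¹ m → m = j0 ∨ m = r0 := by
      intro m hm hmd
      apply h2 m hm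
      rw [len_left u' hm, ← len_inv u']
      have := (dn_iff hm u'⁻¹).mpr hmd
      omega
    have hjj := hdesc j hj k3
    rcases hjj with hjj | hjj
    · refine n2_step P r0 u u' ⟨hi, hj, hij, k1, k2, k3, k4, k5⟩ ?_ _ hX ih
      intro m hm hmj hmr
      rcases vl_or u'⁻¹ hm with h | h
      · rcases hdesc m hm h with e | e
        · omega
        · omega
      · exact h
    · refine n2_step P j0 u u' ⟨hi, hj, hij, k1, k2, k3, k4, k5⟩ ?_ _ hX ih
      intro m hm hmj hmr
      rcases vl_or u'⁻¹ hm with h | h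
      · rcases hdesc m hm h with e | e
        · omega
        · omega
      · exact h

end

end Pool.Agent.LibKLD42
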