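import Pool.Agent.LibKLD42.K2

set_option autoImplicit false
set_option linter.unusedSectionVars false
set_option linter.unusedSimpArgs false

namespace Pool.Agent.LibKLD42

open LaurentPolynomial

/-- `g` is fixed (up to the factor `v + v⁻¹`) by right multiplication with `C s` for `m` consecutive
simple reflections `s`. For example `C x` has this property when `m` consecutive simple reflections are
right descents of `x`. -/
def DeepGen {n : ℕ} {H : Type} [Ring H] [Algebra A H] (C : Equiv.Perm (Fin n) → H) (m : ℕ) (g : H) : Prop :=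
  ∃ k : ℕ, k + m < n ∧ ∀ i : ℕ, k ≤ i → i < k + m → g * C (sim n i) = (v + vi) • g

/-- The two-sided ideal generated by the elements of `DeepGen C m`. -/
noncomputable def deepIdeal {n : ℕ} {H : Type} [Ring H] [Algebra A H] (C : Equiv.Perm (Fin n) → H) (m : ℕ) :
    Submodule A H :=
  Submodule.span A {X | ∃ h₁ g h₂ : H, DeepGen C m g ∧ X = h₁ * g * h₂}

/-- `w` has at most `m` left descents. -/
def AtMostLeftDescents {n : ℕ} (m : ℕ) (w : Equiv.Perm (Fin n)) : Prop :=
  ∃ R : Finset ℕ, R.card ≤ m ∧ ∀ p : ℕ, p + 1 < n → len (sim n p * w) < len w → p ∈ R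

section

variable {n : ℕ}

lemma incr (w : Equiv.Perm (Fin n)) : ∀ (d a : ℕ), a + d < n →
    (∀ p, a ≤ p → p < a + d → vl w p < vl w (p + 1)) → vl w a + d ≤ vl w (a + d) := by
  intro d
  induction d with
  | zero => intro a h1 h2; simp
  | succ d ih =>
    intro a h1 h2
    have h3 := ih a (by omega) (fun p hp hp' => h2 p hp (by omega))
    have h4 := h2 (a + d) (by omega) (by omega)
    have h5 : a + (d + 1) = a + d + 1 := by omega
    rw [h5]
    omega

/-- the pigeonhole step -/
lemma pigeon (w : Equiv.Perm (Fin n)) (R : Finset ℕ) (k m : ℕ) (hk : k + m < n) (hR : R.card < m)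
    (h1 : ∀ p, p + 1 < n → p ∉ R → vl w p < vl w (p + 1))
    (h2 : ∀ i, k ≤ i → i < k + m → vl w⁻¹ i < vl w⁻¹ (i + 1)) :
    ∃ i p, k ≤ i ∧ i < k + m ∧ p + 1 < n ∧ p ∉ R ∧ vl w p = i ∧ vl w (p + 1) = i + 1 := by
  have hinv : ∀ i, i < n → vl w (vl w⁻¹ i) = i := by
    intro i hi
    have h1 : vl w⁻¹ i = (w⁻¹ ⟨i, hi⟩ : ℕ) := vl_of w⁻¹ hi
    rw [h1, vl_of w (w⁻¹ ⟨i, hi⟩).isLt]
    simp
  have hlt : ∀ i, i < n → vl w⁻¹ i < n := by
    intro i hi
    rw [vl_of _ hi]; exact (w⁻¹ ⟨i, hi⟩).isLt
  have mono : ∀ d i, k ≤ i → i + d ≤ k + m → vl w⁻¹ i ≤ vl w⁻¹ (i + d) := by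
    intro d
    induction d with
    | zero => intro i _ _; simp
    | succ d ih =>
      intro i hi hid
      have a1 := ih i hi (by omega)
      have a2 := h2 (i + d) (by omega) (by omega)
      have a3 : i + (d + 1) = i + d + 1 := by omega
      rw [a3]
      omega
  -- some interval is free of `R`
  have hfree : ∃ i, k ≤ i ∧ i < k + m ∧ ∀ p, vl w⁻¹ i ≤ p → p < vl w⁻¹ (i + 1) → p ∉ R := by
    by_contra hcon
    push_neg at hcon
    have hch : ∀ i : ℕ, ∃ p : ℕ, k ≤ i → i < k + m → (vl w⁻¹ i ≤ p ∧ p < vl w⁻¹ (i + 1) ∧ p ∈ R) := by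
      intro i
      by_cases hi : k ≤ i ∧ i < k + m
      · obtain ⟨p, hp⟩ := hcon i hi.1 hi.2
        exact ⟨p, fun _ _ => hp⟩
      · exact ⟨0, fun h h' => absurd ⟨h, h'⟩ hi⟩
    choose f hf using hch
    have hmaps : Set.MapsTo f (Finset.Ico k (k + m) : Finset ℕ) (R : Finset ℕ) := by
      intro i hi
      simp only [Finset.coe_Ico, Set.mem_Ico] at hi
      exact (hf i hi.1 hi.2).2.2
    have hcard : R.card < (Finset.Ico k (k + m)).card := by
      rw [Nat.card_Ico]; omega
    obtain ⟨i, hi, j, hj, hij, hfij⟩ := Finset.exists_ne_map_eq_of_card_lt_of_maps_to hcard hmaps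
    rw [Finset.mem_Ico] at hi hj
    have a := hf i hi.1 hi.2
    have c := hf j hj.1 hj.2
    rcases Nat.lt_or_gt_of_ne hij with h | h
    · have := mono (j - (i + 1)) (i + 1) (by omega) (by omega)
      rw [show i + 1 + (j - (i + 1)) = j by omega] at this
      omega
    · have := mono (i - (j + 1)) (j + 1) (by omega) (by omega)
      rw [show j + 1 + (i - (j + 1)) = i by omega] at this
      omega
  obtain ⟨i, hi1, hi2, hi3⟩ := hfree
  have a1 := h2 i hi1 hi2
  have b1 := hlt (i + 1) (by omega)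
  have a2 := incr w (vl w⁻¹ (i + 1) - vl w⁻¹ i) (vl w⁻¹ i) (by omega) (by
    intro p hp hp'
    exact h1 p (by omega) (hi3 p hp (by omega)))
  rw [show vl w⁻¹ i + (vl w⁻¹ (i + 1) - vl w⁻¹ i) = vl w⁻¹ (i + 1) by omega, hinv i (by omega),
    hinv (i + 1) (by omega)] at a2
  have a3 : vl w⁻¹ (i + 1) = vl w⁻¹ i + 1 := by omega
  refine ⟨i, vl w⁻¹ i, hi1, hi2, by omega, hi3 _ le_rfl (by omega), hinv i (by omega), ?_⟩
  rw [← a3]
  exact hinv (i + 1) (by omega)

/-- `s_i w = w s_p` when `w p = i` and `w (p+1) = i+1` -/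
lemma conj_eq (w : Equiv.Perm (Fin n)) {i p : ℕ} (hi : i + 1 < n) (hp : p + 1 < n)
    (h1 : vl w p = i) (h2 : vl w (p + 1) = i + 1) : sim n i * w = w * sim n p := by
  have e1 : w ⟨p, Nat.lt_of_succ_lt hp⟩ = ⟨i, Nat.lt_of_succ_lt hi⟩ := by
    apply Fin.ext; rw [vl_of w (Nat.lt_of_succ_lt hp)] at h1; exact h1
  have e2 : w ⟨p + 1, hp⟩ = ⟨i + 1, hi⟩ := by
    apply Fin.ext; rw [vl_of w hp] at h2; exact h2
  rw [sim_eq hi, sim_eq hp, Equiv.mul_swap_eq_swap_mul, e1, e2]

end

section

variable {n : ℕ} {H : Type} [Ring H] [Algebra A H]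
  {b : Module.Basis (Equiv.Perm (Fin n)) A H} {bar : H →+* H} {C D : Equiv.Perm (Fin n) → H}

/-- `g H Y = 0` -/
lemma deep_kill (P : Pack (Simp n) len b bar C D) (R : Finset ℕ) (k m : ℕ) (hk : k + m < n) (hR : R.card < m)
    (g Y : H) (hg : ∀ i, k ≤ i → i < k + m → g * C (sim n i) = (v + vi) • g)
    (hY : ∀ p, p + 1 < n → p ∉ R → C (sim n p) * Y = 0) (h : H) : g * h * Y = 0 := by
  have hCb : ∀ p, p + 1 < n → b (sim n p) = C (sim n p) - v • (1 : H) := by
    intro p hp
    rw [C_s (lenData n) P.hd P.bd P.kl (mem_simp hp)]; abel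
  have key : ∀ (N : ℕ) (w : Equiv.Perm (Fin n)), len w = N → g * b w * Y = 0 := by
    intro N
    induction N using Nat.strong_induction_on with
    | _ N ih =>
      intro w hw
      by_cases c1 : ∃ p, p + 1 < n ∧ p ∉ R ∧ vl w (p + 1) < vl w p
      · obtain ⟨p, hp, hpR, hd⟩ := c1
        have hl := (dn_iff hp w).mpr hd
        have e : b w = b (w * sim n p) * b (sim n p) := by
          rw [bs_up (lenData n) P.hd (mem_simp hp)]
          · rw [mul_assoc, sim_sq hp, mul_one]
          · rw [mul_assoc, sim_sq hp, mul_one]; omega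
        have e2 : b (sim n p) * Y = -(v • Y) := by
          rw [hCb p hp, sub_mul, hY p hp hpR, smul_mul_assoc, one_mul, zero_sub]
        rw [e, mul_assoc, mul_assoc (b (w * sim n p)), e2, mul_neg, mul_neg, mul_smul_comm, mul_smul_comm,
          ← mul_assoc, ih (len (w * sim n p)) (by omega) _ rfl, smul_zero, neg_zero]
      by_cases c2 : ∃ i, k ≤ i ∧ i < k + m ∧ vl w⁻¹ (i + 1) < vl w⁻¹ i
      · obtain ⟨i, hi1, hi2, hd⟩ := c2
        have hi : i + 1 < n := by omega
        have hl : len (sim n i * w) + 1 = len w := by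
          rw [len_left w hi, ← len_inv w]
          exact (dn_iff hi w⁻¹).mpr hd
        have e : b w = b (sim n i) * b (sim n i * w) := by
          rw [sb_up (lenData n) P.hd (mem_simp hi)]
          · rw [← mul_assoc, sim_sq hi, one_mul]
          · rw [← mul_assoc, sim_sq hi, one_mul]; omega
        have e2 : g * b (sim n i) = (v + vi) • g - v • g := by
          rw [hCb i hi, mul_sub, hg i hi1 hi2, mul_smul_comm, mul_one]
        rw [e, ← mul_assoc, e2, sub_mul, sub_mul, smul_mul_assoc, smul_mul_assoc, smul_mul_assoc,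
          smul_mul_assoc, ih (len (sim n i * w)) (by omega) _ rfl, smul_zero, smul_zero, sub_zero]
      · push_neg at c1 c2
        obtain ⟨i, p, hi1, hi2, hp, hpR, h1, h2⟩ := pigeon w R k m hk hR
          (fun p hp hpR => by
            rcases vl_or w hp with h | h
            · have := c1 p hp hpR; omega
            · exact h)
          (fun i hi1 hi2 => by
            rcases vl_or w⁻¹ (i := i) (by omega) with h | h
            · have := c2 i hi1 hi2; omega
            · exact h)
        have hi : i + 1 < n := by omega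
        have hc := conj_eq w hi hp h1 h2
        have hup : len (w * sim n p) = len w + 1 := by
          rw [up_iff hp]; omega
        have e1 : b (sim n i) * b w = b w * b (sim n p) := by
          rw [sb_up (lenData n) P.hd (mem_simp hi) (by rw [hc]; exact hup),
            bs_up (lenData n) P.hd (mem_simp hp) hup, hc]
        have e2 : C (sim n i) * b w = b w * C (sim n p) := by
          rw [C_s (lenData n) P.hd P.bd P.kl (mem_simp hi), C_s (lenData n) P.hd P.bd P.kl (mem_simp hp),
            add_mul, mul_add, e1, smul_mul_assoc, mul_smul_comm, one_mul, mul_one]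
        have e3 : (v + vi) • (g * b w * Y) = 0 := by
          calc (v + vi) • (g * b w * Y) = (((v + vi) • g) * b w) * Y := by
                rw [smul_mul_assoc, smul_mul_assoc]
            _ = g * (C (sim n i) * b w) * Y := by rw [← hg i hi1 hi2, mul_assoc g]
            _ = g * b w * (C (sim n p) * Y) := by rw [e2]; noncomm_ring
            _ = 0 := by rw [hY p hp hpR, mul_zero]
        have e4 := congrArg b.repr e3
        rw [map_smul, map_zero] at e4
        apply b.repr.injective
        rw [map_zero]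
        refine Finsupp.ext (fun z => ?_)
        have e5 := congrArg (fun f => f z) e4
        simp only [Finsupp.smul_apply, Finsupp.zero_apply, smul_eq_mul] at e5
        rw [Finsupp.zero_apply]
        exact (mul_eq_zero.mp e5).resolve_left vv_ne
  rw [← b.sum_repr h, Finset.mul_sum, Finset.sum_mul]
  apply Finset.sum_eq_zero
  intro w _
  rw [mul_smul_comm, smul_mul_assoc, key _ w rfl, smul_zero]

lemma sg_sg (X : H) : sg b (sg b X) = X := by
  apply b.repr.injective
  refine Finsupp.ext (fun z => ?_)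
  rw [sg_repr, sg_repr, inv_inv]

lemma zero_of_sg (P : Pack (Simp n) len b bar C D) (Y : H) (h : Y * sg b Y = 0) : Y = 0 := by
  have hsq : ∑ w, b.repr Y w * b.repr Y w = 0 := by
    rw [← tau_sq (lenData n) P.hd, h]; simp [tau]
  apply b.repr.injective
  refine Finsupp.ext (fun z => ?_)
  rw [map_zero, Finsupp.zero_apply]
  exact sq_zero (fun w => b.repr Y w) hsq z

/-- the Hecke algebra is semiprime -/
lemma semiprime (P : Pack (Simp n) len b bar C D) (Y : H) (h : ∀ h : H, Y * h * Y = 0) : Y = 0 := by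
  apply zero_of_sg P
  apply zero_of_sg P
  rw [sg_mul (lenData n) P.hd, sg_sg]
  calc Y * sg b Y * (Y * sg b Y) = Y * sg b Y * Y * sg b Y := by noncomm_ring
    _ = 0 := by rw [h, zero_mul]

theorem deep_step (P : Pack (Simp n) len b bar C D) {i j : ℕ} (m : ℕ) (R : Finset ℕ) (hR : R.card < m)
    (w w' : Equiv.Perm (Fin n)) (hs : RS i j w⁻¹ w'⁻¹)
    (hr : ∀ p, p + 1 < n → p ≠ j → p ∉ R → vl w'⁻¹ p < vl w'⁻¹ (p + 1))
    (X : H) (hX : X ∈ deepIdeal C m) (h0 : D w * X = 0) : D w' * X = 0 := by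
  obtain ⟨hi, hj, hij, h1, h2, h3, h4, h5⟩ := hs
  rw [← dn_iff hi] at h1
  rw [← up_iff hj] at h2
  rw [← dn_iff hj] at h3
  rw [← up_iff hi] at h4
  set Y : H := D w' * X with hY
  have hst := star (lenData n) P.hd P.bd P.kl P.dd (s := sim n i) (t := sim n j) (w := w) (w' := w')
    (mem_simp hi) (mem_simp hj) h2 h4 h1 (star_uniq hi hj hij w⁻¹ w'⁻¹ h1 h2 h3 h4 h5) h5
    (sim_ne hi hj (by omega))
  have hkill : ∀ p, p + 1 < n → p ∉ R → C (sim n p) * Y = 0 := by
    intro p hp hpR
    by_cases hpj : p = j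
    · subst hpj
      rw [hY, ← mul_assoc, ← hst, mul_assoc, mul_assoc, h0, mul_zero, mul_zero]
    · rw [hY, ← mul_assoc, kill (lenData n) P.hd P.bd P.kl P.dd (mem_simp hp)
        ((up_iff hp _).mpr (hr p hp hpj hpR)), zero_mul]
  -- elements of the ideal kill `H Y`
  have hI : ∀ Z ∈ deepIdeal C m, ∀ h : H, Z * h * Y = 0 := by
    intro Z hZ h
    unfold deepIdeal at hZ
    induction hZ using Submodule.span_induction with
    | mem Z hZ =>
      obtain ⟨h₁, g, h₂, ⟨k, hk, hg⟩, rfl⟩ := hZ
      have := deep_kill P R k m hk hR g Y hg hkill (h₂ * h)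
      calc h₁ * g * h₂ * h * Y = h₁ * (g * (h₂ * h) * Y) := by noncomm_ring
        _ = 0 := by rw [this, mul_zero]
    | zero => rw [zero_mul, zero_mul]
    | add Z Z' _ _ ih ih' => rw [add_mul, add_mul, ih, ih', add_zero]
    | smul a Z _ ih => rw [smul_mul_assoc, smul_mul_assoc, ih, smul_zero]
  have hYI : Y ∈ deepIdeal C m := by
    have : ∀ Z ∈ deepIdeal C m, D w' * Z ∈ deepIdeal C m := by
      intro Z hZ
      unfold deepIdeal at hZ ⊢
      induction hZ using Submodule.span_induction with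
      | mem Z hZ =>
        obtain ⟨h₁, g, h₂, hg, rfl⟩ := hZ
        exact Submodule.subset_span ⟨D w' * h₁, g, h₂, hg, by noncomm_ring⟩
      | zero => rw [mul_zero]; exact Submodule.zero_mem _
      | add Z Z' _ _ ih ih' => rw [mul_add]; exact Submodule.add_mem _ ih ih'
      | smul a Z _ ih => rw [mul_smul_comm]; exact Submodule.smul_mem _ _ ih
    exact this X hX
  exact semiprime P Y (fun h => hI Y hYI h)

end

end Pool.Agent.LibKLD42
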