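import Pool.Agent.LibKLD42.K3

set_option autoImplicit false
set_option linter.unusedSectionVars false
set_option linter.unusedSimpArgs false

namespace Pool.Agent.LibKLD42

open LaurentPolynomial

section

variable {n : ℕ} {H : Type} [Ring H] [Algebra A H]
  {b : Module.Basis (Equiv.Perm (Fin n)) A H} {bar : H →+* H} {C D : Equiv.Perm (Fin n) → H}

/-- `C x` lies in the ideal when `x` has `m` consecutive right descents -/
lemma deep_C (P : Pack (Simp n) len b bar C D) (m k : ℕ) (hk : k + m < n) (x : Equiv.Perm (Fin n))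
    (hx : ∀ i, k ≤ i → i < k + m → vl x (i + 1) < vl x i) : C x ∈ deepIdeal C m := by
  apply Submodule.subset_span
  refine ⟨1, C x, 1, ⟨k, hk, ?_⟩, by rw [one_mul, mul_one]⟩
  intro i hi1 hi2
  exact CC_dn P (by omega) x (hx i hi1 hi2)

lemma smul_ne (b : Module.Basis (Equiv.Perm (Fin n)) A H) {a : A} (ha : a ≠ 0) {Y : H} (h : a • Y = 0) : Y = 0 := by
  have e4 := congrArg b.repr h
  rw [map_smul, map_zero] at e4
  apply b.repr.injective
  rw [map_zero]
  refine Finsupp.ext (fun z => ?_)
  have e5 := congrArg (fun f => f z) e4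
  simp only [Finsupp.smul_apply, Finsupp.zero_apply, smul_eq_mul] at e5
  rw [Finsupp.zero_apply]
  exact (mul_eq_zero.mp e5).resolve_left ha

theorem deep_main (hb : IsHecke b) (hbar : IsBar b bar) (hC : IsKL b bar C) (hD : IsDual b C D)
    (m : ℕ) (w w' : Equiv.Perm (Fin n))
    (hs : Relation.ReflTransGen (fun u u' => LeftStar u u' ∧ AtMostLeftDescents m u') w w')
    (X : H) (a : A) (ha : a ≠ 0) (hX : a • X ∈ deepIdeal C m)
    (h : D w * X = 0) : D w' * X = 0 := by
  have P : Pack (Simp n) len b bar C D :=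
    ⟨hb.toHData, hbar.toBarData, hbar.inv_right, hC.toKLData, hD.toDualData⟩
  have key : D w' * (a • X) = 0 := by
    induction hs with
    | refl => rw [mul_smul_comm, h, smul_zero]
    | @tail u u' _ hu ih =>
      obtain ⟨h1, R, hR, h2⟩ := hu
      obtain ⟨i, j, hi, hj, hij, k1, k2, k3, k4, k5⟩ := leftStar_data u u' h1
      have hdesc : ∀ p, p + 1 < n → vl u'⁻¹ (p + 1) < vl u'⁻¹ p → p ∈ R := by
        intro p hp hpd
        apply h2 p hp
        rw [len_left u' hp, ← len_inv u']
        have := (dn_iff hp u'⁻¹).mpr hpd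
        omega
      have hjR := hdesc j hj k3
      have hcard : (R.erase j).card < m := by
        have := Finset.card_erase_lt_of_mem hjR
        omega
      refine deep_step P m (R.erase j) hcard u u' ⟨hi, hj, hij, k1, k2, k3, k4, k5⟩ ?_ _ hX ih
      intro p hp hpj hpR
      rcases vl_or u'⁻¹ hp with h | h
      · exact absurd (Finset.mem_erase.mpr ⟨hpj, hdesc p hp h⟩) hpR
      · exact h
  rw [mul_smul_comm] at key
  exact smul_ne b ha key

end

end Pool.Agent.LibKLD42
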