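import Pool.Agent.LibKLD42.K4

set_option autoImplicit false
set_option linter.unusedSectionVars false
set_option linter.unusedSimpArgs false

namespace Pool.Agent.LibKLD42

open LaurentPolynomial

/-- `g * C s = (v + v⁻¹) g` for all simple reflections `s = sim n i` with `i ∈ K`. For example
`C x` has this property when all these `s` are right descents of `x`. -/
def Eig {n : ℕ} {H : Type} [Ring H] [Algebra A H] (C : Equiv.Perm (Fin n) → H) (K : Set ℕ) (g : H) : Prop :=
  ∀ i ∈ K, i + 1 < n → g * C (sim n i) = (v + vi) • g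

/-- The same on the left side: `C s * g = (v + v⁻¹) g` for all simple reflections `s = sim n i` with
`i ∈ K`. For example `C x` has this property when all these `s` are left descents of `x`. -/
def LEig {n : ℕ} {H : Type} [Ring H] [Algebra A H] (C : Equiv.Perm (Fin n) → H) (K : Set ℕ) (g : H) : Prop :=
  ∀ i ∈ K, i + 1 < n → C (sim n i) * g = (v + vi) • g

/-- The two-sided ideal generated by the elements `g` with `Eig C K g` or `LEig C K g` for some `K` in
the family `F`. -/
noncomputable def eigIdeal {n : ℕ} {H : Type} [Ring H] [Algebra A H] (C : Equiv.Perm (Fin n) → H)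
    (F : Set (Set ℕ)) : Submodule A H :=
  Submodule.span A {X | ∃ K ∈ F, ∃ h₁ g h₂ : H, (Eig C K g ∨ LEig C K g) ∧ X = h₁ * g * h₂}

/-- The condition on two sets `K`, `R` of indices of simple reflections: for every permutation `z` there
are points `a < c` in the same block of `K` (all `i` with `a ≤ i < c` are in `K`) whose images `z a`, `z c`
are not separated by an element of `R` (they are in the same block of the complement of `R`). In other
words: the Young subgroup of `K` and each conjugate of the Young subgroup of the complement of `R`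
have a nontrivial intersection. -/
def Meets (n : ℕ) (K R : Set ℕ) : Prop :=
  ∀ z : Equiv.Perm (Fin n), ∃ a c : Fin n, a < c ∧ (∀ i : ℕ, (a : ℕ) ≤ i → i < c → i ∈ K) ∧
    ∀ r ∈ R, ¬ (min (z a : ℕ) (z c) ≤ r ∧ r < max (z a : ℕ) (z c))

/-- The left star operation of `LeftStar` with its two simple reflections `s = sim n i`, `t = sim n j` named:
`s w < w < t w`, `t w' < w' < s w'`, and `w'` is `s w` or `t w`. -/
def StarVia {n : ℕ} (i j : ℕ) (w w' : Equiv.Perm (Fin n)) : Prop :=
  i + 1 < n ∧ j + 1 < n ∧ (j = i + 1 ∨ i = j + 1) ∧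
    len (sim n i * w) < len w ∧ len w < len (sim n j * w) ∧
    len (sim n j * w') < len w' ∧ len w' < len (sim n i * w') ∧
    (w' = sim n i * w ∨ w' = sim n j * w)

/-- The steps from `w` to `w'` we can treat: a left star operation which creates the left descent
`t = sim n j`, such that each `K` in `F` satisfies `Meets` with the set of the other left descents of `w'`. -/
def GoodStep {n : ℕ} (F : Set (Set ℕ)) (w w' : Equiv.Perm (Fin n)) : Prop :=
  ∃ i j : ℕ, StarVia i j w w' ∧
    ∀ K ∈ F, Meets n K {p : ℕ | p + 1 < n ∧ p ≠ j ∧ len (sim n p * w') < len w'}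

section

variable {n : ℕ}

lemma meets_point (w : Equiv.Perm (Fin n)) (K R : Set ℕ) (hKR : Meets n K R)
    (h1 : ∀ p, p + 1 < n → p ∉ R → vl w p < vl w (p + 1))
    (h2 : ∀ i ∈ K, i + 1 < n → vl w⁻¹ i < vl w⁻¹ (i + 1)) :
    ∃ i p, i ∈ K ∧ i + 1 < n ∧ p + 1 < n ∧ p ∉ R ∧ vl w p = i ∧ vl w (p + 1) = i + 1 := by
  obtain ⟨⟨a, ha⟩, ⟨c, hc⟩, hac, hK, hR⟩ := hKR w⁻¹
  simp only at hK
  rw [Fin.lt_def] at hac
  simp only at hac
  rw [← vl_of w⁻¹ ha, ← vl_of w⁻¹ hc] at hR
  have hinv : ∀ i, i < n → vl w (vl w⁻¹ i) = i := by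
    intro i hi
    have h1 : vl w⁻¹ i = (w⁻¹ ⟨i, hi⟩ : ℕ) := vl_of w⁻¹ hi
    rw [h1, vl_of w (w⁻¹ ⟨i, hi⟩).isLt]
    simp
  have hlt : ∀ i, i < n → vl w⁻¹ i < n := by
    intro i hi
    rw [vl_of _ hi]; exact (w⁻¹ ⟨i, hi⟩).isLt
  have mono : ∀ d i, a ≤ i → i + d ≤ c → vl w⁻¹ i ≤ vl w⁻¹ (i + d) := by
    intro d
    induction d with
    | zero => intro i _ _; simp
    | succ d ih =>
      intro i hi hid
      have a1 := ih i hi (by omega)
      have a2 := h2 (i + d) (hK _ (by omega) (by omega)) (by omega)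
      have a3 : i + (d + 1) = i + d + 1 := by omega
      rw [a3]
      omega
  have a1 := h2 a (hK a le_rfl hac) (by omega)
  have a2 := mono (c - (a + 1)) (a + 1) (by omega) (by omega)
  rw [show a + 1 + (c - (a + 1)) = c by omega] at a2
  have b1 := hlt c hc
  have hmin : min (vl w⁻¹ a) (vl w⁻¹ c) = vl w⁻¹ a := min_eq_left (by omega)
  have hmax : max (vl w⁻¹ a) (vl w⁻¹ c) = vl w⁻¹ c := max_eq_right (by omega)
  rw [hmin, hmax] at hR
  have hfree : ∀ p, vl w⁻¹ a ≤ p → p < vl w⁻¹ c → p ∉ R := fun p hp hp' hpR => hR p hpR ⟨hp, hp'⟩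
  have a3 := incr w (vl w⁻¹ (a + 1) - vl w⁻¹ a) (vl w⁻¹ a) (by omega) (by
    intro p hp hp'
    exact h1 p (by omega) (hfree p hp (by omega)))
  rw [show vl w⁻¹ a + (vl w⁻¹ (a + 1) - vl w⁻¹ a) = vl w⁻¹ (a + 1) by omega, hinv a (by omega),
    hinv (a + 1) (by omega)] at a3
  have a4 : vl w⁻¹ (a + 1) = vl w⁻¹ a + 1 := by omega
  refine ⟨a, vl w⁻¹ a, hK a le_rfl hac, by omega, by omega, hfree _ le_rfl (by omega), hinv a ha, ?_⟩
  rw [← a4]
  exact hinv (a + 1) (by omega)

end

section

variable {n : ℕ} {H : Type} [Ring H] [Algebra A H]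
  {b : Module.Basis (Equiv.Perm (Fin n)) A H} {bar : H →+* H} {C D : Equiv.Perm (Fin n) → H}

/-- `g H Y = 0` -/
lemma eig_kill (P : Pack (Simp n) len b bar C D) (K R : Set ℕ) (hKR : Meets n K R)
    (g Y : H) (hg : Eig C K g)
    (hY : ∀ p, p + 1 < n → p ∉ R → C (sim n p) * Y = 0) (h : H) : g * h * Y = 0 := by
  have hCb : ∀ p, p + 1 < n → b (sim n p) = C (sim n p) - v • (1 : H) := by
    intro p hp
    rw [C_s (lenData n) P.hd P.bd P.kl (mem_simp hp)]; abel
  have key : ∀ (N : ℕ) (w : Equiv.Perm (Fin n)), len w = N → g * b w * Y = 0 := by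
    intro N
    induction N using Nat.strong_induction_on with
    | _ N ih =>
      intro w hw
      by_cases c1 : ∃ p, p + 1 < n ∧ p ∉ R ∧ vl w (p + 1) < vl w p
      · obtain ⟨p, hp, hpR, hd⟩ := c1
        have hl := (dn_iff hp w).mpr hd
        have e : b w = b (w * sim n p) * b (sim n p) := by
          rw [bs_up (lenData n) P.hd (mem_simp hp)]
          · rw [mul_assoc, sim_sq hp, mul_one]
          · rw [mul_assoc, sim_sq hp, mul_one]; omega
        have e2 : b (sim n p) * Y = -(v • Y) := by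
          rw [hCb p hp, sub_mul, hY p hp hpR, smul_mul_assoc, one_mul, zero_sub]
        rw [e, mul_assoc, mul_assoc (b (w * sim n p)), e2, mul_neg, mul_neg, mul_smul_comm, mul_smul_comm,
          ← mul_assoc, ih (len (w * sim n p)) (by omega) _ rfl, smul_zero, neg_zero]
      by_cases c2 : ∃ i, i ∈ K ∧ i + 1 < n ∧ vl w⁻¹ (i + 1) < vl w⁻¹ i
      · obtain ⟨i, hiK, hi, hd⟩ := c2
        have hl : len (sim n i * w) + 1 = len w := by
          rw [len_left w hi, ← len_inv w]
          exact (dn_iff hi w⁻¹).mpr hd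
        have e : b w = b (sim n i) * b (sim n i * w) := by
          rw [sb_up (lenData n) P.hd (mem_simp hi)]
          · rw [← mul_assoc, sim_sq hi, one_mul]
          · rw [← mul_assoc, sim_sq hi, one_mul]; omega
        have e2 : g * b (sim n i) = (v + vi) • g - v • g := by
          rw [hCb i hi, mul_sub, hg i hiK hi, mul_smul_comm, mul_one]
        rw [e, ← mul_assoc, e2, sub_mul, sub_mul, smul_mul_assoc, smul_mul_assoc, smul_mul_assoc,
          smul_mul_assoc, ih (len (sim n i * w)) (by omega) _ rfl, smul_zero, smul_zero, sub_zero]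
      · push_neg at c1 c2
        obtain ⟨i, p, hiK, hi, hp, hpR, h1, h2⟩ := meets_point w K R hKR
          (fun p hp hpR => by
            rcases vl_or w hp with h | h
            · have := c1 p hp hpR; omega
            · exact h)
          (fun i hiK hi => by
            rcases vl_or w⁻¹ (i := i) hi with h | h
            · have := c2 i hiK hi; omega
            · exact h)
        have hc := conj_eq w hi hp h1 h2
        have hup : len (w * sim n p) = len w + 1 := by
          rw [up_iff hp]; omega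
        have e1 : b (sim n i) * b w = b w * b (sim n p) := by
          rw [sb_up (lenData n) P.hd (mem_simp hi) (by rw [hc]; exact hup),
            bs_up (lenData n) P.hd (mem_simp hp) hup, hc]
        have e2 : C (sim n i) * b w = b w * C (sim n p) := by
          rw [C_s (lenData n) P.hd P.bd P.kl (mem_simp hi), C_s (lenData n) P.hd P.bd P.kl (mem_simp hp),
            add_mul, mul_add, e1, smul_mul_assoc, mul_smul_comm, one_mul, mul_one]
        have e3 : (v + vi) • (g * b w * Y) = 0 := by
          calc (v + vi) • (g * b w * Y) = (((v + vi) • g) * b w) * Y := by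
                rw [smul_mul_assoc, smul_mul_assoc]
            _ = g * (C (sim n i) * b w) * Y := by rw [← hg i hiK hi, mul_assoc g]
            _ = g * b w * (C (sim n p) * Y) := by rw [e2]; noncomm_ring
            _ = 0 := by rw [hY p hp hpR, mul_zero]
        exact smul_ne b vv_ne e3
  rw [← b.sum_repr h, Finset.mul_sum, Finset.sum_mul]
  apply Finset.sum_eq_zero
  intro w _
  rw [mul_smul_comm, smul_mul_assoc, key _ w rfl, smul_zero]

/-- `g H Y = 0`, the right and the left version -/
lemma eig_kill2 (P : Pack (Simp n) len b bar C D) (K R : Set ℕ) (hKR : Meets n K R)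
    (g Y : H) (hg : Eig C K g ∨ LEig C K g)
    (hY : ∀ p, p + 1 < n → p ∉ R → C (sim n p) * Y = 0) (h : H) : g * h * Y = 0 := by
  rcases hg with hg | hg
  · exact eig_kill P K R hKR g Y hg hY h
  · have e1 : Eig C K (sg b (g * h * Y)) := by
      intro i hi hin
      have h1 : C (sim n i) * (g * h * Y) = (v + vi) • (g * h * Y) := by
        rw [← mul_assoc, ← mul_assoc, hg i hi hin, smul_mul_assoc, smul_mul_assoc]
      have h2 := congrArg (sg b) h1
      rw [sg_mul (lenData n) P.hd, sg_C (lenData n) P.hd P.bd P.kl, (lenData n).inv_s (mem_simp hin),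
        map_smul] at h2
      exact h2
    have e2 := eig_kill P K R hKR (sg b (g * h * Y)) Y e1 hY (g * h)
    have e3 : sg b (g * h * Y) * (g * h * Y) = 0 := by rw [← mul_assoc]; exact e2
    have e4 : sg b (g * h * Y) = 0 := by
      apply zero_of_sg P
      rw [sg_sg]
      exact e3
    have e5 := congrArg (sg b) e4
    rwa [sg_sg, map_zero] at e5

theorem eig_step (P : Pack (Simp n) len b bar C D) {i j : ℕ} (F : Set (Set ℕ)) (R : Set ℕ)
    (hKR : ∀ K ∈ F, Meets n K R)
    (w w' : Equiv.Perm (Fin n)) (hs : RS i j w⁻¹ w'⁻¹)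
    (hr : ∀ p, p + 1 < n → p ≠ j → p ∉ R → vl w'⁻¹ p < vl w'⁻¹ (p + 1))
    (X : H) (hX : X ∈ eigIdeal C F) (h0 : D w * X = 0) : D w' * X = 0 := by
  obtain ⟨hi, hj, hij, h1, h2, h3, h4, h5⟩ := hs
  rw [← dn_iff hi] at h1
  rw [← up_iff hj] at h2
  rw [← dn_iff hj] at h3
  rw [← up_iff hi] at h4
  set Y : H := D w' * X with hY
  have hst := star (lenData n) P.hd P.bd P.kl P.dd (s := sim n i) (t := sim n j) (w := w) (w' := w')
    (mem_simp hi) (mem_simp hj) h2 h4 h1 (star_uniq hi hj hij w⁻¹ w'⁻¹ h1 h2 h3 h4 h5) h5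
    (sim_ne hi hj (by omega))
  have hkill : ∀ p, p + 1 < n → p ∉ R → C (sim n p) * Y = 0 := by
    intro p hp hpR
    by_cases hpj : p = j
    · subst hpj
      rw [hY, ← mul_assoc, ← hst, mul_assoc, mul_assoc, h0, mul_zero, mul_zero]
    · rw [hY, ← mul_assoc, kill (lenData n) P.hd P.bd P.kl P.dd (mem_simp hp)
        ((up_iff hp _).mpr (hr p hp hpj hpR)), zero_mul]
  have hI : ∀ Z ∈ eigIdeal C F, ∀ h : H, Z * h * Y = 0 := by
    intro Z hZ h
    unfold eigIdeal at hZ
    induction hZ using Submodule.span_induction with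
    | mem Z hZ =>
      obtain ⟨K, hK, h₁, g, h₂, hg, rfl⟩ := hZ
      have := eig_kill2 P K R (hKR K hK) g Y hg hkill (h₂ * h)
      calc h₁ * g * h₂ * h * Y = h₁ * (g * (h₂ * h) * Y) := by noncomm_ring
        _ = 0 := by rw [this, mul_zero]
    | zero => rw [zero_mul, zero_mul]
    | add Z Z' _ _ ih ih' => rw [add_mul, add_mul, ih, ih', add_zero]
    | smul a Z _ ih => rw [smul_mul_assoc, smul_mul_assoc, ih, smul_zero]
  have hYI : Y ∈ eigIdeal C F := by
    have : ∀ Z ∈ eigIdeal C F, D w' * Z ∈ eigIdeal C F := by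
      intro Z hZ
      unfold eigIdeal at hZ ⊢
      induction hZ using Submodule.span_induction with
      | mem Z hZ =>
        obtain ⟨K, hK, h₁, g, h₂, hg, rfl⟩ := hZ
        exact Submodule.subset_span ⟨K, hK, D w' * h₁, g, h₂, hg, by noncomm_ring⟩
      | zero => rw [mul_zero]; exact Submodule.zero_mem _
      | add Z Z' _ _ ih ih' => rw [mul_add]; exact Submodule.add_mem _ ih ih'
      | smul a Z _ ih => rw [mul_smul_comm]; exact Submodule.smul_mem _ _ ih
    exact this X hX
  exact semiprime P Y (fun h => hI Y hYI h)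

theorem eig_main (hb : IsHecke b) (hbar : IsBar b bar) (hC : IsKL b bar C) (hD : IsDual b C D)
    (F : Set (Set ℕ)) (w w' : Equiv.Perm (Fin n)) (hs : Relation.ReflTransGen (GoodStep F) w w')
    (X : H) (a : A) (ha : a ≠ 0) (hX : a • X ∈ eigIdeal C F)
    (h : D w * X = 0) : D w' * X = 0 := by
  have P : Pack (Simp n) len b bar C D :=
    ⟨hb.toHData, hbar.toBarData, hbar.inv_right, hC.toKLData, hD.toDualData⟩
  have key : D w' * (a • X) = 0 := by
    induction hs with
    | refl => rw [mul_smul_comm, h, smul_zero]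
    | @tail u u' _ hu ih =>
      obtain ⟨i, j, ⟨hi, hj, hij, e1, e2, e3, e4, e5⟩, hM⟩ := hu
      rw [len_left u hi, ← len_inv u] at e1
      rw [len_left u hj, ← len_inv u] at e2
      rw [len_left u' hj, ← len_inv u'] at e3
      rw [len_left u' hi, ← len_inv u'] at e4
      have f1 : vl u⁻¹ (i + 1) < vl u⁻¹ i := by
        rw [← dn_iff hi]
        rcases (lenData n).right (sim n i) ⟨i, hi, rfl⟩ u⁻¹ with h | h <;> omega
      have f2 : vl u⁻¹ j < vl u⁻¹ (j + 1) := by
        rw [← up_iff hj]
        rcases (lenData n).right (sim n j) ⟨j, hj, rfl⟩ u⁻¹ with h | h <;> omega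
      have f3 : vl u'⁻¹ (j + 1) < vl u'⁻¹ j := by
        rw [← dn_iff hj]
        rcases (lenData n).right (sim n j) ⟨j, hj, rfl⟩ u'⁻¹ with h | h <;> omega
      have f4 : vl u'⁻¹ i < vl u'⁻¹ (i + 1) := by
        rw [← up_iff hi]
        rcases (lenData n).right (sim n i) ⟨i, hi, rfl⟩ u'⁻¹ with h | h <;> omega
      have f5 : u'⁻¹ = u⁻¹ * sim n i ∨ u'⁻¹ = u⁻¹ * sim n j := by
        rcases e5 with rfl | rfl
        · left; rw [mul_inv_rev, (lenData n).inv_s ⟨i, hi, rfl⟩]
        · right; rw [mul_inv_rev, (lenData n).inv_s ⟨j, hj, rfl⟩]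
      refine eig_step P F _ hM u u' ⟨hi, hj, hij, f1, f2, f3, f4, f5⟩ ?_ _ hX ih
      intro p hp hpj hpR
      rcases vl_or u'⁻¹ hp with h | h
      · exfalso
        apply hpR
        refine ⟨hp, hpj, ?_⟩
        rw [len_left u' hp, ← len_inv u']
        have := (dn_iff hp u'⁻¹).mpr h
        omega
      · exact h
  rw [mul_smul_comm] at key
  exact smul_ne b ha key

/-- `C x` is in the ideal of `K` when all elements of `K` are right descents of `x` -/
lemma C_mem_eigIdeal (P : Pack (Simp n) len b bar C D) (F : Set (Set ℕ)) (K : Set ℕ) (hK : K ∈ F)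
    (x : Equiv.Perm (Fin n))
    (hx : ∀ i ∈ K, i + 1 < n → len (x * sim n i) < len x) : C x ∈ eigIdeal C F := by
  apply Submodule.subset_span
  refine ⟨K, hK, 1, C x, 1, Or.inl ?_, by rw [one_mul, mul_one]⟩
  intro i hiK hi
  apply CC_dn P hi x
  rw [← dn_iff hi]
  have := hx i hiK hi
  rcases (lenData n).right (sim n i) (mem_simp hi) x with h | h <;> omega

/-- `C x` is in the ideal of `K` when all elements of `K` are left descents of `x` -/
lemma C_mem_eigIdeal_left (P : Pack (Simp n) len b bar C D) (F : Set (Set ℕ)) (K : Set ℕ) (hK : K ∈ F)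
    (x : Equiv.Perm (Fin n))
    (hx : ∀ i ∈ K, i + 1 < n → len (sim n i * x) < len x) : C x ∈ eigIdeal C F := by
  apply Submodule.subset_span
  refine ⟨K, hK, 1, C x, 1, Or.inr ?_, by rw [one_mul, mul_one]⟩
  intro i hiK hi
  have h1 := hx i hiK hi
  have h2 : C x⁻¹ * C (sim n i) = (v + vi) • C x⁻¹ := by
    apply CC_dn P hi x⁻¹
    rw [← dn_iff hi]
    rw [len_left x hi, ← len_inv x] at h1
    rcases (lenData n).right (sim n i) (mem_simp hi) x⁻¹ with h | h <;> omega
  have h3 := congrArg (sg b) h2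
  rw [sg_mul (lenData n) P.hd, sg_C (lenData n) P.hd P.bd P.kl, (lenData n).inv_s (mem_simp hi),
    map_smul, sg_C (lenData n) P.hd P.bd P.kl, inv_inv] at h3
  exact h3

end

end Pool.Agent.LibKLD42
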