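import Pool.Agent.LibKLD42.K5

set_option autoImplicit false
set_option linter.unusedSectionVars false
set_option linter.unusedSimpArgs false

namespace Pool.Agent.LibKLD42

open LaurentPolynomial

/-- the family of the pairs of neighbouring simple reflections -/
def pairs (n : ℕ) : Set (Set ℕ) := {K | ∃ k : ℕ, k + 2 < n ∧ K = {k, k + 1}}

/-- A left star operation `w → w'` such that `w'` has at most two left descents: the new one, `sim n j`,
and possibly one more, `sim n r`. -/
def TwoStep {n : ℕ} (w w' : Equiv.Perm (Fin n)) : Prop :=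
  ∃ i j r : ℕ, StarVia i j w w' ∧ ∀ p, p + 1 < n → p ≠ j → len (sim n p * w') < len w' → p = r

section

variable {n : ℕ}

/-- pairs of neighbours satisfy `Meets` with every set of at most one element -/
lemma meets_pairs (R : Set ℕ) (r : ℕ) (hR : R ⊆ {r}) : ∀ K ∈ pairs n, Meets n K R := by
  rintro K ⟨k, hk, rfl⟩ z
  have h01 : (⟨k, by omega⟩ : Fin n) < ⟨k + 1, by omega⟩ := by rw [Fin.lt_def]; simp
  have h12 : (⟨k + 1, by omega⟩ : Fin n) < ⟨k + 2, hk⟩ := by rw [Fin.lt_def]; simp
  have h02 : (⟨k, by omega⟩ : Fin n) < ⟨k + 2, hk⟩ := by rw [Fin.lt_def]; simp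
  set p : ℕ := (z ⟨k, by omega⟩ : ℕ)
  set q : ℕ := (z ⟨k + 1, by omega⟩ : ℕ)
  set s : ℕ := (z ⟨k + 2, hk⟩ : ℕ)
  have key : ∀ x y : ℕ, (x ≤ r ↔ y ≤ r) → ∀ r' ∈ R, ¬ (min x y ≤ r' ∧ r' < max x y) := by
    intro x y hxy r' hr'
    have : r' = r := by simpa using hR hr'
    subst this
    omega
  by_cases hp : p ≤ r <;> by_cases hq : q ≤ r <;> by_cases hs : s ≤ r
  · exact ⟨_, _, h01, by intro i h1 h2; simp at h1 h2 ⊢; omega, key p q (by tauto)⟩
  · exact ⟨_, _, h01, by intro i h1 h2; simp at h1 h2 ⊢; omega, key p q (by tauto)⟩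
  · exact ⟨_, _, h02, by intro i h1 h2; simp at h1 h2 ⊢; omega, key p s (by tauto)⟩
  · exact ⟨_, _, h12, by intro i h1 h2; simp at h1 h2 ⊢; omega, key q s (by tauto)⟩
  · exact ⟨_, _, h12, by intro i h1 h2; simp at h1 h2 ⊢; omega, key q s (by tauto)⟩
  · exact ⟨_, _, h02, by intro i h1 h2; simp at h1 h2 ⊢; omega, key p s (by tauto)⟩
  · exact ⟨_, _, h01, by intro i h1 h2; simp at h1 h2 ⊢; omega, key p q (by tauto)⟩
  · exact ⟨_, _, h01, by intro i h1 h2; simp at h1 h2 ⊢; omega, key p q (by tauto)⟩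

end

section

variable {n : ℕ} {H : Type} [Ring H] [Algebra A H]
  {b : Module.Basis (Equiv.Perm (Fin n)) A H} {bar : H →+* H} {C D : Equiv.Perm (Fin n) → H}

lemma dd_mem (P : Pack (Simp n) len b bar C D) {i j : ℕ} (hi : i + 1 < n) (hj : j + 1 < n)
    (hij : j = i + 1 ∨ i = j + 1) (x : Equiv.Perm (Fin n)) (h1 : vl x (i + 1) < vl x i)
    (h2 : vl x (j + 1) < vl x j) : C x ∈ eigIdeal C (pairs n) := by
  rcases hij with rfl | rfl
  · refine C_mem_eigIdeal P (pairs n) {i, i + 1} ⟨i, hj, rfl⟩ x ?_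
    intro k hk hkn
    have : vl x (k + 1) < vl x k := by
      simp only [Set.mem_insert_iff, Set.mem_singleton_iff] at hk
      rcases hk with rfl | rfl
      · exact h1
      · exact h2
    have := (dn_iff hkn x).mpr this
    omega
  · refine C_mem_eigIdeal P (pairs n) {j, j + 1} ⟨j, hi, rfl⟩ x ?_
    intro k hk hkn
    have : vl x (k + 1) < vl x k := by
      simp only [Set.mem_insert_iff, Set.mem_singleton_iff] at hk
      rcases hk with rfl | rfl
      · exact h2
      · exact h1
    have := (dn_iff hkn x).mpr this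
    omega

lemma star_mem (P : Pack (Simp n) len b bar C D) {i j : ℕ} (hi : i + 1 < n) (hj : j + 1 < n)
    (hij : j = i + 1 ∨ i = j + 1)
    (a : Equiv.Perm (Fin n)) (h1 : vl a (i + 1) < vl a i) (h2 : vl a j < vl a (j + 1))
    (h4 : vl (a * sim n j) i < vl (a * sim n j) (i + 1))
    (ha : C a ∈ eigIdeal C (pairs n)) : C (a * sim n j) ∈ eigIdeal C (pairs n) := by
  have e1 : C (a * sim n j) = C a * C (sim n j) - ∑ y, (mm len b C a (sim n j) y) • C y := by
    rw [CCs_up (lenData n) P.hd P.bd P.kl (mem_simp hj) ((up_iff hj a).mpr h2), add_sub_cancel_right]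
  rw [e1]
  apply Submodule.sub_mem
  · have : ∀ Z ∈ eigIdeal C (pairs n), ∀ h : H, Z * h ∈ eigIdeal C (pairs n) := by
      intro Z hZ h
      unfold eigIdeal at hZ ⊢
      induction hZ using Submodule.span_induction with
      | mem Z hZ =>
        obtain ⟨K, hK, h₁, g, h₂, hg, rfl⟩ := hZ
        exact Submodule.subset_span ⟨K, hK, h₁, g, h₂ * h, hg, by noncomm_ring⟩
      | zero => rw [zero_mul]; exact Submodule.zero_mem _
      | add Z Z' _ _ ih ih' => rw [add_mul]; exact Submodule.add_mem _ ih ih'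
      | smul a Z _ ih => rw [smul_mul_assoc]; exact Submodule.smul_mem _ _ ih
    exact this _ ha _
  · apply Submodule.sum_mem
    intro y _
    rw [← Int.cast_smul_eq_zsmul A]
    rcases vl_or y hj with k1 | k1
    · rcases vl_or y hi with k2 | k2
      · exact Submodule.smul_mem _ _ (dd_mem P hi hj hij y k2 k1)
      · rw [mm_eq P hj hi a y h1 k2 k1, if_neg]
        · simp
        · intro e
          have e3 : y = a * sim n i := by rw [← e, mul_assoc, sim_sq hi, mul_one]
          rw [e3] at k1 k2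
          exact not_both hi hj hij a h1 h2 k1 h4
    · rw [mm_zero hj a y k1]; simp

/-- all `C x` with `x` containing the pattern 321 are in the ideal of the pairs of neighbours -/
theorem nonfc_mem (P : Pack (Simp n) len b bar C D) (x : Equiv.Perm (Fin n)) (hx : ¬ FCp x) :
    C x ∈ eigIdeal C (pairs n) := by
  refine nonfc_induct (fun x => C x ∈ eigIdeal C (pairs n)) ?_ ?_ ?_ x hx
  · intro w i h h1 h2
    have hi : i + 1 < n := by omega
    have hj : i + 1 + 1 < n := by omega
    refine dd_mem P hi hj (Or.inl rfl) w ?_ ?_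
    · rw [vl_of w hi, vl_of w (Nat.lt_of_succ_lt hi)]; exact h2
    · rw [vl_of w hj, vl_of w (Nat.lt_of_succ_lt hj)]; exact h1
  · intro w i h h1 h2 hp
    have hi : i + 1 < n := by omega
    have hj : i + 1 + 1 < n := by omega
    have g1 : vl w (i + 1) < vl w (i + 2) := by rw [vl_of w hi, vl_of w h]; exact h1
    have g2 : vl w (i + 2) < vl w i := by rw [vl_of w h, vl_of w (Nat.lt_of_succ_lt hi)]; exact h2
    have e : w * sim n i * sim n i = w := by rw [mul_assoc, sim_sq hi, mul_one]
    change C w ∈ eigIdeal C (pairs n)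
    rw [← e]
    refine star_mem P (i := i + 1) (j := i) hj hi (Or.inr rfl) (w * sim n i) ?_ ?_ ?_ hp
    · rw [vl_mul w hi hj, vl_mul w hi (Nat.lt_of_succ_lt hj), if_neg (by omega), if_neg (by omega),
        if_neg (by omega), if_pos rfl]
      exact g2
    · rw [vl_mul w hi hi, vl_mul w hi (Nat.lt_of_succ_lt hi)]
      simp
      omega
    · rw [e]; exact g1
  · intro w i h h1 h2 hp
    have hi : i + 1 < n := by omega
    have hj : i + 1 + 1 < n := by omega
    have g1 : vl w (i + 2) < vl w i := by rw [vl_of w (Nat.lt_of_succ_lt hi), vl_of w h]; exact h1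
    have g2 : vl w i < vl w (i + 1) := by rw [vl_of w hi, vl_of w (Nat.lt_of_succ_lt hi)]; exact h2
    have e : w * sim n (i + 1) * sim n (i + 1) = w := by rw [mul_assoc, sim_sq hj, mul_one]
    change C w ∈ eigIdeal C (pairs n)
    rw [← e]
    refine star_mem P (i := i) (j := i + 1) hi hj (Or.inl rfl) (w * sim n (i + 1)) ?_ ?_ ?_ hp
    · rw [vl_mul w hj hi, vl_mul w hj (Nat.lt_of_succ_lt hi), if_pos rfl, if_neg (by omega),
        if_neg (by omega)]
      exact g1
    · have g1' : vl w (i + 1 + 1) < vl w i := g1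
      rw [vl_mul w hj hj, vl_mul w hj (Nat.lt_of_succ_lt hj)]
      simp
      omega
    · rw [e]; exact g2

/-- the steps `w → w'` with at most two left descents of `w'`, for all `x`, `y` containing 321 -/
theorem two_main (hb : IsHecke b) (hbar : IsBar b bar) (hC : IsKL b bar C) (hD : IsDual b C D)
    (x y w w' : Equiv.Perm (Fin n)) (hx : ¬ FCp x) (hy : ¬ FCp y)
    (hs : Relation.ReflTransGen TwoStep w w') (h : D w * C x = D w * C y) :
    D w' * C x = D w' * C y := by
  have P : Pack (Simp n) len b bar C D :=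
    ⟨hb.toHData, hbar.toBarData, hbar.inv_right, hC.toKLData, hD.toDualData⟩
  have hs' : Relation.ReflTransGen (GoodStep (pairs n)) w w' := by
    refine Relation.ReflTransGen.mono ?_ _ _ hs
    rintro u u' ⟨i, j, r, h1, h2⟩
    refine ⟨i, j, h1, meets_pairs _ r ?_⟩
    rintro p ⟨hp, hpj, hl⟩
    exact h2 p hp hpj hl
  have key := eig_main hb hbar hC hD (pairs n) w w' hs' (C x - C y) 1 one_ne_zero
    (by rw [one_smul]; exact Submodule.sub_mem _ (nonfc_mem P x hx) (nonfc_mem P y hy))
    (by rw [mul_sub, h, sub_self])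
  rw [mul_sub] at key
  exact sub_eq_zero.mp key

end

end Pool.Agent.LibKLD42
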