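import Pool.Agent.LibKLD42.K6

set_option autoImplicit false
set_option linter.unusedSectionVars false
set_option linter.unusedSimpArgs false

namespace Pool.Agent.LibKLD42

open LaurentPolynomial

/-- All left descents other than `sim n j` of the elements `a` with `c a ≠ 0` and left descent `sim n j`. -/
def otherDesc (n : ℕ) (c : Equiv.Perm (Fin n) → A) (j : ℕ) : Set ℕ :=
  {p | p + 1 < n ∧ p ≠ j ∧
    ∃ a, c a ≠ 0 ∧ len (sim n j * a) < len a ∧ len (sim n p * a) < len a}

section

variable {n : ℕ} {H : Type} [Ring H] [Algebra A H]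
  {b : Module.Basis (Equiv.Perm (Fin n)) A H} {bar : H →+* H} {C D : Equiv.Perm (Fin n) → H}

lemma kill_len (P : Pack (Simp n) len b bar C D) {p : ℕ} (hp : p + 1 < n) (w : Equiv.Perm (Fin n))
    (h : ¬ len (sim n p * w) < len w) : C (sim n p) * D w = 0 := by
  apply kill (lenData n) P.hd P.bd P.kl P.dd (mem_simp hp)
  rw [len_left w hp, ← len_inv w] at h
  rcases (lenData n).right (sim n p) ⟨p, hp, rfl⟩ w⁻¹ with h' | h' <;> omega

lemma eig_zero (P : Pack (Simp n) len b bar C D) (F : Set (Set ℕ)) (R : Set ℕ)
    (hKR : ∀ K ∈ F, Meets n K R) (X g : H) (hX : X ∈ eigIdeal C F)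
    (hkill : ∀ p, p + 1 < n → p ∉ R → C (sim n p) * (g * X) = 0) : g * X = 0 := by
  set Y : H := g * X with hY
  have hI : ∀ Z ∈ eigIdeal C F, ∀ h : H, Z * h * Y = 0 := by
    intro Z hZ h
    unfold eigIdeal at hZ
    induction hZ using Submodule.span_induction with
    | mem Z hZ =>
      obtain ⟨K, hK, h₁, g, h₂, hg, rfl⟩ := hZ
      have := eig_kill2 P K R (hKR K hK) g Y hg hkill (h₂ * h)
      calc h₁ * g * h₂ * h * Y = h₁ * (g * (h₂ * h) * Y) := by noncomm_ring
        _ = 0 := by rw [this, mul_zero]
    | zero => rw [zero_mul, zero_mul]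
    | add Z Z' _ _ ih ih' => rw [add_mul, add_mul, ih, ih', add_zero]
    | smul a Z _ ih => rw [smul_mul_assoc, smul_mul_assoc, ih, smul_zero]
  have hYI : Y ∈ eigIdeal C F := by
    have : ∀ Z ∈ eigIdeal C F, g * Z ∈ eigIdeal C F := by
      intro Z hZ
      unfold eigIdeal at hZ ⊢
      induction hZ using Submodule.span_induction with
      | mem Z hZ =>
        obtain ⟨K, hK, h₁, g', h₂, hg, rfl⟩ := hZ
        exact Submodule.subset_span ⟨K, hK, g * h₁, g', h₂, hg, by noncomm_ring⟩
      | zero => rw [mul_zero]; exact Submodule.zero_mem _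
      | add Z Z' _ _ ih ih' => rw [mul_add]; exact Submodule.add_mem _ ih ih'
      | smul a Z _ ih => rw [mul_smul_comm]; exact Submodule.smul_mem _ _ ih
    exact this X hX
  exact semiprime P Y (fun h => hI Y hYI h)

/-- the plus part, for arbitrary combinations `u` of the dual basis -/
theorem plus_gen (hb : IsHecke b) (hbar : IsBar b bar) (hC : IsKL b bar C) (hD : IsDual b C D)
    (F : Set (Set ℕ)) (j : ℕ) (hj : j + 1 < n) (c : Equiv.Perm (Fin n) → A)
    (hM : ∀ K ∈ F, Meets n K (otherDesc n c j))
    (X : H) (a : A) (ha : a ≠ 0) (hX : a • X ∈ eigIdeal C F)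
    (h : (∑ w, c w • D w) * X = 0) :
    (∑ w, (if len (sim n j * w) < len w then c w else 0) • D w) * X = 0 := by
  have P : Pack (Simp n) len b bar C D :=
    ⟨hb.toHData, hbar.toBarData, hbar.inv_right, hC.toKLData, hD.toDualData⟩
  have h' : (∑ w, c w • D w) * (a • X) = 0 := by rw [mul_smul_comm, h, smul_zero]
  have key := eig_zero P F (otherDesc n c j) hM (a • X)
    (∑ w, (if len (sim n j * w) < len w then c w else 0) • D w) hX ?_
  · rw [mul_smul_comm] at key
    exact smul_ne b ha key
  · intro p hp hpR
    rw [← mul_assoc]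
    by_cases hpj : p = j
    · subst hpj
      have e : C (sim n p) * (∑ w, (if len (sim n p * w) < len w then c w else 0) • D w) =
          C (sim n p) * (∑ w, c w • D w) := by
        rw [Finset.mul_sum, Finset.mul_sum]
        apply Finset.sum_congr rfl
        intro w _
        by_cases hw : len (sim n p * w) < len w
        · rw [if_pos hw]
        · rw [if_neg hw, zero_smul, mul_zero, mul_smul_comm, kill_len P hp w hw, smul_zero]
      rw [e, mul_assoc, h', mul_zero]
    · have e : C (sim n p) * (∑ w, (if len (sim n j * w) < len w then c w else 0) • D w) = 0 := by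
        rw [Finset.mul_sum]
        apply Finset.sum_eq_zero
        intro w _
        by_cases hw : len (sim n j * w) < len w
        · rw [if_pos hw]
          by_cases hcw : c w = 0
          · rw [hcw, zero_smul, mul_zero]
          · rw [mul_smul_comm, kill_len P hp w (fun hl => hpR ⟨hp, hpj, w, hcw, hw, hl⟩), smul_zero]
        · rw [if_neg hw, zero_smul, mul_zero]
      rw [e, zero_mul]

end

end Pool.Agent.LibKLD42
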