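import Pool.Agent.LibKLD42.K7

set_option autoImplicit false
set_option linter.unusedSectionVars false
set_option linter.unusedSimpArgs false

namespace Pool.Agent.LibKLD42

open LaurentPolynomial

/-- The left descents of `w'` which are not in `T`. -/
def restDesc {n : ℕ} (w' : Equiv.Perm (Fin n)) (T : Set ℕ) : Set ℕ :=
  {p : ℕ | p + 1 < n ∧ p ∉ T ∧ len (sim n p * w') < len w'}

/-- `T` consists of (indices of) simple reflections `t` such that `w'` arises from some `u` in `Z` by a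
left star operation with the new left descent `t`. -/
def Covered {n : ℕ} (Z : Set (Equiv.Perm (Fin n))) (w' : Equiv.Perm (Fin n)) (T : Set ℕ) : Prop :=
  ∀ j ∈ T, ∃ i : ℕ, ∃ u ∈ Z, StarVia i j u w'

/-- `w'` is in the smallest set `Z` which contains `w` and with the following property: if `T` is
`Covered` by `Z` for some `w'` and each `K` in `F` satisfies `Meets` with the remaining left descents of
`w'`, then `w'` is in `Z`. -/
def Reach {n : ℕ} (F : Set (Set ℕ)) (w w' : Equiv.Perm (Fin n)) : Prop :=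
  ∀ Z : Set (Equiv.Perm (Fin n)), w ∈ Z →
    (∀ w' T, Covered Z w' T → (∀ K ∈ F, Meets n K (restDesc w' T)) → w' ∈ Z) → w' ∈ Z

/-- The same with the condition that at most one left descent remains. -/
def Reach1 {n : ℕ} (w w' : Equiv.Perm (Fin n)) : Prop :=
  ∀ Z : Set (Equiv.Perm (Fin n)), w ∈ Z →
    (∀ w' T r, Covered Z w' T → restDesc w' T ⊆ {r} → w' ∈ Z) → w' ∈ Z

section

variable {n : ℕ} {H : Type} [Ring H] [Algebra A H]
  {b : Module.Basis (Equiv.Perm (Fin n)) A H} {bar : H →+* H} {C D : Equiv.Perm (Fin n) → H}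

lemma star_kill (P : Pack (Simp n) len b bar C D) {i j : ℕ} (u u' : Equiv.Perm (Fin n))
    (h : StarVia i j u u') (X : H) (h0 : D u * X = 0) : C (sim n j) * (D u' * X) = 0 := by
  obtain ⟨hi, hj, hij, e1, e2, e3, e4, e5⟩ := h
  rw [len_left u hi, ← len_inv u] at e1
  rw [len_left u hj, ← len_inv u] at e2
  rw [len_left u' hj, ← len_inv u'] at e3
  rw [len_left u' hi, ← len_inv u'] at e4
  have f1 : vl u⁻¹ (i + 1) < vl u⁻¹ i := by
    rw [← dn_iff hi]
    rcases (lenData n).right (sim n i) ⟨i, hi, rfl⟩ u⁻¹ with h | h <;> omega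
  have f2 : vl u⁻¹ j < vl u⁻¹ (j + 1) := by
    rw [← up_iff hj]
    rcases (lenData n).right (sim n j) ⟨j, hj, rfl⟩ u⁻¹ with h | h <;> omega
  have f3 : vl u'⁻¹ (j + 1) < vl u'⁻¹ j := by
    rw [← dn_iff hj]
    rcases (lenData n).right (sim n j) ⟨j, hj, rfl⟩ u'⁻¹ with h | h <;> omega
  have f4 : vl u'⁻¹ i < vl u'⁻¹ (i + 1) := by
    rw [← up_iff hi]
    rcases (lenData n).right (sim n i) ⟨i, hi, rfl⟩ u'⁻¹ with h | h <;> omega
  have f5 : u'⁻¹ = u⁻¹ * sim n i ∨ u'⁻¹ = u⁻¹ * sim n j := by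
    rcases e5 with rfl | rfl
    · left; rw [mul_inv_rev, (lenData n).inv_s ⟨i, hi, rfl⟩]
    · right; rw [mul_inv_rev, (lenData n).inv_s ⟨j, hj, rfl⟩]
  have h1 := (dn_iff hi u⁻¹).mpr f1
  have h2 := (up_iff hj u⁻¹).mpr f2
  have h3 := (dn_iff hj u'⁻¹).mpr f3
  have h4 := (up_iff hi u'⁻¹).mpr f4
  have hst := star (lenData n) P.hd P.bd P.kl P.dd (s := sim n i) (t := sim n j) (w := u) (w' := u')
    (mem_simp hi) (mem_simp hj) h2 h4 h1 (star_uniq hi hj hij u⁻¹ u'⁻¹ h1 h2 h3 h4 f5) f5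
    (sim_ne hi hj (by omega))
  rw [← mul_assoc, ← hst, mul_assoc, mul_assoc, h0, mul_zero, mul_zero]

theorem multi_step (P : Pack (Simp n) len b bar C D) (F : Set (Set ℕ)) (X : H) (hX : X ∈ eigIdeal C F)
    (w' : Equiv.Perm (Fin n)) (T : Set ℕ) (hT : Covered {u | D u * X = 0} w' T)
    (hM : ∀ K ∈ F, Meets n K (restDesc w' T)) : D w' * X = 0 := by
  apply eig_zero P F (restDesc w' T) hM X (D w') hX
  intro p hp hpR
  by_cases hpT : p ∈ T
  · obtain ⟨i, u, hu, hs⟩ := hT p hpT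
    exact star_kill P u w' hs X hu
  · rw [← mul_assoc, kill_len P hp w' (fun hl => hpR ⟨hp, hpT, hl⟩), zero_mul]

theorem reach_main (hb : IsHecke b) (hbar : IsBar b bar) (hC : IsKL b bar C) (hD : IsDual b C D)
    (F : Set (Set ℕ)) (w w' : Equiv.Perm (Fin n)) (hs : Reach F w w')
    (X : H) (a : A) (ha : a ≠ 0) (hX : a • X ∈ eigIdeal C F)
    (h : D w * X = 0) : D w' * X = 0 := by
  have P : Pack (Simp n) len b bar C D :=
    ⟨hb.toHData, hbar.toBarData, hbar.inv_right, hC.toKLData, hD.toDualData⟩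
  have key : D w' * (a • X) = 0 := by
    refine hs {u | D u * (a • X) = 0} ?_ ?_
    · change D w * (a • X) = 0
      rw [mul_smul_comm, h, smul_zero]
    · intro w' T hT hM
      exact multi_step P F (a • X) hX w' T hT hM
  rw [mul_smul_comm] at key
  exact smul_ne b ha key

theorem reach1_main (hb : IsHecke b) (hbar : IsBar b bar) (hC : IsKL b bar C) (hD : IsDual b C D)
    (x y w w' : Equiv.Perm (Fin n)) (hx : ¬ FCp x) (hy : ¬ FCp y)
    (hs : Reach1 w w') (h : D w * C x = D w * C y) : D w' * C x = D w' * C y := by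
  have P : Pack (Simp n) len b bar C D :=
    ⟨hb.toHData, hbar.toBarData, hbar.inv_right, hC.toKLData, hD.toDualData⟩
  have hs' : Reach (pairs n) w w' := by
    intro Z hw hZ
    apply hs Z hw
    intro w' T r hT hr
    exact hZ w' T hT (meets_pairs _ r hr)
  have key := reach_main hb hbar hC hD (pairs n) w w' hs' (C x - C y) 1 one_ne_zero
    (by rw [one_smul]; exact Submodule.sub_mem _ (nonfc_mem P x hx) (nonfc_mem P y hy))
    (by rw [mul_sub, h, sub_self])
  rw [mul_sub] at key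
  exact sub_eq_zero.mp key

end

end Pool.Agent.LibKLD42
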