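import Pool.Agent.LibKLD42.K5

set_option autoImplicit false
set_option linter.unusedSectionVars false
set_option linter.unusedSimpArgs false

namespace Pool.Agent.LibKLD42

open LaurentPolynomial

/-- `-v` as a unit -/
noncomputable def negv : Aˣ where
  val := -v
  inv := -vi
  val_inv := by rw [neg_mul_neg, v_mul_vi]
  inv_val := by rw [neg_mul_neg, vi_mul_v]

/-- the ring homomorphism with `v ↦ -v` -/
noncomputable def ng : A →+* A := LaurentPolynomial.eval₂ (LaurentPolynomial.C) negv

lemma negv_pow (k : ℤ) : ((negv ^ k : Aˣ) : A) = LaurentPolynomial.C (((-1 : ℤˣ) ^ k : ℤˣ) : ℤ) * T k := by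
  induction k using Int.induction_on with
  | zero => simp
  | succ k ih =>
    rw [zpow_add_one, Units.val_mul, ih, zpow_add_one, Units.val_mul, T_add]
    have : ((negv : Aˣ) : A) = -v := rfl
    rw [this]
    simp only [Units.val_neg, Units.val_one, mul_neg, mul_one, map_neg, v]
    ring
  | pred k ih =>
    rw [zpow_sub_one, Units.val_mul, ih, zpow_sub_one, Units.val_mul, T_sub]
    have : ((negv⁻¹ : Aˣ) : A) = -vi := rfl
    rw [this]
    have h2 : (((-1 : ℤˣ)⁻¹ : ℤˣ) : ℤ) = -1 := by simp
    rw [h2]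
    simp only [mul_neg, mul_one, map_neg, vi]
    ring

lemma ng_coeff (a : A) (k : ℤ) : (ng a).coeff k = (((-1 : ℤˣ) ^ k : ℤˣ) : ℤ) * a.coeff k := by
  induction a using LaurentPolynomial.induction_on' with
  | add p q hp hq => rw [map_add, AddMonoidAlgebra.coeff_add, AddMonoidAlgebra.coeff_add, Finsupp.add_apply,
      Finsupp.add_apply, hp, hq]; ring
  | C_mul_T m r =>
    unfold ng
    rw [eval₂_C_mul_T, negv_pow, ← mul_assoc, ← map_mul, ← single_eq_C_mul_T, ← single_eq_C_mul_T,
      AddMonoidAlgebra.coeff_single, AddMonoidAlgebra.coeff_single, Finsupp.single_apply, Finsupp.single_apply]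
    by_cases h : m = k
    · subst h; simp [mul_comm]
    · simp [h]

lemma ng_v : ng v = -v := by
  unfold ng v
  rw [eval₂_T]
  simp only [zpow_one]
  rfl

lemma ng_vi : ng vi = -vi := by
  unfold ng vi
  rw [eval₂_T]
  simp only [zpow_neg, zpow_one]
  rfl

lemma pos_mul (f g : A) (hf : ∀ k : ℤ, k ≤ 0 → f.coeff k = 0) (hg : ∀ k : ℤ, k < 0 → g.coeff k = 0) (k : ℤ)
    (hk : k ≤ 0) : (f * g).coeff k = 0 := by
  classical
  by_contra hne
  have h1 : k ∈ (f * g).coeff.support := by simpa using hne
  have h2 := AddMonoidAlgebra.support_coeff_mul_subset f g h1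
  rw [Finset.mem_add] at h2
  obtain ⟨i, hi, j, hj, hij⟩ := h2
  rw [Finsupp.mem_support_iff] at hi hj
  have h3 : 0 < i := by
    by_contra h
    exact hi (hf i (by omega))
  have h4 : 0 ≤ j := by
    by_contra h
    exact hj (hg j (by omega))
  omega

end Pool.Agent.LibKLD42
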