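import Pool.Agent.LibKLD42.M1

set_option autoImplicit false
set_option linter.unusedSectionVars false
set_option linter.unusedSimpArgs false

namespace Pool.Agent.LibKLD42

open LaurentPolynomial

section

variable {W : Type} [Group W] [Fintype W] [DecidableEq W] {S : Set W} {l : W → ℕ}
  (L : LenData S l) {H : Type} [Ring H] [Algebra A H] {b : Module.Basis W A H}
  (HD : HData S l b) {bar : H →+* H} (BD : BarData b bar) {C : W → H}
  (KL : KLData l b bar C) {D : W → H} (DD : DualData b C D)

/-- the additive map with `a • b y ↦ a(-v) • bar (b y)` -/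
noncomputable def sp (b : Module.Basis W A H) (bar : H →+* H) (x : H) : H :=
  ∑ y, ng (b.repr x y) • bar (b y)

lemma sp_add (x y : H) : sp b bar (x + y) = sp b bar x + sp b bar y := by
  unfold sp
  rw [← Finset.sum_add_distrib]
  apply Finset.sum_congr rfl
  intro z _
  rw [map_add, Finsupp.add_apply, map_add, add_smul]

lemma sp_smul (a : A) (x : H) : sp b bar (a • x) = ng a • sp b bar x := by
  unfold sp
  rw [Finset.smul_sum]
  apply Finset.sum_congr rfl
  intro z _
  rw [map_smul, Finsupp.smul_apply, smul_eq_mul, map_mul, mul_smul]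

lemma sp_b (y : W) : sp b bar (b y) = bar (b y) := by
  unfold sp
  rw [Finset.sum_eq_single y]
  · rw [b.repr_self, Finsupp.single_eq_same, map_one, one_smul]
  · intro z _ hz
    rw [b.repr_self, Finsupp.single_eq_of_ne hz, map_zero, zero_smul]
  · intro h; exact absurd (Finset.mem_univ _) h

lemma sp_sum {ι : Type} (s : Finset ι) (f : ι → H) : sp b bar (∑ i ∈ s, f i) = ∑ i ∈ s, sp b bar (f i) := by
  classical
  induction s using Finset.induction_on with
  | empty => simp [sp]
  | insert a s ha ih => rw [Finset.sum_insert ha, Finset.sum_insert ha, sp_add, ih]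

include L HD BD in
lemma sp_mul_bs {s : W} (hs : s ∈ S) (x : H) : sp b bar (x * b s) = sp b bar x * bar (b s) := by
  have key : ∀ y : W, sp b bar (b y * b s) = bar (b y) * bar (b s) := by
    intro y
    rw [← map_mul bar]
    rcases L.right s hs y with h | h
    · rw [bs_up L HD hs h, sp_b]
    · rw [bs_dn L HD hs h, sp_add, sp_smul, sp_b, sp_b, map_add, BD.semi, map_sub, map_sub, ng_v, ng_vi,
        invert_v, invert_vi]
      congr 2
      ring
  conv_lhs => rw [← b.sum_repr x, Finset.sum_mul, sp_sum]
  conv_rhs => rw [← b.sum_repr x, sp_sum, Finset.sum_mul]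
  apply Finset.sum_congr rfl
  intro y _
  rw [smul_mul_assoc, sp_smul, key, sp_smul, sp_b, smul_mul_assoc]

include L HD BD KL in
lemma sp_mul_C {s : W} (hs : s ∈ S) (x : H) :
    sp b bar (x * C s) = sp b bar x * (C s - (v + vi) • (1 : H)) := by
  rw [C_s L HD BD KL hs, mul_add, sp_add, sp_mul_bs L HD BD hs, mul_smul_comm, sp_smul, mul_one, ng_v,
    bar_bs L HD BD hs, mul_add, mul_sub, mul_add, mul_smul_comm, mul_smul_comm, mul_smul_comm, mul_one,
    neg_smul, sub_smul, add_smul]
  abel

/-- the product of the `C s` along a word -/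
def wordC (C : W → H) (w : List W) : H := (w.map C).prod

/-- the product of the `C s - (v + v⁻¹)` along a word -/
noncomputable def wordE (C : W → H) (w : List W) : H := (w.map (fun s => C s - (v + vi) • (1 : H))).prod

include L HD BD KL in
lemma sp_word (w : List W) (hw : ∀ s ∈ w, s ∈ S) : sp b bar (wordC C w) = wordE C w := by
  induction w using List.reverseRecOn with
  | nil =>
    unfold wordC wordE
    simp only [List.map_nil, List.prod_nil]
    rw [← b_one L HD, sp_b, b_one L HD, map_one]
  | append_singleton w s ih =>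
    have e1 : wordC C (w ++ [s]) = wordC C w * C s := by unfold wordC; simp
    have e2 : wordE C (w ++ [s]) = wordE C w * (C s - (v + vi) • (1 : H)) := by unfold wordE; simp
    rw [e1, e2, sp_mul_C L HD BD KL (hw s (by simp)), ih (fun t ht => hw t (by simp [ht]))]

include L HD BD in
/-- the top coefficient of a bar invariant element is bar invariant -/
lemma top_inv (w0 : W) (hmax : ∀ y, l y ≤ l w0) (h : H) (hb : bar h = h) :
    invert (b.repr h w0) = b.repr h w0 := by
  have e1 : bar h = ∑ u, (invert (b.repr h u)) • bar (b u) := by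
    conv_lhs => rw [← b.sum_repr h, map_sum]
    apply Finset.sum_congr rfl
    intro u _
    exact BD.semi _ _
  have e2 : b.repr (bar h) w0 = ∑ u, (invert (b.repr h u)) * b.repr (bar (b u)) w0 := by
    rw [e1, map_sum, Finsupp.finsetSum_apply]
    apply Finset.sum_congr rfl
    intro u _
    rw [map_smul, Finsupp.smul_apply, smul_eq_mul]
  rw [hb] at e2
  conv_rhs => rw [e2]
  rw [Finset.sum_eq_single w0]
  · have e3 : b.repr (bar (b w0)) w0 = 1 := by
      have := bar_tri L HD BD _ w0 rfl w0 le_rfl
      rw [map_sub, Finsupp.sub_apply, sub_eq_zero, b.repr_self, Finsupp.single_eq_same] at this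
      exact this
    rw [e3, mul_one]
  · intro u _ hu
    have := bar_tri L HD BD _ u rfl w0 (hmax u)
    rw [map_sub, Finsupp.sub_apply, sub_eq_zero, b.repr_self, Finsupp.single_eq_of_ne (Ne.symm hu)] at this
    rw [this, mul_zero]
  · intro h; exact absurd (Finset.mem_univ _) h

include KL BD L HD in
lemma bar_wordE (w : List W) : bar (wordE C w) = wordE C w := by
  induction w with
  | nil => unfold wordE; simp
  | cons s w ih =>
    have e : wordE C (s :: w) = (C s - (v + vi) • (1 : H)) * wordE C w := by unfold wordE; simp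
    rw [e, map_mul, ih, map_sub, KL.bar, BD.semi, map_one, map_add, invert_v, invert_vi, add_comm vi v]

include L HD BD KL DD in
/-- The duality `D (z w0) = C⁻ z * b w0` for `z` whose Kazhdan-Lusztig element is a product of the `C s`. -/
theorem dual_word (w0 : W) (hmax : ∀ y, l y ≤ l w0) (hinv : w0⁻¹ = w0)
    (hlen : ∀ y, l y⁻¹ + l (y * w0) = l w0)
    (w : List W) (hw : ∀ s ∈ w, s ∈ S) (z : W) (hz : C z = wordC C w) :
    D (z * w0) = wordE C w * b w0 := by
  have hE : wordE C w = ∑ y, ng (b.repr (C z) y) • bar (b y) := by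
    rw [← sp_word L HD BD KL w hw, ← hz]; rfl
  have hG : wordE C w * b w0 = ∑ y, ng (b.repr (C z) y) • b (y * w0) := by
    rw [hE, Finset.sum_mul]
    apply Finset.sum_congr rfl
    intro y _
    have e1 : b w0 = b y⁻¹ * b (y * w0) := by
      rw [HD.mul y⁻¹ (y * w0) (by rw [inv_mul_cancel_left]; exact (hlen y).symm), inv_mul_cancel_left]
    rw [smul_mul_assoc, e1, ← mul_assoc, BD.inv, one_mul]
  have hkey : ∀ u, tau b (wordE C w * b w0 * C u) = if u = (z * w0)⁻¹ then 1 else 0 := by
    intro u
    set c : A := tau b (wordE C w * b w0 * C u) with hc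
    have hc1 : invert c = c := by
      have e1 : c = b.repr (C u * wordE C w) w0 := by
        rw [repr_eq_tau L HD, hinv, hc, tau_comm L HD, ← mul_assoc]
      rw [e1]
      apply top_inv L HD BD w0 hmax
      rw [map_mul, KL.bar, bar_wordE L HD BD KL]
    have hc2 : c = ∑ y, ng (b.repr (C z) y) * b.repr (C u) (y * w0)⁻¹ := by
      rw [hc, hG, Finset.sum_mul, tau_sum]
      apply Finset.sum_congr rfl
      intro y _
      rw [smul_mul_assoc, tau_smul, tau_comm L HD, repr_eq_tau L HD (C u), inv_inv]
    -- coefficients of the terms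
    have hq : ∀ g k, k < (0 : ℤ) → (b.repr (C u) g).coeff k = 0 := by
      intro g k hk
      by_cases hg : g = u
      · rw [hg, KL.self, coeff_one, if_neg (by omega)]
      · exact KL.pos u g hg k (by omega)
    have hc3 : ∀ k : ℤ, k ≤ 0 → c.coeff k = (if u = (z * w0)⁻¹ then (1 : A) else 0).coeff k := by
      intro k hk
      rw [hc2, AddMonoidAlgebra.coeff_sum, Finsupp.finsetSum_apply, Finset.sum_eq_single z]
      · rw [KL.self, map_one, one_mul]
        by_cases hu : u = (z * w0)⁻¹
        · rw [← hu, if_pos rfl, KL.self]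
        · rw [if_neg hu, KL.pos u _ (fun h => hu h.symm) k hk]; simp
      · intro y _ hy
        apply pos_mul _ _ _ (fun k' hk' => hq _ k' hk') k hk
        intro k' hk'
        rw [ng_coeff, KL.pos z y hy k' hk', mul_zero]
      · intro h; exact absurd (Finset.mem_univ _) h
    ext k
    rcases le_or_gt k 0 with hk | hk
    · exact hc3 k hk
    · have h1 : c.coeff k = c.coeff (-k) := by
        conv_lhs => rw [← hc1, invert_apply]
      rw [h1, hc3 (-k) (by omega)]
      split_ifs
      · rw [coeff_one, coeff_one, if_neg (by omega), if_neg (by omega)]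
      · simp
  rw [← sub_eq_zero]
  apply nondegC L HD KL
  intro u
  rw [sub_mul, tau_sub, hkey u, DD, sub_self]

end

end Pool.Agent.LibKLD42
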