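import Pool.Agent.LibKLD42.M2
import Pool.Agent.LibKLD42.G3

set_option autoImplicit false
set_option linter.unusedSectionVars false
set_option linter.unusedSimpArgs false

namespace Pool.Agent.LibKLD42

open LaurentPolynomial

/-- `z` has a monomial Kazhdan-Lusztig element: for some reduced word of `z`, `C z` is the product of the
`C s` along this word. (By Deodhar and Billey-Warrington this holds exactly for the 321-hexagon-avoiding
permutations; we do not use this.) -/
def IsMonomial {n : ℕ} {H : Type} [Ring H] [Algebra A H] (C : Equiv.Perm (Fin n) → H)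
    (z : Equiv.Perm (Fin n)) : Prop :=
  ∃ ω : List ℕ, (∀ i ∈ ω, i + 1 < n) ∧ (ω.map (sim n)).prod = z ∧ ω.length = len z ∧
    C z = (ω.map (fun i => C (sim n i))).prod

section

variable {n : ℕ}

lemma vl_one' (k : ℕ) : vl (1 : Equiv.Perm (Fin n)) k = k := by
  unfold vl; split_ifs <;> simp

lemma vl_sim {i : ℕ} (hi : i + 1 < n) {k : ℕ} (hk : k < n) :
    vl (sim n i) k = if k = i then i + 1 else if k = i + 1 then i else k := by
  have h := vl_mul (1 : Equiv.Perm (Fin n)) hi hk
  rw [one_mul, vl_one', vl_one', vl_one'] at h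
  exact h

lemma len_ij {i j : ℕ} (hi : i + 1 < n) (hj : j + 1 < n) (hij : j = i + 1 ∨ i = j + 1) :
    len (sim n i * sim n j) = len (sim n i) + 1 := by
  rw [up_iff hj, vl_sim hi (by omega), vl_sim hi (by omega)]
  split_ifs <;> omega

lemma len_iji {i j : ℕ} (hi : i + 1 < n) (hj : j + 1 < n) (hij : j = i + 1 ∨ i = j + 1) :
    len (sim n i * sim n j * sim n i) = len (sim n i * sim n j) + 1 := by
  rw [up_iff hi, vl_mul _ hj (by omega), vl_mul _ hj (by omega), vl_sim hi (by omega), vl_sim hi (by omega),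
    vl_sim hi (by omega), vl_sim hi (by omega)]
  split_ifs <;> omega

lemma sim_braid {i j : ℕ} (hi : i + 1 < n) (hj : j + 1 < n) (hij : j = i + 1 ∨ i = j + 1) :
    sim n i * sim n j * sim n i = sim n j * sim n i * sim n j := by
  ext k
  simp only [Equiv.Perm.mul_apply]
  rw [sim_val hi, sim_val hj, sim_val hi, sim_val hj, sim_val hi, sim_val hj]
  split_ifs <;> omega

lemma card_asc (y : Equiv.Perm (Fin n)) : len (y * Fin.revPerm) =
    (Finset.univ.filter (fun p : Fin n × Fin n => p.1 < p.2 ∧ y p.1 < y p.2)).card := by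
  unfold len
  apply Finset.card_nbij' (fun p => (Fin.rev p.2, Fin.rev p.1)) (fun p => (Fin.rev p.2, Fin.rev p.1))
  · intro p hp
    simp only [Finset.coe_filter, Finset.mem_univ, true_and, Set.mem_setOf_eq, Equiv.Perm.mul_apply,
      Fin.revPerm_apply] at hp ⊢
    exact ⟨Fin.rev_lt_rev.mpr hp.1, hp.2⟩
  · intro p hp
    simp only [Finset.coe_filter, Finset.mem_univ, true_and, Set.mem_setOf_eq, Equiv.Perm.mul_apply,
      Fin.revPerm_apply, Fin.rev_rev] at hp ⊢
    exact ⟨Fin.rev_lt_rev.mpr hp.1, hp.2⟩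
  · intro p _; simp
  · intro p _; simp

lemma len_add_rev (y : Equiv.Perm (Fin n)) : len y + len (y * Fin.revPerm) =
    (Finset.univ.filter (fun p : Fin n × Fin n => p.1 < p.2)).card := by
  rw [card_asc]
  unfold len
  rw [← Finset.card_union_of_disjoint]
  · congr 1
    ext p
    simp only [Finset.mem_union, Finset.mem_filter, Finset.mem_univ, true_and]
    constructor
    · rintro (h | h) <;> exact h.1
    · intro h
      rcases lt_trichotomy (y p.2) (y p.1) with h1 | h1 | h1
      · exact Or.inl ⟨h, h1⟩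
      · exact absurd (y.injective h1) (ne_of_gt h)
      · exact Or.inr ⟨h, h1⟩
  · rw [Finset.disjoint_left]
    intro p hp hp'
    simp only [Finset.mem_filter, Finset.mem_univ, true_and] at hp hp'
    exact absurd hp.2 (not_lt.mpr hp'.2.le)

lemma rev_len : len (Fin.revPerm : Equiv.Perm (Fin n)) =
    (Finset.univ.filter (fun p : Fin n × Fin n => p.1 < p.2)).card := by
  have := len_add_rev (1 : Equiv.Perm (Fin n))
  rwa [len_one, zero_add, one_mul] at this

lemma rev_hlen (y : Equiv.Perm (Fin n)) : len y⁻¹ + len (y * Fin.revPerm) = len (Fin.revPerm : Equiv.Perm (Fin n)) := by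
  rw [len_inv, len_add_rev, rev_len]

lemma rev_max (y : Equiv.Perm (Fin n)) : len y ≤ len (Fin.revPerm : Equiv.Perm (Fin n)) := by
  have := rev_hlen y
  rw [len_inv] at this
  omega

lemma rev_inv : (Fin.revPerm : Equiv.Perm (Fin n))⁻¹ = Fin.revPerm := by
  rw [inv_eq_iff_mul_eq_one]
  ext k
  simp

end

section

variable {n : ℕ} {H : Type} [Ring H] [Algebra A H]
  {b : Module.Basis (Equiv.Perm (Fin n)) A H} {bar : H →+* H} {C D : Equiv.Perm (Fin n) → H}

lemma b_braid (P : Pack (Simp n) len b bar C D) {i j : ℕ} (hi : i + 1 < n) (hj : j + 1 < n)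
    (hij : j = i + 1 ∨ i = j + 1) :
    b (sim n i) * b (sim n j) * b (sim n i) = b (sim n j) * b (sim n i) * b (sim n j) := by
  rw [bs_up (lenData n) P.hd (mem_simp hj) (len_ij hi hj hij), bs_up (lenData n) P.hd (mem_simp hi) (len_iji hi hj hij),
    bs_up (lenData n) P.hd (mem_simp hi) (len_ij hj hi hij.symm),
    bs_up (lenData n) P.hd (mem_simp hj) (len_iji hj hi hij.symm), sim_braid hi hj hij]

/-- no nonzero `Y` with `C i * Y = (v + v⁻¹) Y` and `C j * Y = 0` for neighbours `i`, `j` -/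
lemma rank2 (P : Pack (Simp n) len b bar C D) {i j : ℕ} (hi : i + 1 < n) (hj : j + 1 < n)
    (hij : j = i + 1 ∨ i = j + 1) (Y : H) (h1 : C (sim n i) * Y = (v + vi) • Y) (h2 : C (sim n j) * Y = 0) :
    Y = 0 := by
  have e1 : b (sim n i) * Y = vi • Y := by
    have := C_s (lenData n) P.hd P.bd P.kl (mem_simp hi)
    rw [this, add_mul, smul_mul_assoc, one_mul, add_smul, add_comm] at h1
    exact add_left_cancel h1
  have e2 : b (sim n j) * Y = (-v) • Y := by
    have := C_s (lenData n) P.hd P.bd P.kl (mem_simp hj)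
    rw [this, add_mul, smul_mul_assoc, one_mul] at h2
    rw [neg_smul]
    exact eq_neg_of_add_eq_zero_left h2
  have e3 : b (sim n i) * b (sim n j) * b (sim n i) * Y = (-vi) • Y := by
    rw [mul_assoc, e1, mul_smul_comm, mul_assoc, e2, mul_smul_comm, e1, smul_smul, smul_smul]
    congr 1
    have := v_mul_vi
    linear_combination (-vi) * this
  have e4 : b (sim n j) * b (sim n i) * b (sim n j) * Y = v • Y := by
    rw [mul_assoc, e2, mul_smul_comm, mul_assoc, e1, mul_smul_comm, e2, smul_smul, smul_smul]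
    congr 1
    have := v_mul_vi
    linear_combination v * this
  rw [b_braid P hi hj hij, e4] at e3
  apply smul_ne b vv_ne
  rw [add_smul, e3, neg_smul, neg_add_cancel]

/-- the product of the `C s - (v + v⁻¹)` along the reversed word -/
noncomputable def re (n : ℕ) {H : Type} [Ring H] [Algebra A H] (C : Equiv.Perm (Fin n) → H) (ω : List ℕ) : H :=
  (ω.reverse.map (fun i => C (sim n i) - (v + vi) • (1 : H))).prod

lemma re_snoc (ω : List ℕ) (i : ℕ) :
    re n C (ω ++ [i]) = (C (sim n i) - (v + vi) • (1 : H)) * re n C ω := by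
  unfold re; simp

lemma re_nil : re n C [] = 1 := by unfold re; simp

lemma re_uniq (P : Pack (Simp n) len b bar C D) : ∀ (N : ℕ) (z : Equiv.Perm (Fin n)), len z = N → FCp z →
    ∀ ω ω' : List ℕ, Red n ω → wd n ω = z → Red n ω' → wd n ω' = z → re n C ω = re n C ω' := by
  intro N
  induction N using Nat.strong_induction_on with
  | _ N ih =>
    intro z hN hz ω ω' h1 h2 h3 h4
    rcases List.eq_nil_or_concat ω with rfl | ⟨ω1, i, rfl⟩
    · have : ω'.length = 0 := by
        rw [← h3.2, h4, ← h2, h1.2]; rfl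
      rw [List.length_eq_zero_iff.mp this]
    rcases List.eq_nil_or_concat ω' with rfl | ⟨ω1', j, rfl⟩
    · have : (ω1.concat i).length = 0 := by
        rw [← h1.2, h2, ← h4, h3.2]; rfl
      simp at this
    rw [List.concat_eq_append] at h1 h2 ⊢
    rw [List.concat_eq_append] at h3 h4 ⊢
    obtain ⟨hi, r1, w1, d1⟩ := red_split ω1 i h1
    obtain ⟨hj, r2, w2, d2⟩ := red_split ω1' j h3
    rw [h2] at w1 d1
    rw [h4] at w2 d2
    have l1 : len (z * sim n i) + 1 = len z := (dn_iff hi z).mpr d1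
    have l2 : len (z * sim n j) + 1 = len z := (dn_iff hj z).mpr d2
    have fc_dn' : ∀ {m : ℕ} (hm : m + 1 < n) (u : Equiv.Perm (Fin n)), FCp u → vl u (m + 1) < vl u m →
        FCp (u * sim n m) := by
      intro m hm u hu hd
      apply fc_dn hm u hu
      rw [Fin.lt_def]
      rwa [vl_of u hm, vl_of u (Nat.lt_of_succ_lt hm)] at hd
    have f1 : FCp (z * sim n i) := fc_dn' hi z hz d1
    have f2 : FCp (z * sim n j) := fc_dn' hj z hz d2
    rw [re_snoc, re_snoc]
    by_cases hij : i = j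
    · subst hij
      rw [ih _ (by omega) (z * sim n i) rfl f1 ω1 ω1' r1 w1 r2 w2]
    · have hfar : i + 1 < j ∨ j + 1 < i := by
        by_contra hc
        have hadj : j = i + 1 ∨ i = j + 1 := by omega
        have := fc_adj hi hj hadj z hz d1
        omega
      have d3 : vl (z * sim n i) (j + 1) < vl (z * sim n i) j := by
        rw [vl_mul z hi hj, vl_mul z hi (Nat.lt_of_succ_lt hj), if_neg (by omega), if_neg (by omega),
          if_neg (by omega), if_neg (by omega)]
        exact d2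
      have d4 : vl (z * sim n j) (i + 1) < vl (z * sim n j) i := by
        rw [vl_mul z hj hi, vl_mul z hj (Nat.lt_of_succ_lt hi), if_neg (by omega), if_neg (by omega),
          if_neg (by omega), if_neg (by omega)]
        exact d1
      obtain ⟨ω2, r3, w3⟩ := exists_red _ (z * sim n i * sim n j) rfl
      obtain ⟨r4, w4⟩ := red_snoc ω2 hj (z * sim n i) r3 w3 d3
      have w3' : wd n ω2 = z * sim n j * sim n i := by
        rw [w3, mul_assoc, sim_comm hi hj hfar, ← mul_assoc]
      obtain ⟨r5, w5⟩ := red_snoc ω2 hi (z * sim n j) r3 w3' d4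
      rw [ih _ (by omega) (z * sim n i) rfl f1 ω1 (ω2 ++ [j]) r1 w1 r4 w4,
        ih _ (by omega) (z * sim n j) rfl f2 ω1' (ω2 ++ [i]) r2 w2 r5 w5, re_snoc, re_snoc, ← mul_assoc, ← mul_assoc]
      congr 1
      have hc := C_comm P hi hj hfar
      have hcm : Commute (C (sim n i)) (C (sim n j)) := hc
      have k1 : Commute (C (sim n i)) ((v + vi) • (1 : H)) := (Commute.one_right _).smul_right _
      have k2 : Commute ((v + vi) • (1 : H)) (C (sim n j) - (v + vi) • (1 : H)) :=
        (Commute.one_left _).smul_left _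
      exact ((hcm.sub_right k1).sub_left k2).eq

/-- head moves -/
lemma head_move (P : Pack (Simp n) len b bar C D) {i j : ℕ} (hi : i + 1 < n) (hj : j + 1 < n)
    (hij : j = i + 1 ∨ i = j + 1) (Z : H) :
    (C (sim n i) - (v + vi) • (1 : H)) * ((C (sim n j) - (v + vi) • (1 : H)) * Z) = 0 ↔
      (C (sim n j) - (v + vi) • (1 : H)) * Z = 0 := by
  constructor
  · intro h
    apply rank2 P hi hj hij
    · rw [sub_mul, smul_mul_assoc, one_mul, sub_eq_zero] at h
      exact h
    · rw [← mul_assoc, mul_sub, CsCs (lenData n) P.hd P.bd P.kl (mem_simp hj), mul_smul_comm, mul_one, sub_self,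
        zero_mul]
  · intro h
    rw [h, mul_zero]

lemma rs_move (P : Pack (Simp n) len b bar C D) {i j : ℕ} {z z' : Equiv.Perm (Fin n)} (h : RS i j z z')
    (hz : FCp z) (hz' : z' = z * sim n i) (ω ω' : List ℕ) (h1 : Red n ω) (h2 : wd n ω = z)
    (h3 : Red n ω') (h4 : wd n ω' = z') (V : H) :
    re n C ω * V = 0 ↔ re n C ω' * V = 0 := by
  have hf := h.fc hz
  obtain ⟨hi, hj, hij, d1, d2, d3, d4, -⟩ := h
  obtain ⟨ω2, r2, w2⟩ := exists_red _ (z' * sim n j) rfl
  obtain ⟨r3, w3⟩ := red_snoc ω2 hj z' r2 w2 d3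
  obtain ⟨r4, w4⟩ := red_snoc (ω2 ++ [j]) hi z r3 (by rw [w3, hz']) d1
  rw [re_uniq P _ z rfl hz ω _ h1 h2 r4 w4, re_uniq P _ z' rfl hf ω' _ h3 h4 r3 w3, re_snoc, re_snoc,
    mul_assoc, mul_assoc]
  exact head_move P hi hj hij _

lemma rs_move' (P : Pack (Simp n) len b bar C D) {z z' : Equiv.Perm (Fin n)} (h : RStar z z')
    (hz : FCp z) (ω ω' : List ℕ) (h1 : Red n ω) (h2 : wd n ω = z)
    (h3 : Red n ω') (h4 : wd n ω' = z') (V : H) :
    re n C ω * V = 0 ↔ re n C ω' * V = 0 := by
  obtain ⟨i, j, h⟩ := h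
  rcases h.2.2.2.2.2.2.2 with h5 | h5
  · exact rs_move P h hz h5 ω ω' h1 h2 h3 h4 V
  · have hj := h.2.1
    have h6 : z = z' * sim n j := by rw [h5, mul_assoc, sim_sq hj, mul_one]
    exact (rs_move P h.symm (h.fc hz) h6 ω' ω h3 h4 h1 h2 V).symm

lemma conn_move (P : Pack (Simp n) len b bar C D) {z z' : Equiv.Perm (Fin n)} (h : Conn z z')
    (hz : FCp z) (ω : List ℕ) (h1 : Red n ω) (h2 : wd n ω = z) (V : H) (h0 : re n C ω * V = 0) :
    ∀ ω', Red n ω' → wd n ω' = z' → re n C ω' * V = 0 := by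
  unfold Conn at h
  induction h with
  | refl =>
    intro ω' h3 h4
    rw [← re_uniq P _ z rfl hz ω ω' h1 h2 h3 h4]
    exact h0
  | @tail u u' hu h ih =>
    intro ω' h3 h4
    obtain ⟨ω2, r2, w2⟩ := exists_red _ u rfl
    exact (rs_move' P h (Conn.fc hu hz) ω2 ω' r2 w2 h3 h4 V).mp (ih ω2 r2 w2)

lemma wd_reverse (ω : List ℕ) (h : ∀ i ∈ ω, i + 1 < n) : wd n ω.reverse = (wd n ω)⁻¹ := by
  induction ω with
  | nil => simp [wd]
  | cons i ω ih =>
    rw [List.reverse_cons, wd_append, wd_single, wd_cons, mul_inv_rev, ih (fun j hj => h j (by simp [hj])),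
      (lenData n).inv_s (mem_simp (h i (by simp)))]

lemma mono_data (P : Pack (Simp n) len b bar C D) (z : Equiv.Perm (Fin n)) (hm : IsMonomial C z) :
    ∃ ω, Red n ω ∧ wd n ω = z⁻¹ ∧ D (z * Fin.revPerm) = re n C ω * b Fin.revPerm := by
  obtain ⟨ω, h1, h2, h3, h4⟩ := hm
  have e : wd n ω.reverse = z⁻¹ := by rw [wd_reverse ω h1]; congr 1
  refine ⟨ω.reverse, ⟨?_, ?_⟩, e, ?_⟩
  · intro i hi; exact h1 i (List.mem_reverse.mp hi)
  · rw [e, len_inv, List.length_reverse, h3]
  · have := dual_word (lenData n) P.hd P.bd P.kl P.dd Fin.revPerm rev_max rev_inv rev_hlen (ω.map (sim n))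
      (by
        intro s hs
        rw [List.mem_map] at hs
        obtain ⟨i, hi, rfl⟩ := hs
        exact mem_simp (h1 i hi)) z (by rw [h4]; unfold wordC; rw [List.map_map]; rfl)
    rw [this]
    congr 1
    unfold wordE re
    rw [List.reverse_reverse, List.map_map]
    rfl

theorem dual_main (hb : IsHecke b) (hbar : IsBar b bar) (hC : IsKL b bar C) (hD : IsDual b C D)
    (z z' : Equiv.Perm (Fin n)) (hz : FCp z) (hs : LeftCell C z z') (hm : IsMonomial C z)
    (hm' : IsMonomial C z') (X : H) (hX : D (z * Fin.revPerm) * X = 0) : D (z' * Fin.revPerm) * X = 0 := by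
  have P : Pack (Simp n) len b bar C D :=
    ⟨hb.toHData, hbar.toBarData, hbar.inv_right, hC.toKLData, hD.toDualData⟩
  obtain ⟨hz', g2⟩ := chain_gen P hs.2 hz
  obtain ⟨-, g1⟩ := chain_gen P hs.1 hz'
  have hc := cell_conn (P.op (lenData n)) _ _ z⁻¹ z'⁻¹ rfl rfl (fc_inv z hz) (fc_inv z' hz') g1 g2
  obtain ⟨ω, r1, w1, e1⟩ := mono_data P z hm
  obtain ⟨ω', r2, w2, e2⟩ := mono_data P z' hm'
  rw [e1, mul_assoc] at hX
  rw [e2, mul_assoc]
  exact conn_move P hc (fc_inv z hz) ω r1 w1 _ hX ω' r2 w2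

end

end Pool.Agent.LibKLD42
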