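import Pool.Agent.LibKLD42.M3

set_option autoImplicit false
set_option linter.unusedSectionVars false
set_option linter.unusedSimpArgs false

namespace Pool.Agent.LibKLD42

open LaurentPolynomial

section

variable {n : ℕ} {H : Type} [Ring H] [Algebra A H]
  {b : Module.Basis (Equiv.Perm (Fin n)) A H} {bar : H →+* H} {C D : Equiv.Perm (Fin n) → H}

/-- `y` preserves the set of the first points up to `i` -/
def PresI (i : ℕ) (y : Equiv.Perm (Fin n)) : Prop := ∀ k : Fin n, (k : ℕ) ≤ i ↔ (y k : ℕ) ≤ i

lemma pres_one (i : ℕ) : PresI i (1 : Equiv.Perm (Fin n)) := fun k => by simp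

lemma pres_mul {i j : ℕ} (hj : j + 1 < n) (hij : j ≠ i) (y : Equiv.Perm (Fin n)) (h : PresI i y) :
    PresI i (y * sim n j) := by
  intro k
  rw [Equiv.Perm.mul_apply, ← h, sim_val hj]
  split_ifs <;> omega

lemma pres_of_mul {i j : ℕ} (hj : j + 1 < n) (hij : j ≠ i) (y : Equiv.Perm (Fin n))
    (h : PresI i (y * sim n j)) : PresI i y := by
  have := pres_mul hj hij _ h
  rwa [mul_assoc, sim_sq hj, mul_one] at this

lemma pres_up {i : ℕ} (hi : i + 1 < n) (y : Equiv.Perm (Fin n)) (h : PresI i y) :
    vl y i < vl y (i + 1) := by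
  have h1 := (h ⟨i, Nat.lt_of_succ_lt hi⟩).mp (le_refl i)
  have h2 := h ⟨i + 1, hi⟩
  have h3 : ¬ ((y ⟨i + 1, hi⟩ : ℕ) ≤ i) := by
    intro h4
    have : i + 1 ≤ i := h2.mpr h4
    omega
  rw [vl_of y hi, vl_of y (Nat.lt_of_succ_lt hi)]
  omega

lemma supp_cw (P : Pack (Simp n) len b bar C D) {i : ℕ} (ω : List ℕ) :
    (∀ j ∈ ω, j + 1 < n) → i ∉ ω → ∀ y, b.repr (cw C ω) y ≠ 0 → PresI i y := by
  induction ω using List.reverseRecOn with
  | nil =>
    intro _ _ y hy
    have e : cw C [] = b 1 := by rw [b_one (lenData n) P.hd]; simp [cw]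
    rw [e, b.repr_self] at hy
    by_cases h : y = 1
    · rw [h]; exact pres_one i
    · exact absurd (Finsupp.single_eq_of_ne h) hy
  | append_singleton ω j ih =>
    intro hω hi y hy
    have hj : j + 1 < n := hω j (by simp)
    have hji : j ≠ i := by rintro rfl; exact hi (by simp)
    have ih' := ih (fun m hm => hω m (by simp [hm])) (fun h => hi (by simp [h]))
    have e1 : b.repr (cw C ω * C (sim n j)) y = b.repr (cw C ω) (y * sim n j) +
        (if len (y * sim n j) < len y then vi * b.repr (cw C ω) y else v * b.repr (cw C ω) y) := by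
      rw [C_s (lenData n) P.hd P.bd P.kl (mem_simp hj), mul_add, mul_smul_comm, mul_one, map_add, map_smul,
        Finsupp.add_apply, Finsupp.smul_apply, repr_mul_bs (lenData n) P.hd (mem_simp hj), smul_eq_mul]
      split_ifs <;> ring
    by_cases h1 : b.repr (cw C ω) (y * sim n j) = 0
    · by_cases h2 : b.repr (cw C ω) y = 0
      · exfalso
        apply hy
        rw [cw_append, cw_single, e1, h1, h2]
        simp
      · exact ih' y h2
    · exact pres_of_mul hj hji y (ih' _ h1)

theorem bool_mono (P : Pack (Simp n) len b bar C D) (ω : List ℕ) :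
    (∀ j ∈ ω, j + 1 < n) → ω.Nodup → len (wd n ω) = ω.length ∧ C (wd n ω) = cw C ω := by
  induction ω using List.reverseRecOn with
  | nil =>
    intro _ _
    refine ⟨by simp [wd, len_one], ?_⟩
    simp [wd, cw, C_one (lenData n) P.hd P.kl]
  | append_singleton ω i ih =>
    intro hω hnd
    have hi : i + 1 < n := hω i (by simp)
    have hω' : ∀ j ∈ ω, j + 1 < n := fun m hm => hω m (by simp [hm])
    rw [List.nodup_append] at hnd
    have hni : i ∉ ω := by
      intro h
      exact hnd.2.2 i h i (by simp) rfl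
    obtain ⟨ih1, ih2⟩ := ih hω' hnd.1
    have hs : ∀ y, b.repr (C (wd n ω)) y ≠ 0 → PresI i y := by
      rw [ih2]; exact supp_cw P ω hω' hni
    have hp : PresI i (wd n ω) := hs _ (by rw [P.kl.self]; exact one_ne_zero)
    have hup := (up_iff hi _).mpr (pres_up hi _ hp)
    refine ⟨?_, ?_⟩
    · rw [wd_append, wd_single, hup, ih1, List.length_append, List.length_singleton]
    · rw [wd_append, wd_single, cw_append, cw_single, ← ih2,
        CCs_up (lenData n) P.hd P.bd P.kl (mem_simp hi) hup, Finset.sum_eq_zero, add_zero]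
      intro y _
      unfold mm mu
      split_ifs with h1
      · by_cases h2 : b.repr (C (wd n ω)) y = 0
        · rw [h2]; simp
        · have := (up_iff hi y).mpr (pres_up hi y (hs y h2))
          omega
      · rw [zero_smul]

/-- products of distinct simple reflections are monomial -/
theorem bool_main (hb : IsHecke b) (hbar : IsBar b bar) (hC : IsKL b bar C) (hD : IsDual b C D)
    (ω : List ℕ) (h : ∀ i ∈ ω, i + 1 < n) (hnd : ω.Nodup) : IsMonomial C (ω.map (sim n)).prod := by
  have P : Pack (Simp n) len b bar C D :=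
    ⟨hb.toHData, hbar.toBarData, hbar.inv_right, hC.toKLData, hD.toDualData⟩
  obtain ⟨h1, h2⟩ := bool_mono P ω h hnd
  exact ⟨ω, h, rfl, h1.symm, h2⟩

end

end Pool.Agent.LibKLD42
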