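import Pool.Agent.LibKLD42.M3

set_option autoImplicit false
set_option linter.unusedSectionVars false
set_option linter.unusedSimpArgs false

namespace Pool.Agent.LibKLD42

open LaurentPolynomial

lemma sgn_sq (k : ℤ) : (((-1 : ℤˣ) ^ k : ℤˣ) : ℤ) * (((-1 : ℤˣ) ^ k : ℤˣ) : ℤ) = 1 := by
  rw [← Units.val_mul]
  rcases Int.units_eq_one_or ((-1 : ℤˣ) ^ k) with h | h <;> rw [h] <;> simp

lemma ng_ng (a : A) : ng (ng a) = a := by
  ext k
  rw [ng_coeff, ng_coeff, ← mul_assoc, sgn_sq, one_mul]

lemma ng_inv (a : A) : invert (ng a) = ng (invert a) := by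
  ext k
  rw [invert_apply, ng_coeff, ng_coeff, invert_apply]
  congr 2
  rw [zpow_neg]
  rcases Int.units_eq_one_or ((-1 : ℤˣ) ^ k) with h | h <;> rw [h] <;> simp

section

variable {W : Type} [Group W] [Fintype W] [DecidableEq W] {S : Set W} {l : W → ℕ}
  (L : LenData S l) {H : Type} [Ring H] [Algebra A H] {b : Module.Basis W A H}
  (HD : HData S l b) {bar : H →+* H} (BD : BarData b bar) (BI : ∀ w, b w⁻¹ * bar (b w) = 1) {C : W → H}
  (KL : KLData l b bar C) {D : W → H} (DD : DualData b C D)

include L in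
/-- induction along right multiplication by simple reflections -/
lemma len_induct (p : W → Prop) (h1 : p 1)
    (h2 : ∀ w s, s ∈ S → l (w * s) = l w + 1 → p w → p (w * s)) : ∀ (N : ℕ) (w : W), l w = N → p w := by
  intro N
  induction N with
  | zero =>
    intro w hw
    have h : w = 1 := by
      by_contra h
      obtain ⟨s, hs, h2⟩ := L.desc w h
      omega
    rw [h]; exact h1
  | succ N ih =>
    intro w hw
    have h3 : w ≠ 1 := by
      intro h; rw [h, L.one] at hw; omega
    obtain ⟨s, hs, h4⟩ := L.desc w h3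
    obtain ⟨w', rfl⟩ : ∃ w', w = w' * s := ⟨w * s, (L.ss hs w).symm⟩
    rw [L.ss hs] at h4
    have h5 : l (w' * s) = l w' + 1 := by
      rcases L.right s hs w' with h | h <;> omega
    exact h2 w' s hs h5 (ih w' (by omega))

include L HD BD in
lemma sp_mul_b (x : H) (u : W) : sp b bar (x * b u) = sp b bar x * bar (b u) := by
  refine len_induct L (fun u => sp b bar (x * b u) = sp b bar x * bar (b u)) ?_ ?_ _ u rfl
  · rw [b_one L HD, map_one, mul_one, mul_one]
  · intro w s hs h ih
    rw [← bs_up L HD hs h, ← mul_assoc, sp_mul_bs L HD BD hs, ih, map_mul, mul_assoc]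

include L HD BD in
lemma sp_mul (x y : H) : sp b bar (x * y) = sp b bar x * sp b bar y := by
  conv_lhs => rw [← b.sum_repr y, Finset.mul_sum, sp_sum]
  unfold sp
  rw [Finset.mul_sum]
  apply Finset.sum_congr rfl
  intro u _
  have h1 := sp_smul (b := b) (bar := bar) (b.repr y u) (x * b u)
  have h2 := sp_mul_b L HD BD x u
  unfold sp at h1 h2
  rw [mul_smul_comm, h1, h2, mul_smul_comm]

include L HD BD in
lemma sp_bar_b (u : W) : sp b bar (bar (b u)) = b u := by
  refine len_induct L (fun u => sp b bar (bar (b u)) = b u) ?_ ?_ _ u rfl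
  · rw [b_one L HD, map_one, ← b_one L HD, sp_b, b_one L HD, map_one]
  · intro w s hs h ih
    rw [← bs_up L HD hs h, map_mul, bar_bs L HD BD hs, mul_add, mul_smul_comm, mul_one, sp_add, sp_smul,
      sp_mul_bs L HD BD hs, ih, bar_bs L HD BD hs, mul_add, mul_smul_comm, mul_one, map_sub, ng_v, ng_vi, add_assoc,
      ← add_smul]
    have : v - vi + (-v - -vi) = 0 := by ring
    rw [this, zero_smul, add_zero]

include L HD BD in
lemma sp_sp (x : H) : sp b bar (sp b bar x) = x := by
  have h : sp b bar x = ∑ y, ng (b.repr x y) • bar (b y) := rfl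
  rw [h, sp_sum]
  conv_rhs => rw [← b.sum_repr x]
  apply Finset.sum_congr rfl
  intro y _
  rw [sp_smul, ng_ng, sp_bar_b L HD BD]

include BD BI in
lemma bar_bar_b (w : W) : bar (bar (b w)) = b w := by
  have h1 : bar (bar (b w)) * bar (b w⁻¹) = 1 := by
    rw [← map_mul, BD.inv w, map_one]
  have h2 : bar (b w⁻¹) * b w = 1 := by
    have := BD.inv w⁻¹
    rwa [inv_inv] at this
  calc bar (bar (b w)) = bar (bar (b w)) * (bar (b w⁻¹) * b w) := by rw [h2, mul_one]
    _ = b w := by rw [← mul_assoc, h1, one_mul]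

include L HD BD BI in
lemma bar_sp (x : H) : bar (sp b bar x) = sp b bar (bar x) := by
  have h : sp b bar x = ∑ y, ng (b.repr x y) • bar (b y) := rfl
  have h' : bar x = ∑ y, (invert (b.repr x y)) • bar (b y) := by
    conv_lhs => rw [← b.sum_repr x, map_sum]
    apply Finset.sum_congr rfl
    intro u _
    exact BD.semi _ _
  rw [h, h', map_sum, sp_sum]
  apply Finset.sum_congr rfl
  intro y _
  rw [BD.semi, bar_bar_b BD BI, sp_smul, sp_bar_b L HD BD, ng_inv]

include L HD BD BI KL DD in
/-- The duality `D (w0 z) = b w0 * sp (C z)` for all `z`. -/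
theorem dual_right (w0 : W) (hmax : ∀ y, l y ≤ l w0) (hinv : w0⁻¹ = w0)
    (hlen : ∀ y, l (w0 * y) + l y⁻¹ = l w0) (z : W) :
    D (w0 * z) = b w0 * sp b bar (C z) := by
  have hE : sp b bar (C z) = ∑ y, ng (b.repr (C z) y) • bar (b y) := rfl
  have hG : b w0 * sp b bar (C z) = ∑ y, ng (b.repr (C z) y) • b (w0 * y) := by
    rw [hE, Finset.mul_sum]
    apply Finset.sum_congr rfl
    intro y _
    have e1 : b w0 = b (w0 * y) * b y⁻¹ := by
      rw [HD.mul (w0 * y) y⁻¹ (by rw [mul_inv_cancel_right]; exact (hlen y).symm), mul_inv_cancel_right]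
    rw [mul_smul_comm, e1, mul_assoc, BI, mul_one]
  have hkey : ∀ u, tau b (b w0 * sp b bar (C z) * C u) = if u = (w0 * z)⁻¹ then 1 else 0 := by
    intro u
    set c : A := tau b (b w0 * sp b bar (C z) * C u) with hc
    have hc1 : invert c = c := by
      have e1 : c = b.repr (sp b bar (C z) * C u) w0 := by
        rw [repr_eq_tau L HD, hinv, hc, tau_comm L HD (sp b bar (C z) * C u) (b w0), ← mul_assoc]
      rw [e1]
      apply top_inv L HD BD w0 hmax
      rw [map_mul, KL.bar, bar_sp L HD BD BI, KL.bar]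
    have hc2 : c = ∑ y, ng (b.repr (C z) y) * b.repr (C u) (w0 * y)⁻¹ := by
      rw [hc, hG, Finset.sum_mul, tau_sum]
      apply Finset.sum_congr rfl
      intro y _
      rw [smul_mul_assoc, tau_smul, tau_comm L HD, repr_eq_tau L HD (C u), inv_inv]
    have hq : ∀ g k, k < (0 : ℤ) → (b.repr (C u) g).coeff k = 0 := by
      intro g k hk
      by_cases hg : g = u
      · rw [hg, KL.self, coeff_one, if_neg (by omega)]
      · exact KL.pos u g hg k (by omega)
    have hc3 : ∀ k : ℤ, k ≤ 0 → c.coeff k = (if u = (w0 * z)⁻¹ then (1 : A) else 0).coeff k := by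
      intro k hk
      rw [hc2, AddMonoidAlgebra.coeff_sum, Finsupp.finsetSum_apply, Finset.sum_eq_single z]
      · rw [KL.self, map_one, one_mul]
        by_cases hu : u = (w0 * z)⁻¹
        · rw [← hu, if_pos rfl, KL.self]
        · rw [if_neg hu, KL.pos u _ (fun h => hu h.symm) k hk]; simp
      · intro y _ hy
        apply pos_mul _ _ _ (fun k' hk' => hq _ k' hk') k hk
        intro k' hk'
        rw [ng_coeff, KL.pos z y hy k' hk', mul_zero]
      · intro h; exact absurd (Finset.mem_univ _) h
    ext k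
    rcases le_or_gt k 0 with hk | hk
    · exact hc3 k hk
    · have h1 : c.coeff k = c.coeff (-k) := by
        conv_lhs => rw [← hc1, invert_apply]
      rw [h1, hc3 (-k) (by omega)]
      split_ifs
      · rw [coeff_one, coeff_one, if_neg (by omega), if_neg (by omega)]
      · simp
  rw [← sub_eq_zero]
  apply nondegC L HD KL
  intro u
  rw [sub_mul, tau_sub, hkey u, DD, sub_self]

include KL in
lemma C_span : ∀ (N : ℕ) (u : W), l u = N → b u ∈ Submodule.span A (Set.range C) := by
  intro N
  induction N using Nat.strong_induction_on with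
  | _ N ih =>
    intro u hu
    have h1 : C u = b u + ∑ y ∈ Finset.univ.erase u, b.repr (C u) y • b y := by
      conv_lhs => rw [← b.sum_repr (C u)]
      rw [← Finset.add_sum_erase _ _ (Finset.mem_univ u), KL.self, one_smul]
    have h2 : b u = C u - ∑ y ∈ Finset.univ.erase u, b.repr (C u) y • b y := eq_sub_of_add_eq h1.symm
    rw [h2]
    apply Submodule.sub_mem
    · exact Submodule.subset_span ⟨u, rfl⟩
    · apply Submodule.sum_mem
      intro y hy
      by_cases h0 : b.repr (C u) y = 0
      · rw [h0, zero_smul]; exact Submodule.zero_mem _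
      · rcases KL.tri u y h0 with h3 | h3
        · exact absurd h3 (Finset.ne_of_mem_erase hy)
        · exact Submodule.smul_mem _ _ (ih (l y) (by omega) y rfl)

include KL in
lemma C_span' (X : H) : X ∈ Submodule.span A (Set.range C) := by
  rw [← b.sum_repr X]
  exact Submodule.sum_mem _ (fun y _ => Submodule.smul_mem _ _ (C_span KL _ y rfl))

include L HD BD BI KL DD in
/-- the coefficient of `C (x w0)` in products by `sp Z` and that of `C x⁻¹` in `Z` -/
theorem coeff_w0 (w0 : W) (hmax : ∀ y, l y ≤ l w0) (hinv : w0⁻¹ = w0)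
    (hlen : ∀ y, l (w0 * y) + l y⁻¹ = l w0) (x : W) (Z : H) :
    tau b (b w0 * sp b bar Z * C (x * w0)) = ng (tau b (D x * Z)) := by
  have hZ := C_span' KL Z
  induction hZ using Submodule.span_induction with
  | mem X hX =>
    obtain ⟨a, rfl⟩ := hX
    rw [← dual_right L HD BD BI KL DD w0 hmax hinv hlen a, DD, DD]
    have e : x * w0 = (w0 * a)⁻¹ ↔ a = x⁻¹ := by
      rw [mul_inv_rev, hinv]
      constructor
      · intro h
        rw [mul_right_cancel h, inv_inv]
      · intro h
        rw [h, inv_inv]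
    by_cases h : a = x⁻¹
    · rw [if_pos h, if_pos (e.mpr h), map_one]
    · rw [if_neg h, if_neg (fun h' => h (e.mp h')), map_zero]
  | zero => simp [sp, tau]
  | add X Y _ _ hX hY =>
    rw [sp_add, mul_add, add_mul, tau_add, hX, hY, mul_add, tau_add, map_add]
  | smul a X _ hX =>
    rw [sp_smul, mul_smul_comm, smul_mul_assoc, tau_smul, hX, mul_smul_comm, tau_smul, map_mul]

end

end Pool.Agent.LibKLD42
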