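import Pool.Agent.LibKLD42.M5

set_option autoImplicit false
set_option linter.unusedSectionVars false
set_option linter.unusedSimpArgs false

namespace Pool.Agent.LibKLD42

open LaurentPolynomial

section

variable {n : ℕ} {H : Type} [Ring H] [Algebra A H]
  {b : Module.Basis (Equiv.Perm (Fin n)) A H} {bar : H →+* H} {C D : Equiv.Perm (Fin n) → H}

lemma rev_sq : (Fin.revPerm : Equiv.Perm (Fin n)) * Fin.revPerm = 1 := by
  ext k
  simp

lemma rev_hlen' (y : Equiv.Perm (Fin n)) :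
    len (Fin.revPerm * y) + len y⁻¹ = len (Fin.revPerm : Equiv.Perm (Fin n)) := by
  have h := rev_hlen y⁻¹
  rw [inv_inv] at h
  have e : len (Fin.revPerm * y) = len (y⁻¹ * Fin.revPerm) := by
    rw [← len_inv, mul_inv_rev, rev_inv]
  rw [e, len_inv]
  omega

/-- one step of the left preorder, multiplied by the longest element, on the inverses -/
lemma leftLe_w0 (P : Pack (Simp n) len b bar C D) {u u' : Equiv.Perm (Fin n)} (h : LeftLe C u u') :
    ∃ h : H, ff b D (u * Fin.revPerm)⁻¹ (C (u' * Fin.revPerm)⁻¹ * h) ≠ 0 := by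
  obtain ⟨h, hne⟩ := leftLe_ff P h
  set x : Equiv.Perm (Fin n) := u * Fin.revPerm with hx
  set y : Equiv.Perm (Fin n) := u' * Fin.revPerm with hy
  have ex : u = x * Fin.revPerm := by rw [hx, mul_assoc, rev_sq, mul_one]
  have ey : u'⁻¹ = Fin.revPerm * y⁻¹ := by
    rw [hy, mul_inv_rev, rev_inv, ← mul_assoc, rev_sq, one_mul]
  refine ⟨sp b bar h, ?_⟩
  intro h0
  apply hne
  unfold ff at h0 ⊢
  rw [inv_inv] at h0
  rw [ey, ex, dual_right (lenData n) P.hd P.bd P.bi P.kl P.dd Fin.revPerm rev_max rev_inv rev_hlen' y⁻¹, ← mul_assoc,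
    mul_assoc (b Fin.revPerm), ← sp_sp (lenData n) P.hd P.bd h, ← sp_mul (lenData n) P.hd P.bd,
    coeff_w0 (lenData n) P.hd P.bd P.bi P.kl P.dd Fin.revPerm rev_max rev_inv rev_hlen' x, h0, map_zero]

lemma chain_w0 (P : Pack (Simp n) len b bar C D) {u u' : Equiv.Perm (Fin n)}
    (h : Relation.ReflTransGen (LeftLe C) u u') (hu : FCp (u * Fin.revPerm)) :
    FCp (u' * Fin.revPerm) ∧ Gen P (u' * Fin.revPerm)⁻¹ (u * Fin.revPerm)⁻¹ := by
  induction h with
  | refl =>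
    refine ⟨hu, [], 0, by simp, ?_⟩
    simp [cw]
  | @tail m u' _ h ih =>
    obtain ⟨hm, g⟩ := ih
    obtain ⟨h1, h2⟩ := leftLe_w0 P h
    have hf : FCp (u' * Fin.revPerm)⁻¹ := by
      by_contra hc
      exact h2 (right_ideal P _ hc h1 _ (fc_inv _ hm))
    refine ⟨?_, (gen_of_ff P _ _ (fc_inv _ hm) h1 h2).trans g⟩
    have := fc_inv _ hf
    rwa [inv_inv] at this

theorem dual_cell (hb : IsHecke b) (hbar : IsBar b bar) (hC : IsKL b bar C) (hD : IsDual b C D)
    (w w' : Equiv.Perm (Fin n)) (hw : FCp (w * Fin.revPerm)) (hs : LeftCell C w w')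
    (hm : IsMonomial C (w * Fin.revPerm)) (hm' : IsMonomial C (w' * Fin.revPerm))
    (X : H) (hX : D w * X = 0) : D w' * X = 0 := by
  have P : Pack (Simp n) len b bar C D :=
    ⟨hb.toHData, hbar.toBarData, hbar.inv_right, hC.toKLData, hD.toDualData⟩
  obtain ⟨hw', g1⟩ := chain_w0 P hs.1 hw
  obtain ⟨-, g2⟩ := chain_w0 P hs.2 hw'
  have hc := cell_conn P _ _ (w * Fin.revPerm)⁻¹ (w' * Fin.revPerm)⁻¹ rfl rfl (fc_inv _ hw) (fc_inv _ hw') g2 g1
  obtain ⟨ω, r1, w1, e1⟩ := mono_data P _ hm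
  obtain ⟨ω', r2, w2, e2⟩ := mono_data P _ hm'
  rw [mul_assoc, rev_sq, mul_one] at e1 e2
  rw [e1, mul_assoc] at hX
  rw [e2, mul_assoc]
  exact conn_move P hc (fc_inv _ hw) ω r1 w1 _ hX ω' r2 w2

end

end Pool.Agent.LibKLD42
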