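import Pool.Agent.LibKLD42.P2
import Pool.Agent.LibKLD42.H5

set_option autoImplicit false
set_option linter.unusedSectionVars false
set_option linter.unusedSimpArgs false

namespace Pool.Agent.LibKLD42

open LaurentPolynomial

/-- all the data together -/
structure Pack {W : Type} [Group W] [DecidableEq W] (S : Set W) (l : W → ℕ) {H : Type} [Ring H] [Algebra A H]
    (b : Module.Basis W A H) (bar : H →+* H) (C D : W → H) : Prop where
  hd : HData S l b
  bd : BarData b bar
  bi : ∀ w, b w⁻¹ * bar (b w) = 1
  kl : KLData l b bar C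
  dd : DualData b C D

section

variable {W : Type} [Group W] [Fintype W] [DecidableEq W] {S : Set W} {l : W → ℕ}
  (L : LenData S l) {H : Type} [Ring H] [Algebra A H]

/-- the opposite basis -/
noncomputable def opb (b : Module.Basis W A H) : Module.Basis W A Hᵐᵒᵖ :=
  (b.map (MulOpposite.opLinearEquiv A)).reindex (Equiv.inv W)

lemma opb_apply (b : Module.Basis W A H) (w : W) : opb b w = MulOpposite.op (b w⁻¹) := by
  simp [opb, Module.Basis.reindex_apply]

lemma opb_repr (b : Module.Basis W A H) (X : Hᵐᵒᵖ) (w : W) :
    (opb b).repr X w = b.repr (MulOpposite.unop X) w⁻¹ := by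
  unfold opb
  rw [Module.Basis.repr_reindex_apply, Module.Basis.map_repr]
  rfl

lemma opb_tau (b : Module.Basis W A H) (X : Hᵐᵒᵖ) :
    tau (opb b) X = tau b (MulOpposite.unop X) := by
  unfold tau
  rw [opb_repr, inv_one]

variable {b : Module.Basis W A H} {bar : H →+* H} {C D : W → H}

lemma opbar (X : Hᵐᵒᵖ) : (RingHom.op bar) X = MulOpposite.op (bar (MulOpposite.unop X)) := rfl

include L in
lemma Pack.op (P : Pack S l b bar C D) :
    Pack S l (opb b) (RingHom.op bar) (fun w => MulOpposite.op (C w⁻¹)) (fun w => MulOpposite.op (D w⁻¹)) where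
  hd := {
    mul := by
      intro x y h
      rw [opb_apply, opb_apply, opb_apply, ← MulOpposite.op_mul, P.hd.mul, mul_inv_rev]
      rw [L.inv, L.inv, ← mul_inv_rev, L.inv, h, add_comm]
    sqb := by
      intro s hs
      rw [opb_apply, opb_apply, ← MulOpposite.op_mul, L.inv_s hs, P.hd.sqb s hs, inv_one,
        MulOpposite.op_add, MulOpposite.op_smul] }
  bd := {
    semi := by
      intro a x
      rw [opbar, opbar, MulOpposite.unop_smul, P.bd.semi, MulOpposite.op_smul]
    inv := by
      intro w
      rw [opb_apply, opb_apply, opbar, MulOpposite.unop_op, ← MulOpposite.op_mul, P.bi w⁻¹,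
        MulOpposite.op_one] }
  bi := by
    intro w
    rw [opb_apply, opb_apply, opbar, MulOpposite.unop_op, ← MulOpposite.op_mul, P.bd.inv w⁻¹,
      MulOpposite.op_one]
  kl := {
    bar := by
      intro w
      rw [opbar, MulOpposite.unop_op, P.kl.bar]
    self := by
      intro w
      rw [opb_repr, MulOpposite.unop_op, P.kl.self]
    tri := by
      intro w y h
      rw [opb_repr, MulOpposite.unop_op] at h
      rcases P.kl.tri _ _ h with h1 | h1
      · left; exact inv_injective h1
      · right; rwa [L.inv, L.inv] at h1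
    pos := by
      intro w y h k hk
      rw [opb_repr, MulOpposite.unop_op]
      exact P.kl.pos _ _ (fun e => h (inv_injective e)) k hk }
  dd := by
    intro w u
    rw [opb_tau, ← MulOpposite.op_mul, MulOpposite.unop_op, tau_comm L P.hd, P.dd]
    by_cases h : u = w⁻¹
    · rw [if_pos h, if_pos (by rw [h])]
    · rw [if_neg h, if_neg (fun e => h (inv_injective e))]

end

end Pool.Agent.LibKLD42
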