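import Pool.Agent.LibKLD42.H4

set_option autoImplicit false
set_option linter.unusedSectionVars false

namespace Pool.Agent.LibKLD42

/-- The length of a permutation: its number of inversions. -/
def len {n : ℕ} (w : Equiv.Perm (Fin n)) : ℕ :=
  (Finset.univ.filter (fun p : Fin n × Fin n => p.1 < p.2 ∧ w p.2 < w p.1)).card

/-- The adjacent transposition of the points `i` and `i + 1` of `Fin n` (for `i + 1 < n`). -/
def sim (n i : ℕ) : Equiv.Perm (Fin n) :=
  if h : i + 1 < n then Equiv.swap ⟨i, Nat.lt_of_succ_lt h⟩ ⟨i + 1, h⟩ else 1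

/-- The set of adjacent transpositions (the simple reflections). -/
def Simp (n : ℕ) : Set (Equiv.Perm (Fin n)) := {s | ∃ i, i + 1 < n ∧ s = sim n i}

variable {n : ℕ}

lemma sim_eq {i : ℕ} (h : i + 1 < n) :
    sim n i = Equiv.swap ⟨i, Nat.lt_of_succ_lt h⟩ ⟨i + 1, h⟩ := dif_pos h

lemma sim_val {i : ℕ} (h : i + 1 < n) (k : Fin n) :
    ((sim n i) k : ℕ) = if (k : ℕ) = i then i + 1 else if (k : ℕ) = i + 1 then i else k := by
  rw [sim_eq h, Equiv.swap_apply_def]
  simp only [Fin.ext_iff]
  split_ifs <;> rfl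

lemma sim_sq {i : ℕ} (h : i + 1 < n) : sim n i * sim n i = 1 := by
  rw [sim_eq h, Equiv.swap_mul_self]

lemma sim_app {i : ℕ} (h : i + 1 < n) (k : Fin n) : sim n i (sim n i k) = k := by
  have := congrArg (fun f : Equiv.Perm (Fin n) => f k) (sim_sq h)
  simpa using this

lemma len_up {i : ℕ} (h : i + 1 < n) (w : Equiv.Perm (Fin n))
    (hw : w ⟨i, Nat.lt_of_succ_lt h⟩ < w ⟨i + 1, h⟩) : len (w * sim n i) = len w + 1 := by
  set a : Fin n := ⟨i, Nat.lt_of_succ_lt h⟩ with ha
  set c : Fin n := ⟨i + 1, h⟩ with hc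
  have hsa : sim n i a = c := by apply Fin.ext; rw [sim_val h]; simp [ha, hc]
  have hsc : sim n i c = a := by apply Fin.ext; rw [sim_val h]; simp [ha, hc]
  have hord : ∀ p q : Fin n, p < q → ¬ (p = a ∧ q = c) → sim n i p < sim n i q := by
    intro p q hpq hne
    rw [Fin.lt_def, sim_val h, sim_val h]
    rw [Fin.lt_def] at hpq
    simp only [Fin.ext_iff, ha, hc] at hne
    split_ifs <;> omega
  unfold len
  set I := Finset.univ.filter (fun p : Fin n × Fin n => p.1 < p.2 ∧ w p.2 < w p.1) with hI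
  set f : Fin n × Fin n → Fin n × Fin n := fun p => (sim n i p.1, sim n i p.2) with hf
  have hinj : Function.Injective f := by
    intro p q hpq
    simp only [hf, Prod.mk.injEq, EmbeddingLike.apply_eq_iff_eq] at hpq
    exact Prod.ext hpq.1 hpq.2
  have hnot : (a, c) ∉ I.image f := by
    rw [Finset.mem_image]
    rintro ⟨p, hp, hpe⟩
    simp only [hI, Finset.mem_filter, Finset.mem_univ, true_and] at hp
    simp only [hf, Prod.mk.injEq] at hpe
    have h1 : p.1 = c := by rw [← hsa, ← hpe.1, sim_app h]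
    have h2 : p.2 = a := by rw [← hsc, ← hpe.2, sim_app h]
    rw [h1, h2, Fin.lt_def] at hp
    simp only [ha, hc] at hp
    omega
  have hset : Finset.univ.filter (fun p : Fin n × Fin n => p.1 < p.2 ∧ (w * sim n i) p.2 < (w * sim n i) p.1)
      = insert (a, c) (I.image f) := by
    ext p
    simp only [Finset.mem_filter, Finset.mem_univ, true_and, Finset.mem_insert, Finset.mem_image,
      Equiv.Perm.mul_apply]
    constructor
    · rintro ⟨h1, h2⟩
      by_cases h3 : p.1 = a ∧ p.2 = c
      · left; exact Prod.ext h3.1 h3.2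
      · right
        refine ⟨(sim n i p.1, sim n i p.2), ?_, ?_⟩
        · simp only [hI, Finset.mem_filter, Finset.mem_univ, true_and]
          exact ⟨hord _ _ h1 h3, h2⟩
        · simp only [hf, sim_app h]
    · rintro (h1 | ⟨q, hq, hqe⟩)
      · rw [h1]
        simp only [hsa, hsc]
        refine ⟨?_, hw⟩
        rw [Fin.lt_def]; simp [ha, hc]
      · simp only [hI, Finset.mem_filter, Finset.mem_univ, true_and] at hq
        have h4 : p.1 = sim n i q.1 := by rw [← hqe]
        have h5 : p.2 = sim n i q.2 := by rw [← hqe]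
        rw [h4, h5, sim_app h, sim_app h]
        refine ⟨hord _ _ hq.1 ?_, hq.2⟩
        rintro ⟨h6, h7⟩
        rw [h6, h7] at hq
        exact absurd hq.2 (not_lt.mpr hw.le)
  rw [hset, Finset.card_insert_of_notMem hnot, Finset.card_image_of_injective _ hinj]

lemma len_dn {i : ℕ} (h : i + 1 < n) (w : Equiv.Perm (Fin n))
    (hw : w ⟨i + 1, h⟩ < w ⟨i, Nat.lt_of_succ_lt h⟩) : len (w * sim n i) + 1 = len w := by
  have h1 := len_up h (w * sim n i) (by
    have hsa : sim n i ⟨i, Nat.lt_of_succ_lt h⟩ = ⟨i + 1, h⟩ := by apply Fin.ext; rw [sim_val h]; simp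
    have hsc : sim n i ⟨i + 1, h⟩ = ⟨i, Nat.lt_of_succ_lt h⟩ := by apply Fin.ext; rw [sim_val h]; simp
    rw [Equiv.Perm.mul_apply, Equiv.Perm.mul_apply, hsa, hsc]
    exact hw)
  rw [mul_assoc, sim_sq h, mul_one] at h1
  exact h1.symm

lemma len_lt_iff {i : ℕ} (h : i + 1 < n) (w : Equiv.Perm (Fin n)) :
    len (w * sim n i) < len w ↔ w ⟨i + 1, h⟩ < w ⟨i, Nat.lt_of_succ_lt h⟩ := by
  rcases lt_trichotomy (w ⟨i, Nat.lt_of_succ_lt h⟩) (w ⟨i + 1, h⟩) with h1 | h1 | h1
  · have := len_up h w h1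
    constructor
    · intro h2; omega
    · intro h2; exact absurd h2 (not_lt.mpr h1.le)
  · have := w.injective h1
    simp at this
  · have := len_dn h w h1
    constructor
    · intro _; exact h1
    · intro _; omega

lemma len_one : len (1 : Equiv.Perm (Fin n)) = 0 := by
  unfold len
  rw [Finset.card_eq_zero, Finset.filter_eq_empty_iff]
  rintro p _ ⟨h1, h2⟩
  simp only [Equiv.Perm.one_apply] at h2
  exact absurd h2 (not_lt.mpr h1.le)

lemma len_inv (w : Equiv.Perm (Fin n)) : len w⁻¹ = len w := by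
  have key : ∀ u : Equiv.Perm (Fin n), len u⁻¹ ≤ len u := by
    intro u
    unfold len
    apply Finset.card_le_card_of_injOn (fun p => (u⁻¹ p.2, u⁻¹ p.1))
    · intro p hp
      simp only [Finset.coe_filter, Finset.mem_univ, true_and, Set.mem_setOf_eq] at hp ⊢
      refine ⟨hp.2, ?_⟩
      simpa using hp.1
    · intro p _ q _ hpq
      simp only [Prod.mk.injEq, EmbeddingLike.apply_eq_iff_eq] at hpq
      exact Prod.ext hpq.2 hpq.1
  have h1 := key w
  have h2 := key w⁻¹
  rw [inv_inv] at h2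
  omega

lemma perm_eq_one (w : Equiv.Perm (Fin n))
    (hw : ∀ (i : ℕ) (h : i + 1 < n), w ⟨i, Nat.lt_of_succ_lt h⟩ < w ⟨i + 1, h⟩) : w = 1 := by
  have mono : ∀ (d i : ℕ) (h : i + d < n), (w ⟨i, by omega⟩ : ℕ) + d ≤ w ⟨i + d, h⟩ := by
    intro d
    induction d with
    | zero => intro i h; simp
    | succ d ih =>
      intro i h
      have h1 := ih i (by omega)
      have h2 := hw (i + d) (by omega)
      rw [Fin.lt_def] at h2
      have h3 : (⟨i + d + 1, by omega⟩ : Fin n) = ⟨i + (d + 1), h⟩ := by simp [add_assoc]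
      rw [h3] at h2
      omega
  ext k
  obtain ⟨k, hk⟩ := k
  have h1 := mono k 0 (by omega)
  have h2 := mono (n - 1 - k) k (by omega)
  have h3 : (⟨0 + k, by omega⟩ : Fin n) = ⟨k, hk⟩ := by simp
  rw [h3] at h1
  have h4 := (w ⟨k + (n - 1 - k), by omega⟩).isLt
  simp only [Equiv.Perm.one_apply]
  omega

theorem lenData (n : ℕ) : LenData (Simp n) (len (n := n)) where
  sq := by
    rintro s ⟨i, h, rfl⟩
    exact sim_sq h
  right := by
    rintro s ⟨i, h, rfl⟩ x
    rcases lt_trichotomy (x ⟨i, Nat.lt_of_succ_lt h⟩) (x ⟨i + 1, h⟩) with h1 | h1 | h1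
    · left; exact len_up h x h1
    · have := x.injective h1
      simp at this
    · right; exact len_dn h x h1
  desc := by
    intro x hx
    by_contra hcon
    push_neg at hcon
    apply hx
    apply perm_eq_one
    intro i h
    have h1 := hcon (sim n i) ⟨i, h, rfl⟩
    rcases lt_trichotomy (x ⟨i, Nat.lt_of_succ_lt h⟩) (x ⟨i + 1, h⟩) with h2 | h2 | h2
    · exact h2
    · have := x.injective h2
      simp at this
    · have := len_dn h x h2
      omega
  one := len_one
  inv := len_inv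

end Pool.Agent.LibKLD42
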