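import Pool.Agent.LibKLD42.P

set_option autoImplicit false
set_option linter.unusedSectionVars false

namespace Pool.Agent.LibKLD42

variable {n : ℕ}

lemma len_left (w : Equiv.Perm (Fin n)) {i : ℕ} (h : i + 1 < n) :
    len (sim n i * w) = len (w⁻¹ * sim n i) := by
  rw [← len_inv, mul_inv_rev, (lenData n).inv_s ⟨i, h, rfl⟩]

/-- the value of a permutation as a function on natural numbers -/
def vl (w : Equiv.Perm (Fin n)) (k : ℕ) : ℕ := if h : k < n then (w ⟨k, h⟩ : ℕ) else k

lemma vl_of (w : Equiv.Perm (Fin n)) {k : ℕ} (h : k < n) : vl w k = (w ⟨k, h⟩ : ℕ) := dif_pos h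

lemma vl_inj (w : Equiv.Perm (Fin n)) {k m : ℕ} (h : k < n) (h' : m < n) (e : vl w k = vl w m) : k = m := by
  rw [vl_of w h, vl_of w h'] at e
  have := w.injective (Fin.ext e)
  simpa using this

lemma vl_mul (w : Equiv.Perm (Fin n)) {i : ℕ} (h : i + 1 < n) {k : ℕ} (hk : k < n) :
    vl (w * sim n i) k = if k = i then vl w (i + 1) else if k = i + 1 then vl w i else vl w k := by
  rw [vl_of _ hk, Equiv.Perm.mul_apply]
  have h1 := sim_val h ⟨k, hk⟩
  have h2 : sim n i ⟨k, hk⟩ = ⟨if k = i then i + 1 else if k = i + 1 then i else k, by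
      split_ifs <;> omega⟩ := by
    apply Fin.ext; rw [h1]
  rw [h2]
  split_ifs with h3 h4
  · rw [vl_of w h]
  · rw [vl_of w (Nat.lt_of_succ_lt h)]
  · rw [vl_of w hk]

lemma dn_iff {i : ℕ} (h : i + 1 < n) (w : Equiv.Perm (Fin n)) :
    len (w * sim n i) + 1 = len w ↔ vl w (i + 1) < vl w i := by
  rw [vl_of w h, vl_of w (Nat.lt_of_succ_lt h), ← Fin.lt_def, ← len_lt_iff h w]
  rcases (lenData n).right (sim n i) ⟨i, h, rfl⟩ w with h1 | h1 <;> omega

lemma up_iff {i : ℕ} (h : i + 1 < n) (w : Equiv.Perm (Fin n)) :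
    len (w * sim n i) = len w + 1 ↔ vl w i < vl w (i + 1) := by
  have h2 := dn_iff h w
  have h3 : vl w i ≠ vl w (i + 1) := by
    intro e
    have := vl_inj w (Nat.lt_of_succ_lt h) h e
    omega
  rcases (lenData n).right (sim n i) ⟨i, h, rfl⟩ w with h1 | h1
  · constructor
    · intro _
      have : ¬ (vl w (i + 1) < vl w i) := by
        rw [← h2]; omega
      omega
    · intro _; exact h1
  · constructor
    · intro _; omega
    · intro h4
      have := h2.mp h1
      omega

lemma sim_ne {i j : ℕ} (hi : i + 1 < n) (hj : j + 1 < n) (hij : i ≠ j) : sim n i ≠ sim n j := by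
  intro e
  have h1 := sim_val hi ⟨i, Nat.lt_of_succ_lt hi⟩
  have h2 := sim_val hj ⟨i, Nat.lt_of_succ_lt hi⟩
  rw [e, h2] at h1
  simp only [if_true] at h1
  split_ifs at h1 <;> omega

lemma sim_ne_iff {i j : ℕ} (hi : i + 1 < n) (hj : j + 1 < n) : sim n i ≠ sim n j ↔ i ≠ j := by
  constructor
  · rintro h rfl; exact h rfl
  · exact sim_ne hi hj

/-- not both candidates for the star operation occur -/
lemma not_both {i j : ℕ} (hi : i + 1 < n) (hj : j + 1 < n) (hij : j = i + 1 ∨ i = j + 1)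
    (g : Equiv.Perm (Fin n)) (h1 : vl g (i + 1) < vl g i) (h2 : vl g j < vl g (j + 1))
    (h3 : vl (g * sim n i) (j + 1) < vl (g * sim n i) j)
    (h4 : vl (g * sim n j) i < vl (g * sim n j) (i + 1)) : False := by
  rw [vl_mul g hi hj, vl_mul g hi (Nat.lt_of_succ_lt hj)] at h3
  rw [vl_mul g hj hi, vl_mul g hj (Nat.lt_of_succ_lt hi)] at h4
  rcases hij with rfl | rfl
  · simp at h3 h4
    split_ifs at h3 h4 <;> omega
  · simp at h3 h4
    split_ifs at h3 h4 <;> omega

lemma star_uniq {i j : ℕ} (hi : i + 1 < n) (hj : j + 1 < n) (hij : j = i + 1 ∨ i = j + 1)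
    (g g' : Equiv.Perm (Fin n)) (h1 : len (g * sim n i) + 1 = len g) (h2 : len (g * sim n j) = len g + 1)
    (h3 : len (g' * sim n j) + 1 = len g') (h4 : len (g' * sim n i) = len g' + 1)
    (hg' : g' = g * sim n i ∨ g' = g * sim n j) :
    ∀ u, len (u * sim n i) = len u + 1 → len (u * sim n j) + 1 = len u →
      (u = g * sim n i ∨ u = g * sim n j) → u = g' := by
  intro u hu1 hu2 hu
  rw [dn_iff hi] at h1
  rw [up_iff hj] at h2
  rw [dn_iff hj] at h3 hu2
  rw [up_iff hi] at h4 hu1
  rcases hu with rfl | rfl <;> rcases hg' with rfl | rfl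
  · rfl
  · exact (not_both hi hj hij g h1 h2 hu2 h4).elim
  · exact (not_both hi hj hij g h1 h2 h3 hu1).elim
  · rfl

/-- `g` ascends except at `i`; the longer star neighbour has one descent. -/
lemma one_up {i j : ℕ} (hi : i + 1 < n) (hj : j + 1 < n) (hij : j = i + 1 ∨ i = j + 1)
    (g : Equiv.Perm (Fin n)) (hg : ∀ m, m + 1 < n → m ≠ i → vl g m < vl g (m + 1))
    (h4 : vl (g * sim n j) i < vl (g * sim n j) (i + 1)) :
    ∀ m, m + 1 < n → m ≠ j → vl (g * sim n j) m < vl (g * sim n j) (m + 1) := by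
  intro m hm hmj
  by_cases hmi : m = i
  · rw [hmi]; exact h4
  rw [vl_mul g hj hm, vl_mul g hj (Nat.lt_of_succ_lt hm), if_neg hmj]
  have hm0 := hg m hm hmi
  have hj0 := hg j hj (by omega)
  by_cases h5 : m = j + 1
  · subst h5
    rw [if_pos rfl, if_neg (by omega), if_neg (by omega)]
    omega
  · rw [if_neg h5]
    by_cases h6 : m + 1 = j
    · subst h6
      rw [if_pos rfl]
      omega
    · rw [if_neg h6, if_neg (by omega)]
      exact hm0

/-- descents of `g s` when `g` ascends except at `i` -/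
lemma desc_gs {i : ℕ} (hi : i + 1 < n)
    (g : Equiv.Perm (Fin n)) (hg : ∀ m, m + 1 < n → m ≠ i → vl g m < vl g (m + 1))
    (h1 : vl g (i + 1) < vl g i) {m : ℕ} (hm : m + 1 < n)
    (h2 : vl (g * sim n i) (m + 1) < vl (g * sim n i) m) :
    (m = i + 1 ∧ vl g (i + 2) < vl g i) ∨ (i = m + 1 ∧ vl g (i + 1) < vl g m) := by
  rw [vl_mul g hi hm, vl_mul g hi (Nat.lt_of_succ_lt hm)] at h2
  by_cases hmi : m = i
  · subst hmi; simp at h2; omega
  have hm0 := hg m hm hmi
  by_cases h5 : m = i + 1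
  · subst h5
    left
    rw [if_neg (by omega), if_neg (by omega), if_neg (by omega), if_pos rfl] at h2
    exact ⟨rfl, h2⟩
  · by_cases h6 : m + 1 = i
    · subst h6
      right
      rw [if_pos rfl, if_neg (by omega), if_neg (by omega)] at h2
      exact ⟨rfl, h2⟩
    · rw [if_neg h6, if_neg (by omega), if_neg (by omega), if_neg h5] at h2
      omega

/-- `i` is a descent of `g r` for all `r ≠ i` -/
lemma desc_grs {i : ℕ} (hi : i + 1 < n)
    (g : Equiv.Perm (Fin n))
    (h1 : vl g (i + 1) < vl g i) (ha : i + 2 < n → vl g (i + 2) < vl g i)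
    (hb : ∀ k, i = k + 1 → vl g (i + 1) < vl g k) {m : ℕ} (hm : m + 1 < n) (hmi : m ≠ i) :
    vl (g * sim n m) (i + 1) < vl (g * sim n m) i := by
  rw [vl_mul g hm hi, vl_mul g hm (Nat.lt_of_succ_lt hi)]
  by_cases h5 : m = i + 1
  · subst h5
    rw [if_pos rfl, if_neg (by omega), if_neg (by omega)]
    exact ha hm
  · by_cases h6 : i = m + 1
    · have := hb m h6
      subst h6
      rw [if_neg (by omega), if_neg (by omega), if_neg (by omega), if_pos rfl]
      exact this
    · rw [if_neg (by omega), if_neg (by omega), if_neg (by omega), if_neg (by omega)]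
      exact h1

end Pool.Agent.LibKLD42
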